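import Pool.Agent.R178.HC.FinO
import Pool.Agent.R178.HC.Base0

set_option autoImplicit false

/-! The base case `t = 0`. -/

namespace Pool.Agent.R178.HC

open PowerSeries Finset Pool.Agent.R153.Sp

open scoped PowerSeries.WithPiTopology in
theorem coeff_of_hasProd {f : ℕ → PowerSeries ℚ} {G : PowerSeries ℚ} (h : HasProd f G) {n K : ℕ}
    (hf : ∀ k, K ≤ k → (X : PowerSeries ℚ) ^ (n + 1) ∣ f k - 1) :
    coeff n G = coeff n (∏ k ∈ range K, f k) := by
  have h1 := h.tendsto_prod_nat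
  have h2 : Filter.Tendsto (fun K' => coeff n (∏ k ∈ range K', f k)) Filter.atTop
      (nhds (coeff n G)) :=
    ((PowerSeries.WithPiTopology.continuous_coeff ℚ n).tendsto G).comp h1
  have h3 : ∀ K', K ≤ K' → coeff n (∏ k ∈ range K', f k) = coeff n (∏ k ∈ range K, f k) := by
    intro K' hK'
    induction K', hK' using Nat.le_induction with
    | base => rfl
    | succ m hm ih =>
      rw [prod_range_succ, ← ih]
      have h4 : (∏ k ∈ range m, f k) * f m = ∏ k ∈ range m, f k +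
          (∏ k ∈ range m, f k) * (f m - 1) := by ring
      rw [h4, map_add]
      have h5 : (X : PowerSeries ℚ) ^ (n + 1) ∣ (∏ k ∈ range m, f k) * (f m - 1) :=
        Dvd.dvd.mul_left (hf m hm) _
      rw [(X_pow_dvd_iff.1 h5) n (Nat.lt_succ_self n), add_zero]
  have h6 : Filter.Tendsto (fun K' => coeff n (∏ k ∈ range K', f k)) Filter.atTop
      (nhds (coeff n (∏ k ∈ range K, f k))) := by
    apply tendsto_const_nhds.congr'
    filter_upwards [Filter.eventually_ge_atTop K] with K' hK'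
    exact (h3 K' hK').symm
  exact tendsto_nhds_unique h2 h6

theorem a_mul (n K : ℕ) (h : n < 4 * K + 2) :
    coeff n (PowerSeries.mk Base0.a * ∏ k ∈ range K, (1 + X ^ (4 * k + 2) : PowerSeries ℚ)) =
      coeff n (1 : PowerSeries ℚ) := by
  have hne : ∀ k, constantCoeff (1 + X ^ (4 * k + 2) : PowerSeries ℚ) ≠ 0 := by
    intro k; simp
  have hfac : ∀ m, m ≤ n → coeff m (PowerSeries.mk Base0.a) =
      coeff m (∏ k ∈ range K, (1 + X ^ (4 * (k + 1) - 2) : PowerSeries ℚ)⁻¹) := by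
    intro m hm
    apply coeff_of_hasProd Base0.result
    intro k hk
    have e : 4 * (k + 1) - 2 = 4 * k + 2 := by omega
    rw [e]
    have h1 : (1 + X ^ (4 * k + 2) : PowerSeries ℚ)⁻¹ - 1 =
        X ^ (4 * k + 2) * (-(1 + X ^ (4 * k + 2) : PowerSeries ℚ)⁻¹) := by
      have h2 := PowerSeries.mul_inv_cancel _ (hne k)
      linear_combination h2
    rw [h1]
    exact Dvd.dvd.mul_right (pow_dvd_pow X (by omega)) _
  have h3 : (∏ k ∈ range K, (1 + X ^ (4 * (k + 1) - 2) : PowerSeries ℚ)⁻¹) *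
      ∏ k ∈ range K, (1 + X ^ (4 * k + 2) : PowerSeries ℚ) = 1 := by
    rw [← prod_mul_distrib]
    apply prod_eq_one
    intro k _
    have e : 4 * (k + 1) - 2 = 4 * k + 2 := by omega
    rw [e]
    exact PowerSeries.inv_mul_cancel _ (hne k)
  have h5 : coeff n (PowerSeries.mk Base0.a * ∏ k ∈ range K, (1 + X ^ (4 * k + 2) : PowerSeries ℚ)) =
      coeff n ((∏ k ∈ range K, (1 + X ^ (4 * (k + 1) - 2) : PowerSeries ℚ)⁻¹) *
        ∏ k ∈ range K, (1 + X ^ (4 * k + 2) : PowerSeries ℚ)) := by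
    rw [coeff_mul, coeff_mul]
    apply sum_congr rfl
    intro p hp
    rw [Finset.HasAntidiagonal.mem_antidiagonal] at hp
    rw [hfac p.1 (by omega)]
  rw [h5, h3]

theorem Base0_a_odd (n : ℕ) (h : n % 2 = 1) : Base0.a n = 0 := by
  unfold Base0.a
  rw [sum_prod]
  have : Nat.Partition.restricted n (fun x => x % 4 = 2) = ∅ := by
    rw [Finset.eq_empty_iff_forall_notMem]
    intro p hp
    unfold Nat.Partition.restricted at hp
    rw [mem_filter] at hp
    have h2 : 2 ∣ p.parts.sum := by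
      apply Multiset.dvd_sum
      intro x hx
      have := hp.2 x hx
      omega
    rw [p.parts_sum] at h2
    omega
  rw [this]
  simp

theorem FO_zero (n : ℕ) : coeff n (FO 0) = (Base0.a n : ℝ) := by
  unfold FO
  rw [coeff_mk]
  have h1 : ∑ μ ∈ diagrams n, WO 0 μ = (-1) ^ n * (Base0.a n : ℝ) := by
    have e1 : ∀ μ ∈ diagrams n, WO 0 μ = (-1) ^ n * Wsp 0 μ.transpose := by
      intro μ hμ
      rw [mem_diagrams] at hμ
      rw [WO_eq_Wsp, hμ, neg_zero]
    rw [sum_congr rfl e1, ← mul_sum]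
    congr 1
    have e2 : ∑ μ ∈ diagrams n, Wsp 0 μ.transpose = ∑ μ ∈ diagrams n, Wsp 0 μ := by
      refine Finset.sum_bij' (fun μ _ => μ.transpose) (fun μ _ => μ.transpose) ?_ ?_ ?_ ?_ ?_
      · intro μ hμ; exact diagrams_transpose.2 hμ
      · intro μ hμ; exact diagrams_transpose.2 hμ
      · intro μ _; exact YoungDiagram.transpose_transpose μ
      · intro μ _; exact YoungDiagram.transpose_transpose μ
      · intro μ _; rfl
    rw [e2]
    unfold Base0.a Wsp
    push_cast
    simp only [zero_add]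
  rw [h1]
  rcases Nat.even_or_odd n with he | ho
  · rw [he.neg_one_pow, one_mul]
  · rw [Base0_a_odd n (Nat.odd_iff.1 ho)]
    simp

theorem rp_zero {k : ℕ} (hk : k ≠ 0) : rp k 0 = 1 := by
  have := rp_nat hk 0
  rw [pow_zero] at this
  push_cast at this
  exact this

theorem PP_zero (M : ℕ) : PP 0 M * pr 8 4 M = pr 8 2 M * pr 8 6 M := by
  unfold PP pr
  rw [← prod_mul_distrib, ← prod_mul_distrib]
  apply prod_congr rfl
  intro m _
  unfold Rj
  have e8 : 8 * (m + 1) = 8 * m + 8 := by ring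
  have e2 : 8 * (m + 1) - 6 = 8 * m + 2 := by omega
  have e3 : 4 * (m + 1) - 1 = 4 * m + 3 := by omega
  have e1 : 4 * (m + 1) - 3 = 4 * m + 1 := by omega
  have e4 : 8 * (m + 1) - 4 = 8 * m + 4 := by omega
  have e6 : 8 * (m + 1) - 2 = 8 * m + 6 := by omega
  rw [e2, e3, e1, e4, e6, e8]
  have k2 : 8 * m + 2 ≠ 0 := by omega
  have k4 : 8 * m + 4 ≠ 0 := by omega
  have k6 : 8 * m + 6 ≠ 0 := by omega
  have r2 := rp_nat k2 1
  have r6 := rp_nat k6 1
  have r4 := rp_neg_mul k4 1
  rw [pow_one] at r2 r6 r4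
  push_cast at r2 r6 r4
  simp only [zero_mul, zero_div, sub_zero, neg_zero, zero_sub]
  rw [rp_zero (by omega), rp_zero (by omega), rp_zero (by omega), r2, r6]
  calc 1 * (1 - X ^ (8 * m + 2)) * 1 * 1 * rp (8 * m + 4) (-1) * (1 - X ^ (8 * m + 6)) *
        (1 - X ^ (8 * m + 4)) = (1 - X ^ (8 * m + 2)) * (1 - X ^ (8 * m + 6)) *
        (rp (8 * m + 4) (-1) * (1 - X ^ (8 * m + 4))) := by ring
    _ = (1 - X ^ (8 * m + 2)) * (1 - X ^ (8 * m + 6)) := by rw [r4, mul_one]

theorem base_O (M : ℕ) : qm (4 * M) (FO 0) = qm (4 * M) (PP 0 M) := by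
  set π := qm (4 * M) with hπ
  have h1 : π (FO 0 * ∏ k ∈ range M, (1 + X ^ (4 * k + 2))) = 1 := by
    rw [← map_one π, hπ, qm_eq_iff]
    intro n hn
    have h2 := a_mul n M (by omega)
    have h3 : FO 0 * ∏ k ∈ range M, (1 + X ^ (4 * k + 2) : PowerSeries ℝ) =
        PowerSeries.map (algebraMap ℚ ℝ)
          (PowerSeries.mk Base0.a * ∏ k ∈ range M, (1 + X ^ (4 * k + 2))) := by
      rw [map_mul, map_prod]
      congr 1
      · ext m
        rw [FO_zero, coeff_map, coeff_mk]
        rfl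
      · apply prod_congr rfl
        intro k _
        rw [map_add, map_one, map_pow, PowerSeries.map_X]
    rw [h3, coeff_map, h2, coeff_one, coeff_one]
    split_ifs <;> simp
  have h4 : (∏ k ∈ range M, (1 + X ^ (4 * k + 2) : PowerSeries ℝ)) * pr 4 2 M = pr 8 4 M := by
    unfold pr
    rw [← prod_mul_distrib]
    apply prod_congr rfl
    intro m _
    have : 8 * m + 4 = (4 * m + 2) + (4 * m + 2) := by ring
    rw [this, pow_add]
    ring
  have c2 : π (pr 4 2 M) = π (pr 8 2 M) * π (pr 8 6 M) := by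
    rw [← map_mul, ← pr_split 2 M, hπ]
    exact (qm_pr (by omega) (by omega)).symm
  have h5 := congrArg π (PP_zero M)
  have h6 := congrArg π h4
  rw [map_mul] at h1 h5 h6
  rw [map_mul, ← c2] at h5
  have u4 : IsUnit (π (pr 8 4 M)) := qm_unit (constantCoeff_pr (by omega))
  apply u4.mul_right_cancel
  rw [h5, ← h6, ← mul_assoc, h1, one_mul]

theorem main_O (s M : ℕ) : qm (4 * M) (FO (s : ℝ)) = qm (4 * M) (PP (s : ℝ) M) := by
  induction s with
  | zero => push_cast; exact base_O M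
  | succ s ih => push_cast; exact FO_step s M ih

end Pool.Agent.R178.HC
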