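import Mathlib
import Pool.Agent.R153.SpProd

set_option autoImplicit false

/-! Project HC (helper178): generating functions of symplectic / orthogonal hook-content products
(MP_e057d9_co, MP_67fd2b_co).  Definitions. -/

namespace Pool.Agent.R178.HC

open PowerSeries Finset Pool.Agent.R153.Sp

/-- `(1 - X) ^ (-t)` for a real `t`. -/
noncomputable def bs (t : ℝ) : PowerSeries ℝ :=
  PowerSeries.mk fun k => (∏ i ∈ range k, (t + i)) / (k.factorial : ℝ)

/-- the coefficient of `z ^ k` in `(1 - z) ^ (-t)` -/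
noncomputable def b (t : ℝ) (k : ℕ) : ℝ := (∏ i ∈ range k, (t + i)) / (k.factorial : ℝ)

/-- column series -/
noncomputable def psi (N : ℕ) (q : PowerSeries ℝ) (j : Fin N) : PowerSeries ℝ :=
  X ^ (j : ℕ) * (1 - X) ^ (2 * (N - 1 - (j : ℕ))) * q

/-- the determinant attached to the exponents `m` -/
noncomputable def Dm (N : ℕ) (q : PowerSeries ℝ) (m : Fin N → ℕ) : ℝ :=
  Matrix.det (Matrix.of fun i j : Fin N => PowerSeries.coeff (m i) (psi N q j))

/-- beta numbers of a diagram with at most `N` rows, in increasing order -/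
def mv (N : ℕ) (μ : YoungDiagram) (i : Fin N) : ℕ := μ.rowLen (N - 1 - (i : ℕ)) + (i : ℕ)

/-- `d q μ`: the coefficient of `s_μ` in `∏_{i<j} (1 - z_i z_j) ∏_i q(z_i)` -/
noncomputable def d (q : PowerSeries ℝ) (μ : YoungDiagram) : ℝ :=
  Dm (μ.colLen 0) q (mv (μ.colLen 0) μ)

/-- `l / m` is a horizontal strip -/
def HS (l m : YoungDiagram) : Prop := m ≤ l ∧ ∀ i j : ℕ, (i + 1, j) ∈ l → (i, j) ∈ m

/-- `l / m` is a vertical strip -/
def VS (l m : YoungDiagram) : Prop := m ≤ l ∧ ∀ i j : ℕ, (i, j + 1) ∈ l → (i, j) ∈ m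

open Classical in
/-- sum over the diagrams obtained from `μ` by removing a horizontal strip of size `k` -/
noncomputable def Ud (k : ℕ) (f : YoungDiagram → ℝ) (μ : YoungDiagram) : ℝ :=
  if k ≤ μ.card then ∑ ν ∈ (diagrams (μ.card - k)).filter (fun ν => HS μ ν), f ν else 0

open Classical in
/-- sum over the diagrams obtained from `κ` by adding a horizontal strip of size `k` -/
noncomputable def Us (k : ℕ) (f : YoungDiagram → ℝ) (κ : YoungDiagram) : ℝ :=
  ∑ l ∈ (diagrams (κ.card + k)).filter (fun l => HS l κ), f l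

open Classical in
/-- sum over the diagrams obtained from `μ` by removing a vertical strip of size `k` -/
noncomputable def Vd (k : ℕ) (f : YoungDiagram → ℝ) (μ : YoungDiagram) : ℝ :=
  if k ≤ μ.card then ∑ ν ∈ (diagrams (μ.card - k)).filter (fun ν => VS μ ν), f ν else 0

open Classical in
/-- sum over the diagrams obtained from `κ` by adding a vertical strip of size `k` -/
noncomputable def Vs (k : ℕ) (f : YoungDiagram → ℝ) (κ : YoungDiagram) : ℝ :=
  ∑ l ∈ (diagrams (κ.card + k)).filter (fun l => VS l κ), f l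

/-- `∏ (t + c_sp) / h` -/
noncomputable def Wsp (t : ℝ) (μ : YoungDiagram) : ℝ :=
  ∏ c ∈ μ.cells, (t + (csp μ c : ℝ)) / (hook μ c : ℝ)

/-- `∏ (t + c_O) / h` -/
noncomputable def WO (t : ℝ) (μ : YoungDiagram) : ℝ :=
  ∏ c ∈ μ.cells, (t + (cO μ c : ℝ)) / (hook μ c : ℝ)

/-- the product formula for exponents `m : Fin N → ℕ` (increasing) and `c = t/2 - N` -/
noncomputable def PF (N : ℕ) (c : ℝ) (m : Fin N → ℕ) : ℝ :=
  (∏ i : Fin N, b (2 * c + 2) (m i)) *
    (∏ i : Fin N, ∏ j ∈ Finset.Ioi i,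
      (((m j : ℝ) + c + 1) ^ 2 - ((m i : ℝ) + c + 1) ^ 2)) /
    ∏ j ∈ range N, ∏ k ∈ range (2 * j), (2 * c + 2 + (k : ℝ))

/-- the extra factor in the orthogonal case -/
noncomputable def EF (N : ℕ) (c : ℝ) (m : Fin N → ℕ) : ℝ :=
  ∏ i : Fin N, ((m i : ℝ) + c + 1) / (c + 1 + ((i : ℕ) : ℝ))

/-- generating functions -/
noncomputable def FO (t : ℝ) : PowerSeries ℝ := PowerSeries.mk fun n => ∑ μ ∈ diagrams n, WO t μ

noncomputable def GS (u v : ℝ) : PowerSeries ℝ :=
  PowerSeries.mk fun n => ∑ μ ∈ diagrams n, Wsp u μ * Wsp v μ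

end Pool.Agent.R178.HC
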