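import Pool.Agent.R178.HC.Stm

set_option autoImplicit false

/-! Project HC (helper178), part HC-2 (helper371): the determinant as a product formula. -/

namespace Pool.Agent.R178.HC

open PowerSeries Finset

theorem b_zero (s : ℝ) : b s 0 = 1 := by simp [b]

theorem coeff_bs (t : ℝ) (k : ℕ) : PowerSeries.coeff k (bs t) = b t k := by
  simp [bs, b]

/-- pulling out the first factor -/
theorem b_pred (s : ℝ) (k : ℕ) :
    b (s - 1) (k + 1) = (s - 1) * (∏ i ∈ range k, (s + i)) / ((k + 1).factorial : ℝ) := by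
  unfold b
  rw [Finset.prod_range_succ']
  congr 1
  rw [mul_comm]
  congr 1
  · push_cast; ring
  · refine Finset.prod_congr rfl fun i _ => ?_
    push_cast; ring

theorem b_succ (s : ℝ) (k : ℕ) :
    b s (k + 1) = (s + k) * (∏ i ∈ range k, (s + i)) / ((k + 1).factorial : ℝ) := by
  unfold b
  rw [Finset.prod_range_succ, mul_comm]

theorem b_same (s : ℝ) (k : ℕ) :
    b s k = (k + 1) * (∏ i ∈ range k, (s + i)) / ((k + 1).factorial : ℝ) := by
  unfold b
  rw [Nat.factorial_succ]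
  push_cast
  have h1 : (k.factorial : ℝ) ≠ 0 := by positivity
  have h2 : (k : ℝ) + 1 ≠ 0 := by positivity
  field_simp

theorem b_diff (s : ℝ) (k : ℕ) : b s (k + 1) - b s k = b (s - 1) (k + 1) := by
  rw [b_succ, b_same, b_pred]
  ring

theorem b_add (s : ℝ) (k : ℕ) (hs : s - 1 ≠ 0) :
    b s (k + 1) + b s k = (s - 1 + 2 * ((k : ℝ) + 1)) / (s - 1) * b (s - 1) (k + 1) := by
  rw [b_succ, b_same, b_pred]
  field_simp
  ring

theorem b_shift (s : ℝ) (k : ℕ) (h0 : s ≠ 0) (h1 : s + 1 ≠ 0) :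
    b (s + 2) k = b s (k + 1) * (((k : ℝ) + 1) * (s + k + 1)) / (s * (s + 1)) := by
  unfold b
  have h2 : (∏ i ∈ range (k + 1), (s + i)) * (s + ((k + 1 : ℕ) : ℝ)) =
      (∏ i ∈ range k, (s + 2 + i)) * (s + 1) * s := by
    rw [← Finset.prod_range_succ, Finset.prod_range_succ', Finset.prod_range_succ']
    have : ∏ i ∈ range k, (s + ((i + 1 + 1 : ℕ) : ℝ)) = ∏ i ∈ range k, (s + 2 + i) := by
      refine Finset.prod_congr rfl fun i _ => ?_
      push_cast; ring
    rw [this]
    push_cast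
    ring
  have h3 : ((k + 1).factorial : ℝ) = (k + 1) * (k.factorial : ℝ) := by
    rw [Nat.factorial_succ]; push_cast; ring
  have h4 : (k.factorial : ℝ) ≠ 0 := by positivity
  have h5 : (k : ℝ) + 1 ≠ 0 := by positivity
  rw [h3]
  push_cast at h2
  field_simp
  linear_combination -h2

theorem one_sub_mul_bs (t : ℝ) : (1 - X) * bs t = bs (t - 1) := by
  ext k
  rw [sub_mul, one_mul, map_sub]
  rcases k with _ | k
  · simp [coeff_bs, b_zero]
  · rw [PowerSeries.coeff_succ_X_mul, coeff_bs, coeff_bs, coeff_bs, b_diff]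

theorem one_sub_pow_mul_bs (t : ℝ) (r : ℕ) : (1 - X) ^ r * bs t = bs (t - r) := by
  induction r with
  | zero => simp
  | succ r ih =>
    rw [pow_succ', mul_assoc, ih, one_sub_mul_bs]
    congr 1
    push_cast; ring

/-- the entry for exponent `m` and column `j` -/
noncomputable def En (c : ℝ) (m j : ℕ) : ℝ :=
  if j ≤ m then b (2 * c + 2 + 2 * j) (m - j) else 0

theorem En_eq (c : ℝ) (hc : ∀ n : ℤ, 2 * c ≠ n) (m j : ℕ) :
    En c m j = b (2 * c + 2) m *
      (∏ k ∈ range j, (((m : ℝ) + c + 1) ^ 2 - (c + 1 + k) ^ 2)) /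
        ∏ k ∈ range (2 * j), (2 * c + 2 + (k : ℝ)) := by
  have hne : ∀ n : ℤ, 2 * c + n ≠ 0 := by
    intro n h
    apply hc (-n)
    push_cast
    linarith
  induction j with
  | zero => simp [En]
  | succ j ih =>
    have e : 2 * (j + 1) = 2 * j + 1 + 1 := by ring
    rw [e, Finset.prod_range_succ, Finset.prod_range_succ, Finset.prod_range_succ]
    have h0 : 2 * c + 2 + (((2 * j : ℕ)) : ℝ) ≠ 0 := by
      have := hne (2 + 2 * j)
      push_cast at this ⊢
      intro h; apply this; linarith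
    have h1 : 2 * c + 2 + (((2 * j + 1 : ℕ)) : ℝ) ≠ 0 := by
      have := hne (3 + 2 * j)
      push_cast at this ⊢
      intro h; apply this; linarith
    have h2 : En c m (j + 1) = En c m j * (((m : ℝ) + c + 1) ^ 2 - (c + 1 + j) ^ 2) /
        ((2 * c + 2 + (((2 * j : ℕ)) : ℝ)) * (2 * c + 2 + (((2 * j + 1 : ℕ)) : ℝ))) := by
      unfold En
      by_cases hjm : j + 1 ≤ m
      · rw [if_pos hjm, if_pos (by omega)]
        obtain ⟨k, rfl⟩ : ∃ k, m = j + 1 + k := ⟨m - (j + 1), by omega⟩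
        have e1 : j + 1 + k - (j + 1) = k := by omega
        have e2 : j + 1 + k - j = k + 1 := by omega
        rw [e1, e2]
        have hs0 : 2 * c + 2 + 2 * (j : ℝ) ≠ 0 := by
          push_cast at h0; exact h0
        have hs1 : 2 * c + 2 + 2 * (j : ℝ) + 1 ≠ 0 := by
          push_cast at h1
          intro h; apply h1; linarith
        have h3 := b_shift (2 * c + 2 + 2 * (j : ℝ)) k hs0 hs1
        have e3 : 2 * c + 2 + 2 * (((j + 1 : ℕ)) : ℝ) = 2 * c + 2 + 2 * (j : ℝ) + 2 := by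
          push_cast; ring
        rw [e3, h3]
        push_cast
        congr 1
        · ring
        · ring
      · rw [if_neg hjm]
        by_cases hjm' : j ≤ m
        · have : m = j := by omega
          subst this
          rw [if_pos le_rfl]
          ring
        · rw [if_neg hjm']
          ring
    rw [h2, ih]
    field_simp

theorem coeff_psi_bs (t : ℝ) (N : ℕ) (j : Fin N) (m : ℕ) :
    PowerSeries.coeff m (psi N (bs t) j) = En (t / 2 - N) m j := by
  unfold psi En
  rw [mul_assoc, one_sub_pow_mul_bs, PowerSeries.coeff_X_pow_mul']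
  split_ifs with h
  · rw [coeff_bs]
    congr 1
    have hj : (j : ℕ) + 1 ≤ N := j.2
    have : ((2 * (N - 1 - (j : ℕ)) : ℕ) : ℝ) = 2 * ((N : ℝ) - 1 - (j : ℕ)) := by
      have e : N - 1 - (j : ℕ) = N - ((j : ℕ) + 1) := by omega
      rw [e]
      push_cast [Nat.cast_sub hj]
      ring
    rw [this]
    ring
  · rfl

theorem two_c_ne (t : ℝ) (ht : ∀ n : ℤ, t ≠ n) (N : ℕ) : ∀ n : ℤ, 2 * (t / 2 - (N : ℝ)) ≠ n := by
  intro n h
  apply ht (n + 2 * N)
  push_cast
  linarith

theorem det_sp : Stm.S_det_sp := by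
  intro t ht N m
  set c : ℝ := t / 2 - N with hc
  have hcn := two_c_ne t ht N
  rw [← hc] at hcn
  unfold Dm PF
  set v : Fin N → ℝ := fun i => ((m i : ℝ) + c + 1) ^ 2 with hv
  set p : Fin N → Polynomial ℝ := fun j =>
    ∏ k ∈ range (j : ℕ), (Polynomial.X - Polynomial.C ((c + 1 + k) ^ 2)) with hp
  have hmonic : ∀ j, (p j).Monic := fun j =>
    Polynomial.monic_prod_of_monic _ _ (fun k _ => Polynomial.monic_X_sub_C _)
  have hdeg : ∀ j, (p j).natDegree = (j : ℕ) := by
    intro j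
    rw [hp]
    simp only
    rw [Polynomial.natDegree_prod_of_monic _ _ (fun k _ => Polynomial.monic_X_sub_C _)]
    simp only [Polynomial.natDegree_X_sub_C, Finset.sum_const, Finset.card_range, smul_eq_mul,
      mul_one]
  have hmat : (Matrix.of fun i j : Fin N => PowerSeries.coeff (m i) (psi N (bs t) j)) =
      Matrix.of fun i j : Fin N => b (2 * c + 2) (m i) * (Matrix.of fun i j : Fin N =>
        (∏ k ∈ range (2 * (j : ℕ)), (2 * c + 2 + (k : ℝ)))⁻¹ *
          (Matrix.of fun i j : Fin N => (p j).eval (v i)) i j) i j := by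
    ext i j
    simp only [Matrix.of_apply]
    rw [coeff_psi_bs, ← hc, En_eq c hcn, hp]
    simp only [Polynomial.eval_prod, Polynomial.eval_sub, Polynomial.eval_X, Polynomial.eval_C]
    rw [hv]
    simp only
    ring
  rw [hmat, Matrix.det_mul_column, Matrix.det_mul_row,
    ← Matrix.det_eval_matrixOfPolynomials_eq_det_vandermonde v p hdeg hmonic,
    Matrix.det_vandermonde, Finset.prod_inv_distrib,
    Finset.prod_range (fun j => ∏ k ∈ range (2 * j), (2 * c + 2 + (k : ℝ)))]
  rw [hv]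
  ring

theorem one_add_mul_coeff (s : ℝ) (hs : s - 1 ≠ 0) (k : ℕ) :
    PowerSeries.coeff k ((1 + X) * bs s) = (s - 1 + 2 * (k : ℝ)) / (s - 1) * b (s - 1) k := by
  rw [add_mul, one_mul, map_add]
  rcases k with _ | k
  · simp [coeff_bs, b_zero, hs]
  · rw [PowerSeries.coeff_succ_X_mul, coeff_bs, coeff_bs, b_add s k hs]
    push_cast
    rfl

theorem det_O : Stm.S_det_O := by
  intro t ht N m
  set c : ℝ := t / 2 - N with hc
  have hcn := two_c_ne t ht N
  rw [← hc] at hcn
  have hne : ∀ j : ℕ, c + 1 + (j : ℝ) ≠ 0 := by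
    intro j h
    apply hcn (-2 - 2 * j)
    push_cast
    linarith
  unfold Dm EF
  have hmat : (Matrix.of fun i j : Fin N =>
      PowerSeries.coeff (m i) (psi N ((1 - X ^ 2) * bs (t + 2)) j)) =
      Matrix.of fun i j : Fin N => ((m i : ℝ) + c + 1) * (Matrix.of fun i j : Fin N =>
        (c + 1 + ((j : ℕ) : ℝ))⁻¹ *
          (Matrix.of fun i j : Fin N => PowerSeries.coeff (m i) (psi N (bs t) j)) i j) i j := by
    ext i j
    simp only [Matrix.of_apply]
    rw [coeff_psi_bs, ← hc]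
    have e1 : psi N ((1 - X ^ 2) * bs (t + 2)) j =
        X ^ (j : ℕ) * ((1 + X) * ((1 - X) ^ (2 * (N - 1 - (j : ℕ)) + 1) * bs (t + 2))) := by
      unfold psi
      ring
    rw [e1, one_sub_pow_mul_bs, PowerSeries.coeff_X_pow_mul']
    have hj : (j : ℕ) + 1 ≤ N := j.2
    have e2 : ((2 * (N - 1 - (j : ℕ)) + 1 : ℕ) : ℝ) = 2 * ((N : ℝ) - 1 - (j : ℕ)) + 1 := by
      have e : N - 1 - (j : ℕ) = N - ((j : ℕ) + 1) := by omega
      rw [e]
      push_cast [Nat.cast_sub hj]
      ring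
    have e3 : t + 2 - ((2 * (N - 1 - (j : ℕ)) + 1 : ℕ) : ℝ) = 2 * c + 3 + 2 * ((j : ℕ) : ℝ) := by
      rw [e2, hc]; ring
    rw [e3]
    unfold En
    split_ifs with h
    · have hs : 2 * c + 3 + 2 * ((j : ℕ) : ℝ) - 1 ≠ 0 := by
        intro h0
        apply hne j
        linarith
      rw [one_add_mul_coeff _ hs]
      have e4 : 2 * c + 3 + 2 * ((j : ℕ) : ℝ) - 1 = 2 * c + 2 + 2 * ((j : ℕ) : ℝ) := by ring
      rw [e4]
      have e5 : ((m i - (j : ℕ) : ℕ) : ℝ) = (m i : ℝ) - (j : ℕ) := Nat.cast_sub h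
      rw [e5]
      have h3 := hne j
      rw [e4] at hs
      have e6 : (2 * c + 2 + 2 * ((j : ℕ) : ℝ) + 2 * ((m i : ℝ) - (j : ℕ))) /
          (2 * c + 2 + 2 * ((j : ℕ) : ℝ)) = ((m i : ℝ) + c + 1) * (c + 1 + ((j : ℕ) : ℝ))⁻¹ := by
        field_simp
        ring
      rw [e6]
      ring
    · ring
  rw [hmat, Matrix.det_mul_column, Matrix.det_mul_row, Finset.prod_div_distrib,
    Finset.prod_inv_distrib]
  ring

end Pool.Agent.R178.HC
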