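import Pool.Agent.R178.HC.T2

set_option autoImplicit false

/-! From the product formulas to all parameters `t`; the operators T1, T2, T4. -/

namespace Pool.Agent.R178.HC

open PowerSeries Finset Pool.Agent.R153.Sp

theorem coeff_bs (t : ℝ) (k : ℕ) : coeff k (bs t) = b t k := by
  unfold bs b; rw [coeff_mk]

theorem constantCoeff_bs (t : ℝ) : constantCoeff (bs t) = 1 := by
  rw [← coeff_zero_eq_constantCoeff_apply, coeff_bs]; simp [b]

theorem constantCoeff_bsO (t : ℝ) : constantCoeff ((1 - X ^ 2) * bs t) = 1 := by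
  rw [map_mul, constantCoeff_bs]; simp

theorem b_succ_sub (t : ℝ) (n : ℕ) : b (t + 1) (n + 1) = b (t + 1) n + b t (n + 1) := by
  unfold b
  have h1 : ∏ i ∈ range (n + 1), (t + 1 + (i : ℝ)) = (∏ i ∈ range n, (t + 1 + (i : ℝ))) * (t + 1 + n) :=
    prod_range_succ _ _
  have h2 : ∏ i ∈ range (n + 1), (t + (i : ℝ)) = (∏ i ∈ range n, (t + 1 + (i : ℝ))) * t := by
    rw [prod_range_succ']
    congr 1
    · apply prod_congr rfl
      intro i _
      push_cast; ring
    · simp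
  rw [h1, h2, Nat.factorial_succ]
  have h3 : (n.factorial : ℝ) ≠ 0 := by exact_mod_cast Nat.factorial_ne_zero n
  have h4 : ((n : ℝ) + 1) ≠ 0 := by positivity
  push_cast
  field_simp
  ring

theorem sum_b (t : ℝ) (n : ℕ) : ∑ k ∈ range (n + 1), b t k = b (t + 1) n := by
  induction n with
  | zero => simp [b]
  | succ n ih => rw [sum_range_succ, ih, b_succ_sub]

theorem bs_geo (t : ℝ) : bs t * geo = bs (t + 1) := by
  ext n
  rw [coeff_mul_geo, coeff_bs, ← sum_b]
  exact sum_congr rfl (fun k _ => coeff_bs t k)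

theorem continuous_b (k : ℕ) : Continuous (fun t : ℝ => b t k) := by
  unfold b
  fun_prop

theorem continuous_coeff (q : PowerSeries ℝ) (n : ℕ) :
    Continuous (fun t : ℝ => coeff n (q * bs t)) := by
  simp only [coeff_mul, coeff_bs]
  exact continuous_finset_sum _ (fun p _ => continuous_const.mul (continuous_b _))

theorem continuous_Dm (N : ℕ) (q : PowerSeries ℝ) (m : Fin N → ℕ) :
    Continuous (fun t : ℝ => Dm N (q * bs t) m) := by
  unfold Dm
  apply Continuous.matrix_det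
  apply continuous_matrix
  intro i j
  have : ∀ t : ℝ, psi N (q * bs t) j = (X ^ (j : ℕ) * (1 - X) ^ (2 * (N - 1 - (j : ℕ))) * q) * bs t := by
    intro t; unfold psi; ring
  simp only [Matrix.of_apply, this]
  exact continuous_coeff _ _

theorem dense_nonint : Dense {t : ℝ | ∀ n : ℤ, t ≠ n} := by
  have h : {t : ℝ | ∀ n : ℤ, t ≠ n} = (Set.range ((↑) : ℤ → ℝ))ᶜ := by
    ext t
    simp only [Set.mem_compl_iff, Set.mem_range, not_exists]
    constructor
    · intro h n hn; exact h n hn.symm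
    · intro h n hn; exact h n hn.symm
  rw [h]
  exact (Set.countable_range _).dense_compl ℝ

theorem Wsp_eq_d (h1 : Stm.S_hook_sp) (h2 : Stm.S_det_sp) (t : ℝ) (μ : YoungDiagram) :
    Wsp t μ = d (bs t) μ := by
  have hc1 : Continuous (fun t : ℝ => Wsp t μ) := by
    unfold Wsp; fun_prop
  have hc2 : Continuous (fun t : ℝ => Dm (μ.colLen 0) (bs t) (mv (μ.colLen 0) μ)) := by
    have := continuous_Dm (μ.colLen 0) 1 (mv (μ.colLen 0) μ)
    simpa using this
  have key : (fun t : ℝ => Wsp t μ) = fun t => Dm (μ.colLen 0) (bs t) (mv (μ.colLen 0) μ) := by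
    apply Continuous.ext_on dense_nonint hc1 hc2
    intro t ht
    rw [Set.mem_ofPred_eq] at ht
    simp only
    rw [h1 t ht μ, h2 t ht]
  exact congrFun key t

theorem WO_eq_d (h1 : Stm.S_hook_sp) (h2 : Stm.S_det_sp) (h3 : Stm.S_hook_O) (h4 : Stm.S_det_O)
    (t : ℝ) (μ : YoungDiagram) : WO t μ = d ((1 - X ^ 2) * bs t) μ := by
  have hc1 : Continuous (fun t : ℝ => WO t μ) := by
    unfold WO; fun_prop
  have hc2 : Continuous (fun t : ℝ => Dm (μ.colLen 0) ((1 - X ^ 2) * bs t) (mv (μ.colLen 0) μ)) :=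
    continuous_Dm _ _ _
  have key : (fun t : ℝ => WO t μ) =
      fun t => Dm (μ.colLen 0) ((1 - X ^ 2) * bs t) (mv (μ.colLen 0) μ) := by
    apply Continuous.ext_on dense_nonint hc1 hc2
    intro t ht
    rw [Set.mem_ofPred_eq] at ht
    have ht2 : ∀ n : ℤ, t - 2 ≠ n := by
      intro n hn
      apply ht (n + 2)
      push_cast
      linarith
    have e1 := h3 (t - 2) ht2 μ
    have e2 := h4 (t - 2) ht2 (μ.colLen 0) (mv (μ.colLen 0) μ)
    rw [sub_add_cancel] at e1 e2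
    simp only
    rw [e1, e2, h1 _ ht2 μ, h2 _ ht2]
  exact congrFun key t

theorem T1sp (h1 : Stm.S_hook_sp) (h2 : Stm.S_det_sp) : Stm.S_T1sp := by
  intro t μ
  have e : Wsp t = d (bs t) := by ext ν; exact Wsp_eq_d h1 h2 t ν
  rw [e, T1_gen (constantCoeff_bs t), bs_geo, Wsp_eq_d h1 h2]

theorem T1 (h1 : Stm.S_hook_sp) (h2 : Stm.S_det_sp) (h3 : Stm.S_hook_O) (h4 : Stm.S_det_O) :
    Stm.S_T1 := by
  intro t μ
  have e : WO t = d ((1 - X ^ 2) * bs t) := by ext ν; exact WO_eq_d h1 h2 h3 h4 t ν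
  rw [e, T1_gen (constantCoeff_bsO t), mul_assoc, bs_geo, WO_eq_d h1 h2 h3 h4]

theorem T2sp (hP : Stm.S_pieri) (h1 : Stm.S_hook_sp) (h2 : Stm.S_det_sp) : Stm.S_T2sp := by
  intro t k κ
  have e : Wsp t = d (bs t) := by ext ν; exact Wsp_eq_d h1 h2 t ν
  rw [e]
  exact T2_gen hP (constantCoeff_bs t) k κ

theorem T2O (hP : Stm.S_pieri) (h1 : Stm.S_hook_sp) (h2 : Stm.S_det_sp) (h3 : Stm.S_hook_O)
    (h4 : Stm.S_det_O) : Stm.S_T2O := by
  intro t k κ
  have e : WO t = d ((1 - X ^ 2) * bs t) := by ext ν; exact WO_eq_d h1 h2 h3 h4 t ν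
  rw [e]
  exact T2_gen hP (constantCoeff_bsO t) k κ

theorem WO_eq_Wsp (t : ℝ) (μ : YoungDiagram) :
    WO t μ = (-1) ^ μ.card * Wsp (-t) μ.transpose := by
  unfold WO Wsp
  rw [cells_transpose, prod_map]
  have : ∀ c ∈ μ.cells, (t + (cO μ c : ℝ)) / (hook μ c : ℝ) =
      (-1) * ((-t + (csp μ.transpose ((Equiv.prodComm ℕ ℕ).toEmbedding c) : ℝ)) /
        (hook μ.transpose ((Equiv.prodComm ℕ ℕ).toEmbedding c) : ℝ)) := by
    intro c _
    have e1 : (Equiv.prodComm ℕ ℕ).toEmbedding c = c.swap := rfl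
    rw [e1, cO_eq, hook_transpose]
    push_cast
    ring
  rw [prod_congr rfl this, prod_mul_distrib, prod_const]

theorem Wsp_eq_WO (t : ℝ) (μ : YoungDiagram) :
    Wsp t μ = (-1) ^ μ.card * WO (-t) μ.transpose := by
  rw [WO_eq_Wsp, YoungDiagram.transpose_transpose, neg_neg, card_transpose, ← mul_assoc,
    ← mul_pow]
  simp

theorem sum_transpose (n : ℕ) (P : YoungDiagram → Prop) (Q : YoungDiagram → Prop) [DecidablePred P]
    [DecidablePred Q] (hPQ : ∀ μ, P μ ↔ Q μ.transpose) (f : YoungDiagram → ℝ) :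
    ∑ μ ∈ (diagrams n).filter P, f μ = ∑ μ ∈ (diagrams n).filter Q, f μ.transpose := by
  refine Finset.sum_bij' (fun μ _ => μ.transpose) (fun μ _ => μ.transpose) ?_ ?_ ?_ ?_ ?_
  · intro μ hμ
    rw [mem_filter] at hμ ⊢
    exact ⟨diagrams_transpose.2 hμ.1, (hPQ μ).1 hμ.2⟩
  · intro μ hμ
    rw [mem_filter] at hμ ⊢
    refine ⟨diagrams_transpose.2 hμ.1, (hPQ _).2 ?_⟩
    rw [YoungDiagram.transpose_transpose]
    exact hμ.2
  · intro μ _; exact YoungDiagram.transpose_transpose μ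
  · intro μ _; exact YoungDiagram.transpose_transpose μ
  · intro μ _; rw [YoungDiagram.transpose_transpose]

theorem Vs_transpose (k : ℕ) (f : YoungDiagram → ℝ) (κ : YoungDiagram) :
    Vs k f κ = Us k (fun μ => f μ.transpose) κ.transpose := by
  classical
  unfold Vs Us
  rw [card_transpose, sum_transpose _ (fun l => VS l κ) (fun l => HS l κ.transpose)]
  intro μ
  rw [HS_transpose]

theorem Vd_transpose (k : ℕ) (f : YoungDiagram → ℝ) (κ : YoungDiagram) :
    Vd k f κ = Ud k (fun μ => f μ.transpose) κ.transpose := by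
  classical
  unfold Vd Ud
  rw [card_transpose]
  split_ifs with h
  · rw [sum_transpose _ (fun l => VS κ l) (fun l => HS κ.transpose l)]
    intro μ
    rw [HS_transpose]
  · rfl

theorem Us_mul_sign (k : ℕ) (f g : YoungDiagram → ℝ) (κ : YoungDiagram)
    (h : ∀ μ, f μ = (-1) ^ μ.card * g μ) : Us k f κ = (-1) ^ (κ.card + k) * Us k g κ := by
  classical
  unfold Us
  rw [mul_sum]
  apply sum_congr rfl
  intro μ hμ
  rw [mem_filter, mem_diagrams] at hμ
  rw [h μ, hμ.1]

theorem Ud_mul_sign (k : ℕ) (f g : YoungDiagram → ℝ) (κ : YoungDiagram)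
    (h : ∀ μ, f μ = (-1) ^ μ.card * g μ) : Ud k f κ = (-1) ^ (κ.card + k) * Ud k g κ := by
  classical
  unfold Ud
  split_ifs with hk
  · rw [mul_sum]
    apply sum_congr rfl
    intro μ hμ
    rw [mem_filter, mem_diagrams] at hμ
    rw [h μ, hμ.1]
    have e : κ.card + k = κ.card - k + 2 * k := by omega
    rw [e, pow_add, pow_mul]
    simp
  · simp

theorem T4_aux (f g : YoungDiagram → ℝ) (a : ℕ → ℝ) (hfg : ∀ μ, f μ = (-1) ^ μ.card * g μ.transpose)
    (hg : ∀ (k : ℕ) (κ : YoungDiagram), Us k g κ =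
      ∑ j ∈ range (k + 1), a (k - j) * (-1) ^ j * Vd j g κ) (k : ℕ) (κ : YoungDiagram) :
    (-1) ^ k * Vs k f κ = ∑ j ∈ range (k + 1), a (k - j) * Ud j f κ := by
  have h1 : ∀ μ : YoungDiagram, f μ.transpose = (-1) ^ μ.card * g μ := by
    intro μ
    rw [hfg, YoungDiagram.transpose_transpose, card_transpose]
  rw [Vs_transpose, Us_mul_sign k _ g κ.transpose h1, hg, card_transpose, mul_sum, mul_sum]
  apply sum_congr rfl
  intro j hj
  have h2 : Ud j f κ = (-1) ^ (κ.card + j) * Vd j g κ.transpose := by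
    rw [Vd_transpose, YoungDiagram.transpose_transpose]
    exact Ud_mul_sign j f (fun μ => g μ.transpose) κ hfg
  rw [h2]
  have e : ((-1 : ℝ)) ^ k * (-1) ^ (κ.card + k) = (-1) ^ κ.card := by
    rw [← pow_add]
    have : k + (κ.card + k) = κ.card + 2 * k := by ring
    rw [this, pow_add, pow_mul]; simp
  rw [pow_add (-1 : ℝ) κ.card j, ← e]
  ring

theorem T4O (hT : Stm.S_T2sp) : Stm.S_T4O := by
  intro t k κ
  exact T4_aux (WO t) (Wsp (-t)) (fun n => coeff n (bs (-t))) (WO_eq_Wsp t) (hT (-t)) k κ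

theorem T4sp (hT : Stm.S_T2O) : Stm.S_T4sp := by
  intro t k κ
  exact T4_aux (Wsp t) (WO (-t)) (fun n => coeff n ((1 - X ^ 2) * bs (-t))) (Wsp_eq_WO t)
    (hT (-t)) k κ

end Pool.Agent.R178.HC
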