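import Pool.Agent.R178.HC.Stm

set_option autoImplicit false

namespace Pool.Agent.R178.HC.HookP

open PowerSeries Finset Pool.Agent.R153.Sp Pool.Agent.R178.HC

theorem shift_inj (s : Set (ℕ × ℕ)) :
    Set.InjOn (fun c : ℕ × ℕ => (c.1 + 1, c.2 + 1)) s := fun a _ b _ h => by
  have h1 := (Prod.mk.inj h).1
  have h2 := (Prod.mk.inj h).2
  exact Prod.ext (by omega) (by omega)

/-- remove the first row and the first column -/
noncomputable def peel (μ : YoungDiagram) : YoungDiagram where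
  cells := μ.cells.preimage (fun c => (c.1 + 1, c.2 + 1)) (shift_inj _)
  isLowerSet := by
    intro a b hba ha
    have ha' := Finset.mem_preimage.1 (Finset.mem_coe.1 ha)
    have h1 : b.1 ≤ a.1 := hba.1
    have h2 : b.2 ≤ a.2 := hba.2
    exact Finset.mem_coe.2 (Finset.mem_preimage.2
      (μ.up_left_mem (by omega) (by omega) ha'))

theorem mem_peel (μ : YoungDiagram) (i j : ℕ) : (i, j) ∈ peel μ ↔ (i + 1, j + 1) ∈ μ := by
  show (i, j) ∈ (peel μ).cells ↔ (i + 1, j + 1) ∈ μ.cells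
  unfold peel
  exact Finset.mem_preimage (hf := shift_inj _)

theorem rowLen_peel (μ : YoungDiagram) (i : ℕ) : (peel μ).rowLen i = μ.rowLen (i + 1) - 1 := by
  apply eq_of_forall_lt_iff
  intro j
  rw [← YoungDiagram.mem_iff_lt_rowLen, mem_peel, YoungDiagram.mem_iff_lt_rowLen]
  omega

theorem colLen_peel (μ : YoungDiagram) (j : ℕ) : (peel μ).colLen j = μ.colLen (j + 1) - 1 := by
  apply eq_of_forall_lt_iff
  intro i
  rw [← YoungDiagram.mem_iff_lt_colLen, mem_peel, YoungDiagram.mem_iff_lt_colLen]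
  omega

theorem prod_peel (f : ℕ × ℕ → ℝ) (μ : YoungDiagram) :
    ∏ c ∈ μ.cells, f c = (∏ j ∈ range (μ.rowLen 0), f (0, j)) *
      ((∏ i ∈ range (μ.colLen 0 - 1), f (i + 1, 0)) *
        ∏ c ∈ (peel μ).cells, f (c.1 + 1, c.2 + 1)) := by
  rw [← Finset.prod_filter_mul_prod_filter_not μ.cells (fun c => c.1 = 0)]
  congr 1
  · symm
    refine Finset.prod_nbij' (fun j => (0, j)) (fun c => c.2) ?_ ?_ ?_ ?_ ?_
    · intro j hj
      rw [Finset.mem_range] at hj
      rw [Finset.mem_filter]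
      refine ⟨?_, rfl⟩
      exact YoungDiagram.mem_iff_lt_rowLen.2 hj
    · rintro ⟨i, j⟩ hc
      rw [Finset.mem_filter] at hc
      obtain ⟨h1, h2⟩ := hc
      simp only at h2
      subst h2
      rw [Finset.mem_range]
      exact YoungDiagram.mem_iff_lt_rowLen.1 h1
    · intro j _; rfl
    · rintro ⟨i, j⟩ hc
      rw [Finset.mem_filter] at hc
      have h2 : i = 0 := hc.2
      subst h2
      rfl
    · intro j _; rfl
  rw [← Finset.prod_filter_mul_prod_filter_not (μ.cells.filter (fun c => ¬ c.1 = 0))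
    (fun c => c.2 = 0)]
  congr 1
  · symm
    refine Finset.prod_nbij' (fun i => (i + 1, 0)) (fun c => c.1 - 1) ?_ ?_ ?_ ?_ ?_
    · intro i hi
      rw [Finset.mem_range] at hi
      rw [Finset.mem_filter, Finset.mem_filter]
      refine ⟨⟨?_, by simp⟩, rfl⟩
      exact YoungDiagram.mem_iff_lt_colLen.2 (by omega)
    · rintro ⟨i, j⟩ hc
      rw [Finset.mem_filter, Finset.mem_filter] at hc
      obtain ⟨⟨h1, h2⟩, h3⟩ := hc
      simp only at h2 h3
      subst h3
      rw [Finset.mem_range]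
      have h4 : i < μ.colLen 0 := YoungDiagram.mem_iff_lt_colLen.1 h1
      show i - 1 < μ.colLen 0 - 1
      omega
    · intro i _; rfl
    · rintro ⟨i, j⟩ hc
      rw [Finset.mem_filter, Finset.mem_filter] at hc
      obtain ⟨⟨h1, h2⟩, h3⟩ := hc
      simp only at h2 h3
      subst h3
      apply Prod.ext
      · show i - 1 + 1 = i
        omega
      · rfl
    · intro i _; rfl
  · symm
    refine Finset.prod_nbij' (fun c => (c.1 + 1, c.2 + 1)) (fun c => (c.1 - 1, c.2 - 1))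
      ?_ ?_ ?_ ?_ ?_
    · rintro ⟨i, j⟩ hc
      rw [Finset.mem_filter, Finset.mem_filter]
      refine ⟨⟨?_, by simp⟩, by simp⟩
      exact (mem_peel μ i j).1 hc
    · rintro ⟨i, j⟩ hc
      rw [Finset.mem_filter, Finset.mem_filter] at hc
      obtain ⟨⟨h1, h2⟩, h3⟩ := hc
      simp only at h2 h3
      apply (mem_peel μ _ _).2
      have e1 : i - 1 + 1 = i := by omega
      have e2 : j - 1 + 1 = j := by omega
      rw [e1, e2]
      exact h1
    · rintro ⟨i, j⟩ _
      rfl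
    · rintro ⟨i, j⟩ hc
      rw [Finset.mem_filter, Finset.mem_filter] at hc
      obtain ⟨⟨h1, h2⟩, h3⟩ := hc
      simp only at h2 h3
      apply Prod.ext
      · show i - 1 + 1 = i
        omega
      · show j - 1 + 1 = j
        omega
    · intro c _; rfl

/-- the complement lemma -/
theorem compl (μ : YoungDiagram) (N : ℕ) (hN : μ.colLen 0 = N + 1) (f : ℕ → ℝ) :
    (∏ j ∈ range (μ.rowLen 0), f (N + 1 + j - μ.colLen j)) *
      ∏ i : Fin N, f (mv (N + 1) μ i.castSucc) = ∏ k ∈ range (N + μ.rowLen 0), f k := by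
  classical
  have hcol : ∀ j, μ.colLen j ≤ N + 1 := fun j => by
    have := μ.colLen_anti 0 j (Nat.zero_le j)
    omega
  have hrow : ∀ i, μ.rowLen i ≤ μ.rowLen 0 := fun i => μ.rowLen_anti 0 i (Nat.zero_le i)
  have hiff : ∀ i j, i < μ.colLen j ↔ j < μ.rowLen i := fun i j => by
    rw [← YoungDiagram.mem_iff_lt_colLen, ← YoungDiagram.mem_iff_lt_rowLen]
  have hmv : ∀ i : Fin N, mv (N + 1) μ i.castSucc = μ.rowLen (N - (i : ℕ)) + (i : ℕ) := by
    intro i
    unfold mv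
    simp
  have hAinj : Set.InjOn (fun j => N + 1 + j - μ.colLen j) (range (μ.rowLen 0) : Set ℕ) := by
    intro a _ b _ hab
    simp only at hab
    have ha := hcol a
    have hb := hcol b
    rcases lt_trichotomy a b with h | h | h
    · have := μ.colLen_anti a b h.le
      omega
    · exact h
    · have := μ.colLen_anti b a h.le
      omega
  have hBinj : Function.Injective (fun i : Fin N => mv (N + 1) μ i.castSucc) := by
    intro a b hab
    simp only [hmv] at hab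
    apply Fin.ext
    rcases lt_trichotomy (a : ℕ) (b : ℕ) with h | h | h
    · have := μ.rowLen_anti (N - (b : ℕ)) (N - (a : ℕ)) (by omega)
      omega
    · exact h
    · have := μ.rowLen_anti (N - (a : ℕ)) (N - (b : ℕ)) (by omega)
      omega
  have hdis : Disjoint ((range (μ.rowLen 0)).image (fun j => N + 1 + j - μ.colLen j))
      ((Finset.univ : Finset (Fin N)).image (fun i => mv (N + 1) μ i.castSucc)) := by
    rw [Finset.disjoint_left]
    intro x hx hx'
    rw [Finset.mem_image] at hx hx'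
    obtain ⟨j, hj, rfl⟩ := hx
    obtain ⟨i, _, hi⟩ := hx'
    rw [hmv] at hi
    rw [Finset.mem_range] at hj
    have h1 := hiff (N - (i : ℕ)) j
    have h2 := hcol j
    have h3 := i.2
    by_cases h4 : j < μ.rowLen (N - (i : ℕ))
    · have h5 := h1.2 h4
      omega
    · have h5 : ¬ (N - (i : ℕ) < μ.colLen j) := fun h => h4 (h1.1 h)
      omega
  have hun : (range (μ.rowLen 0)).image (fun j => N + 1 + j - μ.colLen j) ∪
      ((Finset.univ : Finset (Fin N)).image (fun i => mv (N + 1) μ i.castSucc)) =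
      range (N + μ.rowLen 0) := by
    apply Finset.eq_of_subset_of_card_le
    · intro x hx
      rw [Finset.mem_union, Finset.mem_image, Finset.mem_image] at hx
      rw [Finset.mem_range]
      rcases hx with ⟨j, hj, rfl⟩ | ⟨i, _, rfl⟩
      · rw [Finset.mem_range] at hj
        have h1 := (hiff 0 j).2 hj
        have := hcol j
        omega
      · rw [hmv]
        have := hrow (N - (i : ℕ))
        have := i.2
        omega
    · rw [Finset.card_union_of_disjoint hdis, Finset.card_image_of_injOn hAinj,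
        Finset.card_image_of_injective _ hBinj, Finset.card_range, Finset.card_range,
        Finset.card_univ, Fintype.card_fin]
      omega
  rw [← hun, Finset.prod_union hdis, Finset.prod_image hAinj,
    Finset.prod_image (fun a _ b _ h => hBinj h)]

/-- the denominator of the product formula -/
noncomputable def Den (N : ℕ) (c : ℝ) : ℝ :=
  ∏ j ∈ range N, ∏ k ∈ range (2 * j), (2 * c + 2 + (k : ℝ))

noncomputable def V (N : ℕ) (c : ℝ) (m : Fin N → ℕ) : ℝ :=
  ∏ i : Fin N, ∏ j ∈ Finset.Ioi i,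
      (((m j : ℝ) + c + 1) ^ 2 - ((m i : ℝ) + c + 1) ^ 2)

theorem PF_eq (N : ℕ) (c : ℝ) (m : Fin N → ℕ) :
    PF N c m = (∏ i : Fin N, b (2 * c + 2) (m i)) * V N c m / Den N c := rfl

theorem Den_succ (N : ℕ) (c : ℝ) :
    Den (N + 1) c = ((2 * c + 2) * (2 * c + 3)) ^ N * Den N (c + 1) := by
  unfold Den
  rw [Finset.prod_range_succ']
  have : ∀ j ∈ range N, ∏ k ∈ range (2 * (j + 1)), (2 * c + 2 + (k : ℝ)) =
      ((2 * c + 2) * (2 * c + 3)) * ∏ k ∈ range (2 * j), (2 * (c + 1) + 2 + (k : ℝ)) := by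
    intro j _
    rw [show 2 * (j + 1) = 2 * j + 1 + 1 by ring, Finset.prod_range_succ', Finset.prod_range_succ']
    have : ∀ k ∈ range (2 * j), (2 * c + 2 + ((k + 1 + 1 : ℕ) : ℝ)) =
        2 * (c + 1) + 2 + (k : ℝ) := by
      intro k _
      push_cast
      ring
    rw [Finset.prod_congr rfl this]
    push_cast
    ring
  rw [Finset.prod_congr rfl this, Finset.prod_mul_distrib, Finset.prod_const, Finset.card_range]
  simp

theorem b_succ (c : ℝ) (m : ℕ) :
    b (2 * c + 2) (m + 1) * (((m : ℝ) + 1) * (2 * c + 3 + m)) =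
      (2 * c + 2) * (2 * c + 3) * b (2 * (c + 1) + 2) m := by
  unfold b
  have h1 : (∏ i ∈ range (m + 1), (2 * c + 2 + (i : ℝ))) * (2 * c + 3 + m) =
      (2 * c + 2) * (2 * c + 3) * ∏ i ∈ range m, (2 * (c + 1) + 2 + (i : ℝ)) := by
    have h2 : (∏ i ∈ range (m + 1), (2 * c + 2 + (i : ℝ))) * (2 * c + 3 + m) =
        ∏ i ∈ range (m + 1 + 1), (2 * c + 2 + (i : ℝ)) := by
      rw [Finset.prod_range_succ _ (m + 1)]
      push_cast
      ring
    rw [h2, Finset.prod_range_succ', Finset.prod_range_succ']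
    have : ∀ k ∈ range m, (2 * c + 2 + ((k + 1 + 1 : ℕ) : ℝ)) =
        2 * (c + 1) + 2 + (k : ℝ) := by
      intro k _
      push_cast
      ring
    rw [Finset.prod_congr rfl this]
    push_cast
    ring
  have h3 : ((m + 1).factorial : ℝ) = ((m : ℝ) + 1) * (m.factorial : ℝ) := by
    rw [Nat.factorial_succ]
    push_cast
    ring
  have h4 : (m.factorial : ℝ) ≠ 0 := by positivity
  have h5 : ((m : ℝ) + 1) ≠ 0 := by positivity
  rw [h3]
  generalize (∏ i ∈ range (m + 1), (2 * c + 2 + (i : ℝ))) = P at h1 ⊢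
  generalize (∏ i ∈ range m, (2 * (c + 1) + 2 + (i : ℝ))) = Q at h1 ⊢
  field_simp
  linear_combination h1

theorem V_succ (N : ℕ) (c : ℝ) (m : Fin (N + 1) → ℕ) :
    V (N + 1) c m = (∏ j : Fin N, (((m j.succ : ℝ) + c + 1) ^ 2 - ((m 0 : ℝ) + c + 1) ^ 2)) *
      ∏ i : Fin N, ∏ j ∈ Finset.Ioi i,
        (((m j.succ : ℝ) + c + 1) ^ 2 - ((m i.succ : ℝ) + c + 1) ^ 2) := by
  unfold V
  rw [Fin.prod_univ_succ, Fin.prod_Ioi_zero]
  congr 1
  apply Finset.prod_congr rfl
  intro i _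
  rw [Fin.prod_Ioi_succ]

theorem V_last (N : ℕ) (c : ℝ) (m : Fin (N + 1) → ℕ) :
    V (N + 1) c m = (∏ j : Fin N, (((m (Fin.last N) : ℝ) + c + 1) ^ 2 -
      ((m j.castSucc : ℝ) + c + 1) ^ 2)) *
      ∏ i : Fin N, ∏ j ∈ Finset.Ioi i,
        (((m j.castSucc : ℝ) + c + 1) ^ 2 - ((m i.castSucc : ℝ) + c + 1) ^ 2) := by
  have h : ∀ (n : ℕ) (g : Fin n → Fin n → ℝ), ∏ i : Fin n, ∏ j ∈ Finset.Ioi i, g i j =
      ∏ i : Fin n, ∏ j : Fin n, if i < j then g i j else 1 := by
    intro n g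
    apply Finset.prod_congr rfl
    intro i _
    rw [← Finset.prod_filter]
    apply Finset.prod_congr _ (fun _ _ => rfl)
    ext j
    simp
  unfold V
  rw [h, h, Fin.prod_univ_castSucc]
  have h1 : ∏ j : Fin (N + 1), (if Fin.last N < j then
      (((m j : ℝ) + c + 1) ^ 2 - ((m (Fin.last N) : ℝ) + c + 1) ^ 2) else 1) = 1 := by
    apply Finset.prod_eq_one
    intro j _
    rw [if_neg (not_lt.2 (Fin.le_last j))]
  rw [h1, mul_one, ← Finset.prod_mul_distrib]
  apply Finset.prod_congr rfl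
  intro i _
  rw [Fin.prod_univ_castSucc, if_pos (Fin.castSucc_lt_last i), mul_comm]
  congr 1

/-- `2 c` is not an integer -/
def NI (c : ℝ) : Prop := ∀ n : ℤ, 2 * c ≠ n

theorem NI.succ {c : ℝ} (h : NI c) : NI (c + 1) := by
  intro n hn
  apply h (n - 2)
  push_cast
  linarith

theorem NI.ne {c : ℝ} (h : NI c) (n : ℤ) : 2 * c + n ≠ 0 := by
  intro hn
  apply h (-n)
  push_cast
  linarith

theorem Den_ne {N : ℕ} {c : ℝ} (h : NI c) : Den N c ≠ 0 := by
  unfold Den
  apply Finset.prod_ne_zero_iff.2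
  intro j _
  apply Finset.prod_ne_zero_iff.2
  intro k _
  have := h.ne (2 + k)
  push_cast at this
  intro h0
  apply this
  linarith

theorem two_ne {c : ℝ} (h : NI c) : (2 * c + 2) * (2 * c + 3) ≠ 0 := by
  have h1 := h.ne 2
  have h2 := h.ne 3
  push_cast at h1 h2
  exact mul_ne_zero h1 h2

/-- stability: adding an empty row -/
theorem PF_stable (N : ℕ) (c : ℝ) (hc : NI c) (m : Fin (N + 1) → ℕ) (m' : Fin N → ℕ)
    (h0 : m 0 = 0) (hs : ∀ i : Fin N, m i.succ = m' i + 1) :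
    PF (N + 1) c m = PF N (c + 1) m' := by
  rw [PF_eq, PF_eq, V_succ, Den_succ, Fin.prod_univ_succ, h0]
  have hb0 : b (2 * c + 2) 0 = 1 := by simp [b]
  rw [hb0, one_mul]
  have hV : ∏ i : Fin N, ∏ j ∈ Finset.Ioi i,
        (((m j.succ : ℝ) + c + 1) ^ 2 - ((m i.succ : ℝ) + c + 1) ^ 2) = V N (c + 1) m' := by
    unfold V
    apply Finset.prod_congr rfl
    intro i _
    apply Finset.prod_congr rfl
    intro j _
    rw [hs, hs]
    push_cast
    ring
  rw [hV]
  have hA : (∏ i : Fin N, b (2 * c + 2) (m i.succ)) *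
      (∏ j : Fin N, (((m j.succ : ℝ) + c + 1) ^ 2 - (((0 : ℕ) : ℝ) + c + 1) ^ 2)) =
      ((2 * c + 2) * (2 * c + 3)) ^ N * ∏ i : Fin N, b (2 * (c + 1) + 2) (m' i) := by
    rw [← Finset.prod_mul_distrib]
    have : ∀ i ∈ (Finset.univ : Finset (Fin N)), b (2 * c + 2) (m i.succ) *
        (((m i.succ : ℝ) + c + 1) ^ 2 - (((0 : ℕ) : ℝ) + c + 1) ^ 2) =
        ((2 * c + 2) * (2 * c + 3)) * b (2 * (c + 1) + 2) (m' i) := by
      intro i _
      rw [hs, ← b_succ]
      push_cast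
      ring
    rw [Finset.prod_congr rfl this, Finset.prod_mul_distrib, Finset.prod_const]
    simp
  have hp : ((2 * c + 2) * (2 * c + 3)) ^ N ≠ 0 := pow_ne_zero _ (two_ne hc)
  have hD : Den N (c + 1) ≠ 0 := Den_ne hc.succ
  rw [div_eq_div_iff (mul_ne_zero hp hD) hD]
  linear_combination (V N (c + 1) m' * Den N (c + 1)) * hA

theorem EF_stable (N : ℕ) (c : ℝ) (hc : NI c) (m : Fin (N + 1) → ℕ) (m' : Fin N → ℕ)
    (h0 : m 0 = 0) (hs : ∀ i : Fin N, m i.succ = m' i + 1) :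
    EF (N + 1) c m = EF N (c + 1) m' := by
  unfold EF
  rw [Fin.prod_univ_succ, h0]
  have h1 : c + 1 ≠ 0 := by
    have := hc.ne 2
    push_cast at this
    intro h
    apply this
    linarith
  have h2 : (((0 : ℕ) : ℝ) + c + 1) / (c + 1 + (((0 : Fin (N + 1)) : ℕ) : ℝ)) = 1 := by
    simp only [Fin.val_zero, Nat.cast_zero, add_zero, zero_add]
    exact div_self h1
  rw [h2, one_mul]
  apply Finset.prod_congr rfl
  intro i _
  rw [hs, Fin.val_succ]
  push_cast
  congr 1 <;> ring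

/-- removing the last exponent -/
theorem PF_last (N : ℕ) (c : ℝ) (hc : NI c) (m : Fin (N + 1) → ℕ) (m' : Fin N → ℕ)
    (hs : ∀ i : Fin N, m i.castSucc = m' i + 1) :
    PF (N + 1) c m * (∏ i : Fin N, ((m i.castSucc : ℝ) * (2 * c + 2 + (m i.castSucc : ℝ)))) =
    b (2 * c + 2) (m (Fin.last N)) *
      (∏ i : Fin N, (((m (Fin.last N) : ℝ) + c + 1) ^ 2 - ((m i.castSucc : ℝ) + c + 1) ^ 2)) *
      PF N (c + 1) m' := by
  rw [PF_eq, PF_eq, V_last, Den_succ, Fin.prod_univ_castSucc]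
  have hV : ∏ i : Fin N, ∏ j ∈ Finset.Ioi i,
        (((m j.castSucc : ℝ) + c + 1) ^ 2 - ((m i.castSucc : ℝ) + c + 1) ^ 2) =
        V N (c + 1) m' := by
    unfold V
    apply Finset.prod_congr rfl
    intro i _
    apply Finset.prod_congr rfl
    intro j _
    rw [hs, hs]
    push_cast
    ring
  rw [hV]
  have hA : (∏ i : Fin N, b (2 * c + 2) (m i.castSucc)) *
      (∏ i : Fin N, ((m i.castSucc : ℝ) * (2 * c + 2 + (m i.castSucc : ℝ)))) =
      ((2 * c + 2) * (2 * c + 3)) ^ N * ∏ i : Fin N, b (2 * (c + 1) + 2) (m' i) := by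
    rw [← Finset.prod_mul_distrib]
    have : ∀ i ∈ (Finset.univ : Finset (Fin N)), b (2 * c + 2) (m i.castSucc) *
        ((m i.castSucc : ℝ) * (2 * c + 2 + (m i.castSucc : ℝ))) =
        ((2 * c + 2) * (2 * c + 3)) * b (2 * (c + 1) + 2) (m' i) := by
      intro i _
      rw [hs, ← b_succ]
      push_cast
      ring
    rw [Finset.prod_congr rfl this, Finset.prod_mul_distrib, Finset.prod_const]
    simp
  have hp : ((2 * c + 2) * (2 * c + 3)) ^ N ≠ 0 := pow_ne_zero _ (two_ne hc)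
  have hD : Den N (c + 1) ≠ 0 := Den_ne hc.succ
  rw [div_mul_eq_mul_div, mul_div_assoc', div_eq_div_iff (mul_ne_zero hp hD) hD]
  generalize (∏ i : Fin N, (((m (Fin.last N) : ℝ) + c + 1) ^ 2 -
    ((m i.castSucc : ℝ) + c + 1) ^ 2)) = Z
  linear_combination (V N (c + 1) m' * Den N (c + 1) * Z * b (2 * c + 2) (m (Fin.last N))) * hA

theorem EF_last (N : ℕ) (c : ℝ) (hc : NI c) (m : Fin (N + 1) → ℕ) (m' : Fin N → ℕ)
    (hs : ∀ i : Fin N, m i.castSucc = m' i + 1) :
    EF (N + 1) c m = EF N (c + 1) m' * (((m (Fin.last N) : ℝ) + c + 1) / (c + 1)) := by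
  have hne : ∀ k : ℕ, c + 1 + (k : ℝ) ≠ 0 := by
    intro k h
    have := hc.ne (2 + 2 * k)
    push_cast at this
    apply this
    linarith
  unfold EF
  rw [Finset.prod_div_distrib, Finset.prod_div_distrib, Fin.prod_univ_castSucc]
  have h1 : ∏ i : Fin N, ((m i.castSucc : ℝ) + c + 1) =
      ∏ i : Fin N, ((m' i : ℝ) + (c + 1) + 1) := by
    apply Finset.prod_congr rfl
    intro i _
    rw [hs]
    push_cast
    ring
  rw [h1]
  have h2 : ∏ i : Fin (N + 1), (c + 1 + ((i : ℕ) : ℝ)) =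
      (c + 1) * ∏ i : Fin N, (c + 1 + 1 + ((i : ℕ) : ℝ)) := by
    rw [Fin.prod_univ_succ]
    congr 1
    · simp
    · apply Finset.prod_congr rfl
      intro i _
      rw [Fin.val_succ]
      push_cast
      ring
  rw [h2]
  have h3 : c + 1 ≠ 0 := by
    have := hne 0
    simpa using this
  have h4 : ∏ i : Fin N, (c + 1 + 1 + ((i : ℕ) : ℝ)) ≠ 0 := by
    apply Finset.prod_ne_zero_iff.2
    intro i _
    have := hne ((i : ℕ) + 1)
    push_cast at this
    intro h
    apply this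
    linarith
  field_simp

theorem prod_fact (n : ℕ) : ∏ k ∈ range n, ((n : ℝ) - (k : ℝ)) = (n.factorial : ℝ) := by
  induction n with
  | zero => simp
  | succ n ih =>
    rw [Finset.prod_range_succ', Nat.factorial_succ]
    have : ∀ k ∈ range n, (((n + 1 : ℕ) : ℝ) - ((k + 1 : ℕ) : ℝ)) = (n : ℝ) - (k : ℝ) := by
      intro k _
      push_cast
      ring
    rw [Finset.prod_congr rfl this, ih]
    push_cast
    ring

section Step

variable (μ : YoungDiagram) (N : ℕ) (hN : μ.colLen 0 = N + 1)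

include hN

theorem rowLen_pos {i : ℕ} (hi : i ≤ N) : 1 ≤ μ.rowLen i := by
  have : (i, 0) ∈ μ := YoungDiagram.mem_iff_lt_colLen.2 (by omega)
  exact YoungDiagram.mem_iff_lt_rowLen.1 this

theorem mvN_castSucc (i : Fin N) :
    mv (N + 1) μ i.castSucc = μ.rowLen (N - (i : ℕ)) + (i : ℕ) := by
  unfold mv
  simp

theorem mvN_last : mv (N + 1) μ (Fin.last N) = μ.rowLen 0 + N := by
  unfold mv
  simp

theorem mv_peel (i : Fin N) : mv (N + 1) μ i.castSucc = mv N (peel μ) i + 1 := by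
  rw [mvN_castSucc μ N hN]
  unfold mv
  rw [rowLen_peel]
  have hi := i.2
  have h1 : N - 1 - (i : ℕ) + 1 = N - (i : ℕ) := by omega
  rw [h1]
  have := rowLen_pos μ N hN (i := N - (i : ℕ)) (by omega)
  omega

theorem row_fac (c : ℝ) (j : ℕ) (hj : j < μ.rowLen 0) :
    (2 * (c + ((N + 1 : ℕ) : ℝ)) + (csp μ (0, j) : ℝ) =
      2 * c + 2 + ((N + 1 + j - μ.colLen j : ℕ) : ℝ)) ∧
    ((hook μ (0, j) : ℝ) = ((N + μ.rowLen 0 : ℕ) : ℝ) - ((N + 1 + j - μ.colLen j : ℕ) : ℝ)) := by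
  have hcol : μ.colLen j ≤ N + 1 := by
    have := μ.colLen_anti 0 j (Nat.zero_le j)
    omega
  have h1 : ((N + 1 + j - μ.colLen j : ℕ) : ℝ) = (N : ℝ) + 1 + j - μ.colLen j := by
    rw [Nat.cast_sub (by omega)]
    push_cast
    ring
  rw [h1]
  constructor
  · unfold csp
    simp only [Nat.not_lt_zero, if_false]
    rw [hN]
    push_cast
    ring
  · unfold hook
    push_cast
    ring

theorem R1_eq (c : ℝ) (hc : NI c) :
    (∏ j ∈ range (μ.rowLen 0), (2 * (c + ((N + 1 : ℕ) : ℝ)) + (csp μ (0, j) : ℝ)) /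
      (hook μ (0, j) : ℝ)) * ∏ i : Fin N, (2 * c + 2 + (mv (N + 1) μ i.castSucc : ℝ)) =
    b (2 * c + 2) (mv (N + 1) μ (Fin.last N)) *
      ∏ i : Fin N, ((mv (N + 1) μ (Fin.last N) : ℝ) - (mv (N + 1) μ i.castSucc : ℝ)) := by
  have h1 := compl μ N hN (fun k => 2 * c + 2 + (k : ℝ))
  have h2 := compl μ N hN (fun k => ((N + μ.rowLen 0 : ℕ) : ℝ) - (k : ℝ))
  rw [prod_fact] at h2
  have hl : mv (N + 1) μ (Fin.last N) = N + μ.rowLen 0 := by
    rw [mvN_last μ N hN]; ring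
  rw [hl, Finset.prod_div_distrib]
  have e1 : ∏ j ∈ range (μ.rowLen 0), (2 * (c + ((N + 1 : ℕ) : ℝ)) + (csp μ (0, j) : ℝ)) =
      ∏ j ∈ range (μ.rowLen 0), (2 * c + 2 + ((N + 1 + j - μ.colLen j : ℕ) : ℝ)) := by
    apply Finset.prod_congr rfl
    intro j hj
    exact (row_fac μ N hN c j (Finset.mem_range.1 hj)).1
  have e2 : ∏ j ∈ range (μ.rowLen 0), (hook μ (0, j) : ℝ) =
      ∏ j ∈ range (μ.rowLen 0), (((N + μ.rowLen 0 : ℕ) : ℝ) -
        ((N + 1 + j - μ.colLen j : ℕ) : ℝ)) := by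
    apply Finset.prod_congr rfl
    intro j hj
    exact (row_fac μ N hN c j (Finset.mem_range.1 hj)).2
  rw [e1, e2]
  unfold b
  have hf : (((N + μ.rowLen 0).factorial : ℕ) : ℝ) ≠ 0 := by positivity
  have hne : ∏ j ∈ range (μ.rowLen 0), (((N + μ.rowLen 0 : ℕ) : ℝ) -
        ((N + 1 + j - μ.colLen j : ℕ) : ℝ)) ≠ 0 := by
    intro h0
    rw [h0, zero_mul] at h2
    exact hf h2.symm
  rw [← h1, ← h2]
  have hne2 : ∏ i : Fin N, (((N + μ.rowLen 0 : ℕ) : ℝ) - (mv (N + 1) μ i.castSucc : ℝ)) ≠ 0 := by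
    intro h0
    rw [h0, mul_zero] at h2
    exact hf h2.symm
  field_simp

theorem R2_eq (c : ℝ) :
    (∏ i ∈ range (μ.colLen 0 - 1), (2 * (c + ((N + 1 : ℕ) : ℝ)) + (csp μ (i + 1, 0) : ℝ)) /
      (hook μ (i + 1, 0) : ℝ)) * ∏ i : Fin N, (mv (N + 1) μ i.castSucc : ℝ) =
    ∏ i : Fin N, ((mv (N + 1) μ (Fin.last N) : ℝ) + (mv (N + 1) μ i.castSucc : ℝ) +
      2 * c + 2) := by
  have h0 : μ.colLen 0 - 1 = N := by omega
  rw [h0, ← Finset.prod_range_reflect, Finset.prod_range, ← Finset.prod_mul_distrib]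
  apply Finset.prod_congr rfl
  intro i _
  have hi := i.2
  have h1 : N - 1 - (i : ℕ) + 1 = N - (i : ℕ) := by omega
  rw [h1]
  have hpos := rowLen_pos μ N hN (i := N - (i : ℕ)) (by omega)
  have hc1 : ((N - (i : ℕ) : ℕ) : ℝ) = (N : ℝ) - ((i : ℕ) : ℝ) := by
    rw [Nat.cast_sub hi.le]
  have hh : (hook μ (N - (i : ℕ), 0) : ℝ) = (mv (N + 1) μ i.castSucc : ℝ) := by
    rw [mvN_castSucc μ N hN]
    unfold hook
    rw [hN]
    push_cast
    rw [hc1]
    ring
  have hcs : 2 * (c + ((N + 1 : ℕ) : ℝ)) + (csp μ (N - (i : ℕ), 0) : ℝ) =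
      (mv (N + 1) μ (Fin.last N) : ℝ) + (mv (N + 1) μ i.castSucc : ℝ) + 2 * c + 2 := by
    rw [mvN_castSucc μ N hN, mvN_last μ N hN]
    unfold csp
    rw [if_pos (by show 0 < N - (i : ℕ); omega)]
    push_cast
    rw [hc1]
    ring
  rw [hh, hcs]
  have hm : (mv (N + 1) μ i.castSucc : ℝ) ≠ 0 := by
    rw [mvN_castSucc μ N hN]
    have : (μ.rowLen (N - (i : ℕ)) + (i : ℕ) : ℕ) ≠ 0 := by omega
    exact_mod_cast this
  field_simp

omit hN in
theorem csp_peel {i j : ℕ} (h : (i, j) ∈ peel μ) :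
    csp μ (i + 1, j + 1) = csp (peel μ) (i, j) ∧ hook μ (i + 1, j + 1) = hook (peel μ) (i, j) ∧
      cO μ (i + 1, j + 1) = cO (peel μ) (i, j) := by
  have h1 := (mem_peel μ i j).1 h
  have h2 : j + 1 < μ.rowLen (i + 1) := YoungDiagram.mem_iff_lt_rowLen.1 h1
  have h3 : i + 1 < μ.colLen (j + 1) := YoungDiagram.mem_iff_lt_colLen.1 h1
  have r1 : (((peel μ).rowLen i : ℕ) : ℚ) = (μ.rowLen (i + 1) : ℚ) - 1 := by
    rw [rowLen_peel, Nat.cast_sub (by omega)]
    simp
  have c1 : (((peel μ).colLen j : ℕ) : ℚ) = (μ.colLen (j + 1) : ℚ) - 1 := by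
    rw [colLen_peel, Nat.cast_sub (by omega)]
    simp
  have r2 : j ≤ i → (((peel μ).rowLen j : ℕ) : ℚ) = (μ.rowLen (j + 1) : ℚ) - 1 := by
    intro hij
    have := μ.rowLen_anti (j + 1) (i + 1) (by omega)
    rw [rowLen_peel, Nat.cast_sub (by omega)]
    simp
  have c2 : i ≤ j → (((peel μ).colLen i : ℕ) : ℚ) = (μ.colLen (i + 1) : ℚ) - 1 := by
    intro hij
    have := μ.colLen_anti (i + 1) (j + 1) (by omega)
    rw [colLen_peel, Nat.cast_sub (by omega)]
    simp
  refine ⟨?_, ?_, ?_⟩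
  · unfold csp
    simp only
    by_cases hij : j < i
    · rw [if_pos (by omega), if_pos hij, r1, r2 hij.le]
      push_cast
      ring
    · rw [if_neg (by omega), if_neg hij, c1, c2 (by omega)]
      push_cast
      ring
  · unfold hook
    simp only
    rw [r1, c1]
    push_cast
    ring
  · unfold cO
    simp only
    by_cases hij : j ≤ i
    · rw [if_pos (by omega), if_pos hij, r1, r2 hij]
      push_cast
      ring
    · rw [if_neg (by omega), if_neg hij, c1, c2 (by omega)]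
      push_cast
      ring

omit hN in
theorem R3_eq (t : ℝ) :
    ∏ c ∈ (peel μ).cells, (t + (csp μ (c.1 + 1, c.2 + 1) : ℝ)) / (hook μ (c.1 + 1, c.2 + 1) : ℝ) =
      Wsp t (peel μ) := by
  unfold Wsp
  apply Finset.prod_congr rfl
  rintro ⟨i, j⟩ hc
  obtain ⟨h1, h2, -⟩ := csp_peel μ (i := i) (j := j) hc
  simp only
  rw [h1, h2]

omit hN in
theorem R3O_eq (t : ℝ) :
    ∏ c ∈ (peel μ).cells, (t + (cO μ (c.1 + 1, c.2 + 1) : ℝ)) / (hook μ (c.1 + 1, c.2 + 1) : ℝ) =
      WO t (peel μ) := by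
  unfold WO
  apply Finset.prod_congr rfl
  rintro ⟨i, j⟩ hc
  obtain ⟨-, h2, h1⟩ := csp_peel μ (i := i) (j := j) hc
  simp only
  rw [h1, h2]

theorem R2O_eq (t : ℝ) :
    ∏ i ∈ range (μ.colLen 0 - 1), (t + 2 + (cO μ (i + 1, 0) : ℝ)) / (hook μ (i + 1, 0) : ℝ) =
    ∏ i ∈ range (μ.colLen 0 - 1), (t + (csp μ (i + 1, 0) : ℝ)) / (hook μ (i + 1, 0) : ℝ) := by
  apply Finset.prod_congr rfl
  intro i _
  congr 1
  unfold csp cO
  simp only
  rw [if_pos (by omega), if_pos (by omega)]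
  push_cast
  ring

theorem R1O_eq (c : ℝ) (hc : NI c) :
    ∏ j ∈ range (μ.rowLen 0), (2 * (c + ((N + 1 : ℕ) : ℝ)) + 2 + (cO μ (0, j) : ℝ)) /
      (hook μ (0, j) : ℝ) =
    (∏ j ∈ range (μ.rowLen 0), (2 * (c + ((N + 1 : ℕ) : ℝ)) + (csp μ (0, j) : ℝ)) /
      (hook μ (0, j) : ℝ)) * (((mv (N + 1) μ (Fin.last N) : ℝ) + c + 1) / (c + 1)) := by
  obtain ⟨L, hL⟩ : ∃ L, μ.rowLen 0 = L + 1 := ⟨μ.rowLen 0 - 1, by
    have := rowLen_pos μ N hN (i := 0) (by omega)
    omega⟩
  have hlast := mvN_last μ N hN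
  rw [hL] at hlast
  rw [hlast, hL, Finset.prod_range_succ', Finset.prod_range_succ']
  have h1 : ∀ j ∈ range L, (2 * (c + ((N + 1 : ℕ) : ℝ)) + 2 + (cO μ (0, j + 1) : ℝ)) /
      (hook μ (0, j + 1) : ℝ) = (2 * (c + ((N + 1 : ℕ) : ℝ)) + (csp μ (0, j + 1) : ℝ)) /
      (hook μ (0, j + 1) : ℝ) := by
    intro j _
    congr 1
    unfold csp cO
    simp only
    rw [if_neg (by omega), if_neg (by omega)]
    push_cast
    ring
  rw [Finset.prod_congr rfl h1, mul_assoc]
  congr 1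
  have h2 : 2 * (c + ((N + 1 : ℕ) : ℝ)) + 2 + (cO μ (0, 0) : ℝ) =
      2 * (((L + 1 + N : ℕ) : ℝ) + c + 1) := by
    unfold cO
    simp only
    rw [if_pos le_rfl, hL]
    push_cast
    ring
  have h3 : 2 * (c + ((N + 1 : ℕ) : ℝ)) + (csp μ (0, 0) : ℝ) = 2 * (c + 1) := by
    unfold csp
    simp only
    rw [if_neg (lt_irrefl 0), hN]
    push_cast
    ring
  rw [h2, h3]
  have h4 : c + 1 ≠ 0 := by
    have := hc.ne 2
    push_cast at this
    intro h
    apply this
    linarith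
  field_simp

end Step

theorem main (N : ℕ) : ∀ (c : ℝ), NI c → ∀ μ : YoungDiagram, μ.colLen 0 ≤ N →
    Wsp (2 * (c + (N : ℝ))) μ = PF N c (mv N μ) ∧
    WO (2 * (c + (N : ℝ)) + 2) μ = Wsp (2 * (c + (N : ℝ))) μ * EF N c (mv N μ) := by
  induction N with
  | zero =>
    intro c hc μ hμ
    have hcells : μ.cells = ∅ := by
      apply Finset.eq_empty_of_forall_notMem
      rintro ⟨i, j⟩ h
      have h1 : i < μ.colLen j := YoungDiagram.mem_iff_lt_colLen.1 h
      have := μ.colLen_anti 0 j (Nat.zero_le j)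
      omega
    constructor
    · unfold Wsp PF
      rw [hcells]
      simp
    · unfold WO Wsp EF
      rw [hcells]
      simp
  | succ N ih =>
    intro c hc μ hμ
    rcases Nat.lt_or_ge (μ.colLen 0) (N + 1) with hlt | hge
    · have hle : μ.colLen 0 ≤ N := by omega
      have h0 : mv (N + 1) μ 0 = 0 := by
        unfold mv
        have : μ.rowLen N = 0 := by
          by_contra hne
          have h1 : (N, 0) ∈ μ := YoungDiagram.mem_iff_lt_rowLen.2 (by omega)
          have h2 := YoungDiagram.mem_iff_lt_colLen.1 h1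
          omega
        simp [this]
      have hs : ∀ i : Fin N, mv (N + 1) μ i.succ = mv N μ i + 1 := by
        intro i
        unfold mv
        rw [Fin.val_succ]
        have : N + 1 - 1 - ((i : ℕ) + 1) = N - 1 - (i : ℕ) := by omega
        rw [this]
        ring
      have ht : 2 * (c + ((N + 1 : ℕ) : ℝ)) = 2 * (c + 1 + (N : ℝ)) := by
        push_cast
        ring
      obtain ⟨i1, i2⟩ := ih (c + 1) hc.succ μ hle
      rw [PF_stable N c hc _ _ h0 hs, EF_stable N c hc _ _ h0 hs, ht]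
      exact ⟨i1, i2⟩
    · have hN : μ.colLen 0 = N + 1 := by omega
      have hle : (peel μ).colLen 0 ≤ N := by
        rw [colLen_peel]
        have := μ.colLen_anti 0 (0 + 1) (Nat.zero_le _)
        omega
      have ht : 2 * (c + ((N + 1 : ℕ) : ℝ)) = 2 * (c + 1 + (N : ℝ)) := by
        push_cast
        ring
      obtain ⟨i1, i2⟩ := ih (c + 1) hc.succ (peel μ) hle
      rw [← ht] at i1 i2
      have hp1 := R1_eq μ N hN c hc
      have hp2 := R2_eq μ N hN c
      have hPF := PF_last N c hc (mv (N + 1) μ) (mv N (peel μ)) (mv_peel μ N hN)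
      have hEF := EF_last N c hc (mv (N + 1) μ) (mv N (peel μ)) (mv_peel μ N hN)
      have hR1O := R1O_eq μ N hN c hc
      have hR2O := R2O_eq μ N hN (2 * (c + ((N + 1 : ℕ) : ℝ)))
      have hR3O := R3O_eq μ (2 * (c + ((N + 1 : ℕ) : ℝ)) + 2)
      have hR3 := R3_eq μ (2 * (c + ((N + 1 : ℕ) : ℝ)))
      have hW : Wsp (2 * (c + ((N + 1 : ℕ) : ℝ))) μ =
          (∏ j ∈ range (μ.rowLen 0), (2 * (c + ((N + 1 : ℕ) : ℝ)) + (csp μ (0, j) : ℝ)) /
            (hook μ (0, j) : ℝ)) *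
          ((∏ i ∈ range (μ.colLen 0 - 1), (2 * (c + ((N + 1 : ℕ) : ℝ)) +
            (csp μ (i + 1, 0) : ℝ)) / (hook μ (i + 1, 0) : ℝ)) *
          Wsp (2 * (c + ((N + 1 : ℕ) : ℝ))) (peel μ)) := by
        rw [← hR3]
        unfold Wsp
        exact prod_peel (fun x => (2 * (c + ((N + 1 : ℕ) : ℝ)) + (csp μ x : ℝ)) /
          (hook μ x : ℝ)) μ
      have hWO : WO (2 * (c + ((N + 1 : ℕ) : ℝ)) + 2) μ =
          (∏ j ∈ range (μ.rowLen 0), (2 * (c + ((N + 1 : ℕ) : ℝ)) + 2 + (cO μ (0, j) : ℝ)) /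
            (hook μ (0, j) : ℝ)) *
          ((∏ i ∈ range (μ.colLen 0 - 1), (2 * (c + ((N + 1 : ℕ) : ℝ)) + 2 +
            (cO μ (i + 1, 0) : ℝ)) / (hook μ (i + 1, 0) : ℝ)) *
          WO (2 * (c + ((N + 1 : ℕ) : ℝ)) + 2) (peel μ)) := by
        rw [← hR3O]
        unfold WO
        exact prod_peel (fun x => (2 * (c + ((N + 1 : ℕ) : ℝ)) + 2 + (cO μ x : ℝ)) /
          (hook μ x : ℝ)) μ
      rw [hR1O, hR2O, i2] at hWO
      constructor
      · have hne : ∏ i : Fin N, ((mv (N + 1) μ i.castSucc : ℝ) *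
            (2 * c + 2 + (mv (N + 1) μ i.castSucc : ℝ))) ≠ 0 := by
          apply Finset.prod_ne_zero_iff.2
          intro i _
          rw [mv_peel μ N hN]
          apply mul_ne_zero
          · positivity
          · have := hc.ne (2 + (mv N (peel μ) i + 1 : ℕ))
            push_cast at this ⊢
            intro h
            apply this
            linarith
        apply mul_right_cancel₀ hne
        rw [hPF, hW, ← i1, Finset.prod_mul_distrib]
        have hsq : ∏ i : Fin N, (((mv (N + 1) μ (Fin.last N) : ℝ) + c + 1) ^ 2 -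
            ((mv (N + 1) μ i.castSucc : ℝ) + c + 1) ^ 2) =
            (∏ i : Fin N, ((mv (N + 1) μ (Fin.last N) : ℝ) - (mv (N + 1) μ i.castSucc : ℝ))) *
            ∏ i : Fin N, ((mv (N + 1) μ (Fin.last N) : ℝ) + (mv (N + 1) μ i.castSucc : ℝ) +
              2 * c + 2) := by
          rw [← Finset.prod_mul_distrib]
          apply Finset.prod_congr rfl
          intro i _
          ring
        rw [hsq, ← hp2]
        generalize (∏ i ∈ range (μ.colLen 0 - 1), (2 * (c + ((N + 1 : ℕ) : ℝ)) +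
            (csp μ (i + 1, 0) : ℝ)) / (hook μ (i + 1, 0) : ℝ)) = A2
        linear_combination (A2 * Wsp (2 * (c + ((N + 1 : ℕ) : ℝ))) (peel μ) *
          (∏ i : Fin N, (mv (N + 1) μ i.castSucc : ℝ))) * hp1
      · rw [hWO, hW, hEF]
        ring

theorem hook_sp : Stm.S_hook_sp := by
  intro t ht μ
  have hc : NI (t / 2 - μ.colLen 0) := by
    intro n hn
    apply ht (n + 2 * μ.colLen 0)
    push_cast
    linarith
  have h := (main (μ.colLen 0) (t / 2 - μ.colLen 0) hc μ le_rfl).1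
  have e : 2 * (t / 2 - (μ.colLen 0 : ℝ) + (μ.colLen 0 : ℝ)) = t := by ring
  rw [e] at h
  exact h

theorem hook_O : Stm.S_hook_O := by
  intro t ht μ
  have hc : NI (t / 2 - μ.colLen 0) := by
    intro n hn
    apply ht (n + 2 * μ.colLen 0)
    push_cast
    linarith
  have h := (main (μ.colLen 0) (t / 2 - μ.colLen 0) hc μ le_rfl).2
  have e : 2 * (t / 2 - (μ.colLen 0 : ℝ) + (μ.colLen 0 : ℝ)) = t := by ring
  rw [e] at h
  exact h

end Pool.Agent.R178.HC.HookP
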