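import Pool.Agent.R178.HC.Stm

set_option autoImplicit false

/-! HC-3: the determinant identity behind the Pieri rule (by helper706, after helper178). -/

namespace Pool.Agent.R178.HC.Pieri

open PowerSeries Finset Pool.Agent.R178.HC

/-- truncation -/
noncomputable def cut (n : ℕ) (f : PowerSeries ℝ) : PowerSeries ℝ :=
  ∑ i ∈ range n, C (coeff i f) * X ^ i

theorem cut_succ (n : ℕ) (f : PowerSeries ℝ) :
    cut (n + 1) f = cut n f + C (coeff n f) * X ^ n := Finset.sum_range_succ _ _

theorem cut_Ico (a b : ℕ) (h : a ≤ b) (f : PowerSeries ℝ) :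
    cut b f = ∑ i ∈ Ico a b, C (coeff i f) * X ^ i + cut a f := by
  unfold cut
  rw [add_comm, Finset.range_eq_Ico, Finset.range_eq_Ico, Finset.sum_Ico_consecutive _ (Nat.zero_le _) h]

theorem dvd_sub_cut (n : ℕ) (f : PowerSeries ℝ) : X ^ n ∣ f - cut n f := by
  rw [PowerSeries.X_pow_dvd_iff]
  intro m hm
  rw [map_sub, cut, map_sum]
  have h : ∀ i ∈ range n, coeff m (C (coeff i f) * X ^ i) = if m = i then coeff i f else 0 :=
    fun i _ => coeff_C_mul_X_pow _ _ _
  rw [Finset.sum_congr rfl h, Finset.sum_ite_eq, if_pos (mem_range.2 hm), sub_self]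

theorem C_two : (C (2 : ℝ) : PowerSeries ℝ) = 2 := map_ofNat (C : ℝ →+* PowerSeries ℝ) 2

theorem coeff_two (ψ : PowerSeries ℝ) (m : ℕ) : coeff (m + 1) ((1 - X) ^ 2 * ψ)
    = coeff (m + 1) ψ - 2 * coeff m ψ + coeff m (X * ψ) := by
  have h : (1 - X) ^ 2 * ψ = ψ - C (2 : ℝ) * (X * ψ) + X * (X * ψ) := by
    have : (C (2 : ℝ) : PowerSeries ℝ) = 2 := C_two
    rw [this]; ring
  rw [h, map_add, map_sub, coeff_C_mul, coeff_succ_X_mul, coeff_succ_X_mul]

theorem cut_key (ψ : PowerSeries ℝ) (m : ℕ) :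
    X * cut (m + 1) ((1 - X) ^ 2 * ψ) - (1 - X) ^ 2 * cut (m + 1) (X * ψ)
      = X ^ (m + 1) * (C (coeff m ψ) - X * C (coeff m (X * ψ))) := by
  induction m with
  | zero =>
    have h1 : coeff 0 ((1 - X) ^ 2 * ψ) = coeff 0 ψ := by
      simp
    have h2 : coeff 0 (X * ψ) = 0 := by simp
    unfold cut
    rw [zero_add, Finset.sum_range_one, Finset.sum_range_one, h1, h2, map_zero]
    ring
  | succ m ih =>
    rw [cut_succ (m + 1), cut_succ (m + 1), coeff_two, coeff_succ_X_mul, map_add, map_sub, map_mul]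
    rw [C_two]
    linear_combination ih

theorem det_dvd {n : ℕ} (A B : Matrix (Fin n) (Fin n) (PowerSeries ℝ)) (L : ℕ)
    (h : ∀ i j, X ^ L ∣ A i j - B i j) : X ^ L ∣ A.det - B.det := by
  rw [← Ideal.mem_span_singleton, ← Ideal.Quotient.eq, RingHom.map_det, RingHom.map_det]
  congr 1
  ext i j
  rw [RingHom.mapMatrix_apply, RingHom.mapMatrix_apply, Matrix.map_apply, Matrix.map_apply,
    Ideal.Quotient.eq, Ideal.mem_span_singleton]
  exact h i j

theorem det_rows_sum {n : ℕ} {R : Type} [CommRing R] (I : Fin n → Finset ℕ)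
    (g : Fin n → ℕ → Fin n → R) :
    Matrix.det (Matrix.of fun i j => ∑ x ∈ I i, g i x j)
      = ∑ l ∈ Fintype.piFinset I, Matrix.det (Matrix.of fun i j => g i (l i) j) := by
  have h := (Matrix.detRowAlternating (R := R) (n := Fin n)).toMultilinearMap.map_sum_finset
    (fun i x => g i x) I
  have e1 : (Matrix.of fun i j => ∑ x ∈ I i, g i x j : Matrix (Fin n) (Fin n) R)
      = fun i => ∑ x ∈ I i, g i x := by
    funext i j
    simp [Finset.sum_apply]
  rw [e1]
  exact h

theorem det_C {n : ℕ} (M : Fin n → Fin n → ℝ) (a : Fin n → PowerSeries ℝ) :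
    Matrix.det (Matrix.of fun i j => a i * C (M i j))
      = (∏ i, a i) * C (Matrix.det (Matrix.of M)) := by
  refine (Matrix.det_mul_column a (Matrix.of fun i j => C (M i j))).trans ?_
  rw [RingHom.map_det]
  rfl

theorem psi_castSucc (N : ℕ) (q : PowerSeries ℝ) (j : Fin N) :
    psi (N + 1) q j.castSucc = (1 - X) ^ 2 * psi N q j := by
  unfold psi
  have h : 2 * (N + 1 - 1 - (j.castSucc : ℕ)) = 2 * (N - 1 - (j : ℕ)) + 2 := by
    have := j.isLt
    rw [Fin.val_castSucc]; omega
  rw [h, Fin.val_castSucc]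
  ring

theorem psi_succ (N : ℕ) (q : PowerSeries ℝ) (j : Fin N) :
    psi (N + 1) q j.succ = X * psi N q j := by
  unfold psi
  have h : 2 * (N + 1 - 1 - (j.succ : ℕ)) = 2 * (N - 1 - (j : ℕ)) := by
    have := j.isLt
    rw [Fin.val_succ]; omega
  rw [h, Fin.val_succ]
  ring

theorem psi_last (N : ℕ) (q : PowerSeries ℝ) : psi (N + 1) q (Fin.last N) = X ^ N * q := by
  unfold psi
  have h : 2 * (N + 1 - 1 - ((Fin.last N : Fin (N + 1)) : ℕ)) = 0 := by
    rw [Fin.val_last]; omega
  rw [h, Fin.val_last]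
  ring

/-- the reduced matrix -/
noncomputable def Mr (N : ℕ) (q : PowerSeries ℝ) (m : Fin N → ℕ) :
    Matrix (Fin N) (Fin N) (PowerSeries ℝ) :=
  Matrix.of fun i j => C (coeff (m i) (psi N q j)) - X * C (coeff (m i) (X * psi N q j))

/-- the big matrix -/
noncomputable def Ab (N : ℕ) (q : PowerSeries ℝ) (m : Fin N → ℕ) :
    Matrix (Fin (N + 1)) (Fin (N + 1)) (PowerSeries ℝ) :=
  Matrix.of fun i j => Fin.lastCases (motive := fun _ => PowerSeries ℝ) (psi (N + 1) q j)
    (fun a => cut (m a + 1) (psi (N + 1) q j)) i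

theorem Ab_last (N : ℕ) (q : PowerSeries ℝ) (m : Fin N → ℕ) (j : Fin (N + 1)) :
    Ab N q m (Fin.last N) j = psi (N + 1) q j := by
  simp [Ab]

theorem Ab_cast (N : ℕ) (q : PowerSeries ℝ) (m : Fin N → ℕ) (i : Fin N) (j : Fin (N + 1)) :
    Ab N q m i.castSucc j = cut (m i + 1) (psi (N + 1) q j) := by
  simp [Ab]

/-- the column operation -/
noncomputable def Tm (N : ℕ) : Matrix (Fin (N + 1)) (Fin (N + 1)) (PowerSeries ℝ) :=
  Matrix.of fun i j => if i = j then (if j = Fin.last N then 1 else X)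
    else if (i : ℕ) = (j : ℕ) + 1 then -(1 - X) ^ 2 else 0

theorem det_Tm (N : ℕ) : (Tm N).det = X ^ N := by
  rw [Matrix.det_of_isLowerTriangular]
  · rw [Fin.prod_univ_castSucc]
    have h1 : ∀ i : Fin N, Tm N i.castSucc i.castSucc = X := by
      intro i
      simp only [Tm, Matrix.of_apply, if_true]
      rw [if_neg (Fin.castSucc_lt_last i).ne]
    have h2 : Tm N (Fin.last N) (Fin.last N) = 1 := by
      simp [Tm]
    rw [h2, Finset.prod_congr rfl fun i _ => h1 i, Finset.prod_const, Finset.card_univ,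
      Fintype.card_fin, mul_one]
  · intro i j hij
    have hij' : i < j := by simpa using hij
    have h1 : (i : ℕ) < (j : ℕ) := hij'
    simp only [Tm, Matrix.of_apply]
    rw [if_neg hij'.ne, if_neg (by omega)]

theorem mul_Tm_last (N : ℕ) (A : Matrix (Fin (N + 1)) (Fin (N + 1)) (PowerSeries ℝ))
    (i : Fin (N + 1)) : (A * Tm N) i (Fin.last N) = A i (Fin.last N) := by
  rw [Matrix.mul_apply, Finset.sum_eq_single (Fin.last N)]
  · simp [Tm]
  · intro x _ hx
    simp only [Tm, Matrix.of_apply]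
    rw [if_neg hx, if_neg, mul_zero]
    have := x.isLt
    rw [Fin.val_last]; omega
  · intro h; exact absurd (mem_univ _) h

theorem mul_Tm_cast (N : ℕ) (A : Matrix (Fin (N + 1)) (Fin (N + 1)) (PowerSeries ℝ))
    (i : Fin (N + 1)) (j : Fin N) :
    (A * Tm N) i j.castSucc = X * A i j.castSucc - (1 - X) ^ 2 * A i j.succ := by
  rw [Matrix.mul_apply]
  have hne : j.castSucc ≠ j.succ := (Fin.castSucc_lt_succ).ne
  rw [← Finset.sum_subset (Finset.subset_univ ({j.castSucc, j.succ} : Finset (Fin (N + 1))))]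
  · rw [Finset.sum_pair hne]
    have e1 : Tm N j.castSucc j.castSucc = X := by
      simp only [Tm, Matrix.of_apply, if_true]
      rw [if_neg (Fin.castSucc_lt_last j).ne]
    have e2 : Tm N j.succ j.castSucc = -(1 - X) ^ 2 := by
      simp only [Tm, Matrix.of_apply]
      rw [if_neg hne.symm, if_pos (by simp)]
    rw [e1, e2]
    ring
  · intro x _ hx
    simp only [mem_insert, mem_singleton, not_or] at hx
    simp only [Tm, Matrix.of_apply]
    rw [if_neg hx.1, if_neg, mul_zero]
    intro h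
    exact hx.2 (Fin.ext (by rw [h, Fin.val_castSucc, Fin.val_succ]))

theorem det_Ab (N : ℕ) (q : PowerSeries ℝ) (m : Fin N → ℕ) :
    (Ab N q m).det = X ^ (∑ i, m i + N) * (q * (Mr N q m).det) := by
  have hX : (X ^ N : PowerSeries ℝ) ≠ 0 := pow_ne_zero _ PowerSeries.X_ne_zero
  have h1 : (Ab N q m * Tm N).det = (Ab N q m).det * X ^ N := by
    rw [Matrix.det_mul, det_Tm]
  have h2 : (Ab N q m * Tm N).det
      = (X ^ N * q) * ((Ab N q m * Tm N).submatrix Fin.castSucc Fin.castSucc).det := by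
    rw [Matrix.det_succ_row _ (Fin.last N), Fin.sum_univ_castSucc, Finset.sum_eq_zero, zero_add,
      mul_Tm_last, Ab_last, psi_last]
    · have e : (-1 : PowerSeries ℝ) ^ (((Fin.last N : Fin (N + 1)) : ℕ)
          + ((Fin.last N : Fin (N + 1)) : ℕ)) = 1 := by
        rw [← two_mul, pow_mul]; simp
      rw [e, one_mul]
      congr 2
      ext a b
      simp [Matrix.submatrix_apply, Fin.succAbove_last]
    · intro j _
      rw [mul_Tm_cast, Ab_last, Ab_last, psi_castSucc, psi_succ]
      ring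
  have h3 : ((Ab N q m * Tm N).submatrix Fin.castSucc Fin.castSucc).det
      = X ^ (∑ i, m i + N) * (Mr N q m).det := by
    have e : (Ab N q m * Tm N).submatrix Fin.castSucc Fin.castSucc
        = Matrix.of fun i j => X ^ (m i + 1) * Mr N q m i j := by
      ext1 a b
      rw [Matrix.submatrix_apply, mul_Tm_cast, Ab_cast, Ab_cast, psi_castSucc, psi_succ, cut_key]
      rfl
    rw [e, Matrix.det_mul_column]
    congr 1
    rw [Finset.prod_pow_eq_pow_sum, Finset.sum_add_distrib]
    simp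
  have h4 : (Ab N q m).det * X ^ N = (X ^ (∑ i, m i + N) * (q * (Mr N q m).det)) * X ^ N := by
    rw [← h1, h2, h3]; ring
  exact mul_right_cancel₀ hX h4

theorem det_Mr (N : ℕ) (q : PowerSeries ℝ) (m : Fin N → ℕ) :
    (Mr N q m).det = ∑ e ∈ Fintype.piFinset (fun _ : Fin N => range 2),
      (-X) ^ (∑ i, e i) * C (Matrix.det (Matrix.of fun i i' : Fin N =>
        coeff (m i) (X ^ (e i) * psi N q i'))) := by
  have h : Mr N q m = Matrix.of fun i j => ∑ x ∈ range 2,
      ((-X) ^ x * C (coeff (m i) (X ^ x * psi N q j))) := by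
    ext1 i j
    simp only [Mr, Matrix.of_apply]
    rw [Finset.sum_range_succ, Finset.sum_range_one]
    simp only [pow_zero, one_mul, pow_one]
    ring
  rw [h, det_rows_sum (fun _ : Fin N => range 2)
    (fun i x j => (-X) ^ x * C (coeff (m i) (X ^ x * psi N q j)))]
  refine Finset.sum_congr rfl fun e _ => ?_
  rw [det_C (fun i j => coeff (m i) (X ^ (e i) * psi N q j)) (fun i => (-X) ^ (e i)),
    Finset.prod_pow_eq_pow_sum]

/-- upper limits -/
def upf (N : ℕ) (m : Fin N → ℕ) (L : ℕ) : Fin (N + 1) → ℕ :=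
  fun i => Fin.lastCases (motive := fun _ => ℕ) L (fun a => m a + 1) i

/-- lower limits -/
def lof (N : ℕ) (m : Fin N → ℕ) : Fin (N + 1) → ℕ :=
  fun i => Fin.cases (motive := fun _ => ℕ) 0 (fun a => m a + 1) i

theorem upf_last (N : ℕ) (m : Fin N → ℕ) (L : ℕ) : upf N m L (Fin.last N) = L := by simp [upf]

theorem upf_cast (N : ℕ) (m : Fin N → ℕ) (L : ℕ) (i : Fin N) :
    upf N m L i.castSucc = m i + 1 := by simp [upf]

theorem lof_zero (N : ℕ) (m : Fin N → ℕ) : lof N m 0 = 0 := rfl

theorem lof_succ (N : ℕ) (m : Fin N → ℕ) (i : Fin N) : lof N m i.succ = m i + 1 := rfl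

theorem lo_le_up {N : ℕ} {m : Fin N → ℕ} (hm : StrictMono m) {L : ℕ} (hL : ∀ i, m i + 1 ≤ L)
    (i : Fin (N + 1)) : lof N m i ≤ upf N m L i := by
  refine Fin.cases ?_ (fun a => ?_) i
  · rw [lof_zero]; exact Nat.zero_le _
  · rw [lof_succ]
    rcases Fin.eq_castSucc_or_eq_last a.succ with ⟨b, hb⟩ | hb
    · rw [hb, upf_cast]
      have h1 : a < b := by
        have := congrArg Fin.val hb
        rw [Fin.val_succ, Fin.val_castSucc] at this
        rw [Fin.lt_def]; omega
      have := hm h1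
      omega
    · rw [hb, upf_last]; exact hL a

/-- the cumulative matrix -/
noncomputable def Cm (N : ℕ) (q : PowerSeries ℝ) (U : Fin (N + 1) → ℕ) :
    Matrix (Fin (N + 1)) (Fin (N + 1)) (PowerSeries ℝ) :=
  Matrix.of fun i j => cut (U i) (psi (N + 1) q j)

theorem Ab_Cm (N : ℕ) (q : PowerSeries ℝ) (m : Fin N → ℕ) (L : ℕ) :
    X ^ L ∣ (Ab N q m).det - (Cm N q (upf N m L)).det := by
  refine det_dvd _ _ L fun i j => ?_
  refine Fin.lastCases ?_ (fun a => ?_) i
  · rw [Ab_last]
    simp only [Cm, Matrix.of_apply, upf_last]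
    exact dvd_sub_cut _ _
  · rw [Ab_cast]
    simp only [Cm, Matrix.of_apply, upf_cast, sub_self]
    exact dvd_zero _

theorem det_Cm {N : ℕ} (q : PowerSeries ℝ) {m : Fin N → ℕ} (hm : StrictMono m) {L : ℕ}
    (hL : ∀ i, m i + 1 ≤ L) : (Cm N q (upf N m L)).det =
      ∑ l ∈ Fintype.piFinset (fun i => Ico (lof N m i) (upf N m L i)),
        C (Dm (N + 1) q l) * X ^ (∑ i, l i) := by
  have h1 : (Cm N q (upf N m L)).det = Matrix.det (Matrix.of fun i j =>
      ∑ x ∈ Ico (lof N m i) (upf N m L i), (X ^ x * C (coeff x (psi (N + 1) q j)))) := by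
    refine Matrix.det_eq_of_forall_row_eq_smul_add_pred (fun _ => 1) (fun j => ?_) (fun i j => ?_)
    · simp only [Cm, Matrix.of_apply, lof_zero, cut]
      rw [Finset.range_eq_Ico]
      exact Finset.sum_congr rfl fun x _ => mul_comm _ _
    · simp only [Cm, Matrix.of_apply, one_mul]
      have h := cut_Ico (lof N m i.succ) (upf N m L i.succ) (lo_le_up hm hL _) (psi (N + 1) q j)
      rw [h, lof_succ, upf_cast]
      congr 1
      exact Finset.sum_congr rfl fun x _ => mul_comm _ _
  rw [h1, det_rows_sum (fun i => Ico (lof N m i) (upf N m L i))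
    (fun _ x j => X ^ x * C (coeff x (psi (N + 1) q j)))]
  refine Finset.sum_congr rfl fun l _ => ?_
  rw [det_C (fun i j => coeff (l i) (psi (N + 1) q j)) (fun i => X ^ (l i)),
    Finset.prod_pow_eq_pow_sum, mul_comm]
  rfl

theorem coeff_det_Mr (N : ℕ) (q : PowerSeries ℝ) (m : Fin N → ℕ) (j : ℕ) :
    coeff j (Mr N q m).det = (-1) ^ j *
    ∑ e ∈ (Fintype.piFinset (fun _ : Fin N => range 2)).filter (fun e => ∑ i, e i = j),
      Matrix.det (Matrix.of fun i i' : Fin N => coeff (m i) (X ^ (e i) * psi N q i')) := by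
  rw [det_Mr, map_sum, Finset.sum_filter, Finset.mul_sum]
  refine Finset.sum_congr rfl fun e _ => ?_
  have h : (-X : PowerSeries ℝ) ^ (∑ i, e i) * C (Matrix.det (Matrix.of fun i i' : Fin N =>
        coeff (m i) (X ^ (e i) * psi N q i'))) = C ((-1) ^ (∑ i, e i) *
        Matrix.det (Matrix.of fun i i' : Fin N =>
          coeff (m i) (X ^ (e i) * psi N q i'))) * X ^ (∑ i, e i) := by
    rw [map_mul, map_pow, map_neg, map_one, neg_pow]
    ring
  rw [h, coeff_C_mul_X_pow]
  by_cases hj : j = ∑ i, e i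
  · rw [if_pos hj, if_pos hj.symm, hj]
  · rw [if_neg hj, if_neg (fun h' => hj h'.symm), mul_zero]

theorem pieri : Stm.S_pieri := by
  intro N q m hm k
  set K := ∑ i, m i + N + k with hK
  have hL : ∀ i, m i + 1 ≤ K + 1 := by
    intro i
    have : m i ≤ ∑ i, m i := Finset.single_le_sum (fun _ _ => Nat.zero_le _) (mem_univ i)
    omega
  have h1 : coeff K (Ab N q m).det = coeff K (Cm N q (upf N m (K + 1))).det := by
    have := PowerSeries.X_pow_dvd_iff.1 (Ab_Cm N q m (K + 1)) K (Nat.lt_succ_self _)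
    rw [map_sub] at this
    linarith
  have h2 : coeff K (Ab N q m).det = ∑ j ∈ range (k + 1), coeff (k - j) q * (-1) ^ j *
    ∑ e ∈ (Fintype.piFinset (fun _ : Fin N => range 2)).filter (fun e => ∑ i, e i = j),
      Matrix.det (Matrix.of fun i i' : Fin N => coeff (m i) (X ^ (e i) * psi N q i')) := by
    rw [det_Ab, hK, add_comm (∑ i, m i + N) k, coeff_X_pow_mul, mul_comm q, coeff_mul,
      Finset.Nat.sum_antidiagonal_eq_sum_range_succ
        (fun a b => coeff a (Mr N q m).det * coeff b q)]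
    refine Finset.sum_congr rfl fun j _ => ?_
    rw [coeff_det_Mr]
    ring
  have h3 : coeff K (Cm N q (upf N m (K + 1))).det =
      ∑ l ∈ (Fintype.piFinset (fun _ : Fin (N + 1) => range (K + 1))).filter
      (fun l => (∀ i : Fin N, l i.castSucc ≤ m i ∧ m i < l i.succ) ∧
        ∑ i, l i = K), Dm (N + 1) q l := by
    rw [det_Cm q hm hL, map_sum]
    have e1 : ∀ l ∈ Fintype.piFinset (fun i => Ico (lof N m i) (upf N m (K + 1) i)),
        coeff K (C (Dm (N + 1) q l) * X ^ (∑ i, l i)) =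
          if ∑ i, l i = K then Dm (N + 1) q l else 0 := by
      intro l _
      rw [coeff_C_mul_X_pow]
      by_cases hj : K = ∑ i, l i
      · rw [if_pos hj, if_pos hj.symm]
      · rw [if_neg hj, if_neg (fun h' => hj h'.symm)]
    rw [Finset.sum_congr rfl e1, ← Finset.sum_filter]
    refine Finset.sum_congr ?_ fun _ _ => rfl
    ext l
    simp only [mem_filter, Fintype.mem_piFinset, mem_Ico, mem_range]
    constructor
    · rintro ⟨ha, hb⟩
      refine ⟨fun i => ?_, fun i => ⟨?_, ?_⟩, hb⟩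
      · have : l i ≤ ∑ i, l i := Finset.single_le_sum (fun _ _ => Nat.zero_le _) (mem_univ i)
        omega
      · have := (ha i.castSucc).2
        rw [upf_cast] at this
        omega
      · have := (ha i.succ).1
        rw [lof_succ] at this
        omega
    · rintro ⟨ha, hb, hc⟩
      refine ⟨fun i => ⟨?_, ?_⟩, hc⟩
      · refine Fin.cases ?_ (fun a => ?_) i
        · rw [lof_zero]; exact Nat.zero_le _
        · rw [lof_succ]
          exact (hb a).2
      · refine Fin.lastCases ?_ (fun a => ?_) i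
        · rw [upf_last]; exact ha _
        · rw [upf_cast]
          exact Nat.lt_succ_of_le (hb a).1
  rw [← h3, ← h1, h2]

end Pool.Agent.R178.HC.Pieri
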