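import Pool.Agent.R178.HC.Ext

set_option autoImplicit false

/-! S_strip: `up (k+1) = up k + down (k+1)`. -/

namespace Pool.Agent.R178.HC

open PowerSeries Finset Pool.Agent.R153.Sp

/-- a diagram from row lengths -/
theorem exists_rows (f : ℕ → ℕ) (hf : ∀ i, f (i + 1) ≤ f i) (N : ℕ) (hN : f N = 0) :
    ∃ μ : YoungDiagram, (∀ i, μ.rowLen i = f i) ∧ μ.card = ∑ i ∈ range N, f i := by
  have hanti : ∀ i j, i ≤ j → f j ≤ f i := by
    intro i j hij
    induction j, hij using Nat.le_induction with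
    | base => exact le_rfl
    | succ k _ ih => exact le_trans (hf k) ih
  let m : Fin N → ℕ := fun i => f (N - 1 - i) + i
  have hm : StrictMono m := by
    intro i j hij
    have h1 : (i : ℕ) < j := hij
    have := hanti (N - 1 - j) (N - 1 - i) (by omega)
    simp only [m]
    omega
  have hrow : ∀ i, (ofm m hm).rowLen i = f i := by
    intro i
    by_cases hi : i < N
    · rw [rowLen_ofm hi]
      simp only [m]
      have e : N - 1 - (N - 1 - i) = i := by omega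
      rw [e]; omega
    · rw [rowLen_zero (le_trans colLen_ofm (by omega))]
      have := hanti N i (by omega)
      omega
  refine ⟨ofm m hm, hrow, ?_⟩
  rw [card_eq_sum colLen_ofm]
  exact sum_congr rfl (fun i _ => hrow i)

theorem card_eq_of_rows {μ : YoungDiagram} {f : ℕ → ℕ} {N : ℕ} (h : ∀ i, μ.rowLen i = f i)
    (hN : f N = 0) : μ.card = ∑ i ∈ range N, f i := by
  rw [card_eq_sum (colLen_le_iff.2 (by rw [h, hN]))]
  exact sum_congr rfl (fun i _ => h i)

open Classical in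
/-- the diagram with row lengths `f` -/
noncomputable def mkR (f : ℕ → ℕ) : YoungDiagram :=
  if h : (∀ i, f (i + 1) ≤ f i) ∧ ∃ N, f N = 0 then
    Classical.choose (exists_rows f h.1 h.2.choose h.2.choose_spec) else ⊥

theorem rowLen_mkR (f : ℕ → ℕ) (h : ∀ i, f (i + 1) ≤ f i) (N : ℕ) (hN : f N = 0) (i : ℕ) :
    (mkR f).rowLen i = f i := by
  have h' : (∀ i, f (i + 1) ≤ f i) ∧ ∃ N, f N = 0 := ⟨h, N, hN⟩
  unfold mkR
  rw [dif_pos h']
  exact (Classical.choose_spec (exists_rows f h'.1 h'.2.choose h'.2.choose_spec)).1 i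

theorem rowLen_succ_le (μ : YoungDiagram) (i : ℕ) : μ.rowLen (i + 1) ≤ μ.rowLen i :=
  μ.rowLen_anti _ _ (Nat.le_succ i)

/-- remove a cell of the first row -/
def dn1 (μ : YoungDiagram) (i : ℕ) : ℕ := if i = 0 then μ.rowLen 0 - 1 else μ.rowLen i

/-- add a cell to the first row -/
def up1 (μ : YoungDiagram) (i : ℕ) : ℕ := if i = 0 then μ.rowLen 0 + 1 else μ.rowLen i

/-- from a strip above `ν` to a strip below `ν` -/
def dn2 (ν μ : YoungDiagram) (i : ℕ) : ℕ := ν.rowLen i - (μ.rowLen (i + 1) - ν.rowLen (i + 1))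

/-- from a strip below `ν` to a strip above `ν` -/
def up2 (ν κ : YoungDiagram) (i : ℕ) : ℕ :=
  if i = 0 then ν.rowLen 0 else ν.rowLen i + ν.rowLen (i - 1) - κ.rowLen (i - 1)

theorem dn1_zero (μ : YoungDiagram) : dn1 μ 0 = μ.rowLen 0 - 1 := by simp [dn1]
theorem dn1_succ (μ : YoungDiagram) (i : ℕ) : dn1 μ (i + 1) = μ.rowLen (i + 1) := by simp [dn1]
theorem up1_zero (μ : YoungDiagram) : up1 μ 0 = μ.rowLen 0 + 1 := by simp [up1]
theorem up1_succ (μ : YoungDiagram) (i : ℕ) : up1 μ (i + 1) = μ.rowLen (i + 1) := by simp [up1]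
theorem up2_zero (ν κ : YoungDiagram) : up2 ν κ 0 = ν.rowLen 0 := by simp [up2]
theorem up2_succ (ν κ : YoungDiagram) (i : ℕ) :
    up2 ν κ (i + 1) = ν.rowLen (i + 1) + ν.rowLen i - κ.rowLen i := by simp [up2]

theorem dn1_anti {μ ν : YoungDiagram} (h0 : ν.rowLen 0 < μ.rowLen 0) (hH : HS μ ν) (i : ℕ) :
    dn1 μ (i + 1) ≤ dn1 μ i := by
  have h2 := (HS_iff.1 hH 0).2
  rcases i with _ | i
  · rw [dn1_zero, dn1_succ]; omega
  · rw [dn1_succ, dn1_succ]; exact rowLen_succ_le μ _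

theorem up1_anti (μ : YoungDiagram) (i : ℕ) : up1 μ (i + 1) ≤ up1 μ i := by
  rcases i with _ | i
  · rw [up1_zero, up1_succ]; have := rowLen_succ_le μ 0; omega
  · rw [up1_succ, up1_succ]; exact rowLen_succ_le μ _

theorem dn2_anti {ν μ : YoungDiagram} (hH : HS μ ν) (i : ℕ) : dn2 ν μ (i + 1) ≤ dn2 ν μ i := by
  have a1 := HS_iff.1 hH i
  have a2 := HS_iff.1 hH (i + 1)
  unfold dn2
  omega

theorem up2_anti {ν κ : YoungDiagram} (hH : HS ν κ) (i : ℕ) : up2 ν κ (i + 1) ≤ up2 ν κ i := by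
  have a1 := HS_iff.1 hH i
  rcases i with _ | i
  · rw [up2_zero, up2_succ]; omega
  · have a2 := HS_iff.1 hH (i + 1)
    have a3 := HS_iff.1 hH i
    rw [up2_succ, up2_succ]; omega

theorem dn1_z (μ : YoungDiagram) : dn1 μ (μ.colLen 0 + 1) = 0 := by
  rw [dn1_succ]; exact rowLen_zero (by omega)

theorem up1_z (μ : YoungDiagram) : up1 μ (μ.colLen 0 + 1) = 0 := by
  rw [up1_succ]; exact rowLen_zero (by omega)

theorem dn2_z (ν μ : YoungDiagram) : dn2 ν μ (ν.colLen 0) = 0 := by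
  unfold dn2
  rw [rowLen_zero (μ := ν) (i := ν.colLen 0) le_rfl]
  omega

theorem up2_z (ν κ : YoungDiagram) : up2 ν κ (ν.colLen 0 + 1) = 0 := by
  rw [up2_succ, rowLen_zero (μ := ν) (i := ν.colLen 0 + 1) (by omega),
    rowLen_zero (μ := ν) (i := ν.colLen 0) le_rfl]
  omega

theorem row_dn1 {μ ν : YoungDiagram} (h0 : ν.rowLen 0 < μ.rowLen 0) (hH : HS μ ν) (i : ℕ) :
    (mkR (dn1 μ)).rowLen i = dn1 μ i := rowLen_mkR (dn1 μ) (dn1_anti h0 hH) _ (dn1_z μ) i

theorem row_up1 (μ : YoungDiagram) (i : ℕ) : (mkR (up1 μ)).rowLen i = up1 μ i :=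
  rowLen_mkR (up1 μ) (up1_anti μ) _ (up1_z μ) i

theorem row_dn2 {μ ν : YoungDiagram} (hH : HS μ ν) (i : ℕ) :
    (mkR (dn2 ν μ)).rowLen i = dn2 ν μ i := rowLen_mkR (dn2 ν μ) (dn2_anti hH) _ (dn2_z ν μ) i

theorem row_up2 {ν κ : YoungDiagram} (hH : HS ν κ) (i : ℕ) :
    (mkR (up2 ν κ)).rowLen i = up2 ν κ i := rowLen_mkR (up2 ν κ) (up2_anti hH) _ (up2_z ν κ) i

theorem card_dn1 {μ ν : YoungDiagram} (h0 : ν.rowLen 0 < μ.rowLen 0) (hH : HS μ ν) :
    (mkR (dn1 μ)).card + 1 = μ.card := by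
  have e1 := card_eq_of_rows (row_dn1 h0 hH) (dn1_z μ)
  have e2 := card_eq_sum (μ := μ) (N := μ.colLen 0 + 1) (by omega)
  rw [sum_range_succ'] at e1 e2
  simp only [dn1_zero, dn1_succ] at e1
  omega

theorem card_up1 (μ : YoungDiagram) : (mkR (up1 μ)).card = μ.card + 1 := by
  have e1 := card_eq_of_rows (row_up1 μ) (up1_z μ)
  have e2 := card_eq_sum (μ := μ) (N := μ.colLen 0 + 1) (by omega)
  rw [sum_range_succ'] at e1 e2
  simp only [up1_zero, up1_succ] at e1
  omega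

theorem HS_dn1 {μ ν : YoungDiagram} (h0 : ν.rowLen 0 < μ.rowLen 0) (hH : HS μ ν) :
    HS (mkR (dn1 μ)) ν := by
  rw [HS_iff]
  intro i
  have h3 := HS_iff.1 hH i
  rw [row_dn1 h0 hH, row_dn1 h0 hH]
  rcases i with _ | i
  · rw [dn1_zero, dn1_succ]; exact ⟨by omega, h3.2⟩
  · rw [dn1_succ, dn1_succ]; exact h3

theorem HS_up1 {μ ν : YoungDiagram} (hH : HS μ ν) : HS (mkR (up1 μ)) ν := by
  rw [HS_iff]
  intro i
  have h3 := HS_iff.1 hH i
  rw [row_up1, row_up1]
  rcases i with _ | i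
  · rw [up1_zero, up1_succ]; exact ⟨by omega, h3.2⟩
  · rw [up1_succ, up1_succ]; exact h3

theorem HS_dn2 {μ ν : YoungDiagram} (hH : HS μ ν) : HS ν (mkR (dn2 ν μ)) := by
  rw [HS_iff]
  intro i
  have a1 := HS_iff.1 hH i
  have a2 := HS_iff.1 hH (i + 1)
  rw [row_dn2 hH]
  unfold dn2
  omega

theorem HS_up2 {ν κ : YoungDiagram} (hH : HS ν κ) : HS (mkR (up2 ν κ)) ν := by
  rw [HS_iff]
  intro i
  have a1 := HS_iff.1 hH i
  rw [row_up2 hH, row_up2 hH]
  rcases i with _ | i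
  · rw [up2_zero, up2_succ]; omega
  · have a3 := HS_iff.1 hH i
    rw [up2_succ, up2_succ]; omega

theorem card_dn2 {μ ν : YoungDiagram} (hH : HS μ ν) (h0 : ¬ ν.rowLen 0 < μ.rowLen 0) :
    (mkR (dn2 ν μ)).card + μ.card = 2 * ν.card := by
  have e1 := card_eq_of_rows (row_dn2 hH) (dn2_z ν μ)
  have e2 := card_eq_sum (μ := μ) (N := ν.colLen 0 + 1) (HS_colLen hH le_rfl)
  have e3 := card_eq_sum (μ := ν) (N := ν.colLen 0) le_rfl
  have e4 := card_eq_sum (μ := ν) (N := ν.colLen 0 + 1) (by omega)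
  rw [sum_range_succ'] at e2 e4
  have h00 := (HS_iff.1 hH 0).1
  have e5 : ∑ i ∈ range (ν.colLen 0), dn2 ν μ i +
      ∑ i ∈ range (ν.colLen 0), μ.rowLen (i + 1) =
      ∑ i ∈ range (ν.colLen 0), ν.rowLen i + ∑ i ∈ range (ν.colLen 0), ν.rowLen (i + 1) := by
    rw [← sum_add_distrib, ← sum_add_distrib]
    apply sum_congr rfl
    intro i _
    have a1 := HS_iff.1 hH i
    have a2 := HS_iff.1 hH (i + 1)
    unfold dn2
    omega
  omega

theorem card_up2 {ν κ : YoungDiagram} (hH : HS ν κ) :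
    (mkR (up2 ν κ)).card + κ.card = 2 * ν.card := by
  have e1 := card_eq_of_rows (row_up2 hH) (up2_z ν κ)
  rw [sum_range_succ'] at e1
  simp only [up2_zero, up2_succ] at e1
  have e3 := card_eq_sum (μ := ν) (N := ν.colLen 0) le_rfl
  have e4 := card_eq_sum (μ := ν) (N := ν.colLen 0 + 1) (by omega)
  have e6 := card_eq_sum (μ := κ) (N := ν.colLen 0) (colLen_mono hH.1 0)
  rw [sum_range_succ'] at e4
  have e5 : ∑ i ∈ range (ν.colLen 0), (ν.rowLen (i + 1) + ν.rowLen i - κ.rowLen i) +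
      ∑ i ∈ range (ν.colLen 0), κ.rowLen i =
      ∑ i ∈ range (ν.colLen 0), ν.rowLen (i + 1) + ∑ i ∈ range (ν.colLen 0), ν.rowLen i := by
    rw [← sum_add_distrib, ← sum_add_distrib]
    apply sum_congr rfl
    intro i _
    have a1 := HS_iff.1 hH i
    omega
  omega

theorem up1_dn1 {μ ν : YoungDiagram} (h0 : ν.rowLen 0 < μ.rowLen 0) (hH : HS μ ν) :
    mkR (up1 (mkR (dn1 μ))) = μ := by
  apply ext_rowLen
  intro i
  rw [row_up1]
  rcases i with _ | i
  · rw [up1_zero, row_dn1 h0 hH, dn1_zero]; omega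
  · rw [up1_succ, row_dn1 h0 hH, dn1_succ]

theorem dn1_up1 {μ ν : YoungDiagram} (hH : HS μ ν) : mkR (dn1 (mkR (up1 μ))) = μ := by
  have h0 : ν.rowLen 0 < (mkR (up1 μ)).rowLen 0 := by
    rw [row_up1, up1_zero]
    have := (HS_iff.1 hH 0).1
    omega
  apply ext_rowLen
  intro i
  rw [row_dn1 h0 (HS_up1 hH)]
  rcases i with _ | i
  · rw [dn1_zero, row_up1, up1_zero]; omega
  · rw [dn1_succ, row_up1, up1_succ]

theorem up2_dn2 {μ ν : YoungDiagram} (hH : HS μ ν) (h0 : ¬ ν.rowLen 0 < μ.rowLen 0) :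
    mkR (up2 ν (mkR (dn2 ν μ))) = μ := by
  apply ext_rowLen
  intro i
  rw [row_up2 (HS_dn2 hH)]
  rcases i with _ | i
  · rw [up2_zero]
    have := (HS_iff.1 hH 0).1
    omega
  · rw [up2_succ, row_dn2 hH]
    have a1 := HS_iff.1 hH i
    have a2 := HS_iff.1 hH (i + 1)
    unfold dn2
    omega

theorem dn2_up2 {ν κ : YoungDiagram} (hH : HS ν κ) : mkR (dn2 ν (mkR (up2 ν κ))) = κ := by
  apply ext_rowLen
  intro i
  rw [row_dn2 (HS_up2 hH)]
  unfold dn2
  rw [row_up2 hH, up2_succ]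
  have a1 := HS_iff.1 hH i
  omega

theorem strip : Stm.S_strip := by
  classical
  intro ν k
  unfold Us Ud
  simp only [sum_const, nsmul_eq_mul, mul_one]
  set A := (diagrams (ν.card + (k + 1))).filter (fun l => HS l ν) with hA
  have hsplit : A.card = (A.filter (fun μ => ν.rowLen 0 < μ.rowLen 0)).card +
      (A.filter (fun μ => ¬ ν.rowLen 0 < μ.rowLen 0)).card :=
    (Finset.card_filter_add_card_filter_not _).symm
  -- first part
  have h1 : (A.filter (fun μ => ν.rowLen 0 < μ.rowLen 0)).card =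
      ((diagrams (ν.card + k)).filter (fun l => HS l ν)).card := by
    apply Finset.card_nbij' (fun μ => mkR (dn1 μ)) (fun μ => mkR (up1 μ))
    · intro μ hμ
      rw [Finset.mem_coe, mem_filter, hA, mem_filter, mem_diagrams] at hμ
      obtain ⟨⟨hc, hH⟩, h0⟩ := hμ
      rw [Finset.mem_coe, mem_filter, mem_diagrams]
      have := card_dn1 h0 hH
      change (mkR (dn1 μ)).card = ν.card + k ∧ HS (mkR (dn1 μ)) ν
      exact ⟨by omega, HS_dn1 h0 hH⟩
    · intro μ hμ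
      rw [Finset.mem_coe, mem_filter, mem_diagrams] at hμ
      obtain ⟨hc, hH⟩ := hμ
      rw [Finset.mem_coe, mem_filter, hA, mem_filter, mem_diagrams]
      have := card_up1 μ
      change ((mkR (up1 μ)).card = ν.card + (k + 1) ∧ HS (mkR (up1 μ)) ν) ∧
        ν.rowLen 0 < (mkR (up1 μ)).rowLen 0
      refine ⟨⟨by omega, HS_up1 hH⟩, ?_⟩
      rw [row_up1, up1_zero]
      have := (HS_iff.1 hH 0).1
      omega
    · intro μ hμ
      rw [Finset.mem_coe, mem_filter, hA, mem_filter, mem_diagrams] at hμ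
      obtain ⟨⟨hc, hH⟩, h0⟩ := hμ
      exact up1_dn1 h0 hH
    · intro μ hμ
      rw [Finset.mem_coe, mem_filter, mem_diagrams] at hμ
      exact dn1_up1 hμ.2
  -- second part
  have h2 : ((A.filter (fun μ => ¬ ν.rowLen 0 < μ.rowLen 0)).card : ℝ) =
      if k + 1 ≤ ν.card then
        (((diagrams (ν.card - (k + 1))).filter (fun l => HS ν l)).card : ℝ) else 0 := by
    split_ifs with hk
    · congr 1
      apply Finset.card_nbij' (fun μ => mkR (dn2 ν μ)) (fun κ => mkR (up2 ν κ))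
      · intro μ hμ
        rw [Finset.mem_coe, mem_filter, hA, mem_filter, mem_diagrams] at hμ
        obtain ⟨⟨hc, hH⟩, h0⟩ := hμ
        rw [Finset.mem_coe, mem_filter, mem_diagrams]
        have := card_dn2 hH h0
        change (mkR (dn2 ν μ)).card = ν.card - (k + 1) ∧ HS ν (mkR (dn2 ν μ))
        exact ⟨by omega, HS_dn2 hH⟩
      · intro κ hκ
        rw [Finset.mem_coe, mem_filter, mem_diagrams] at hκ
        obtain ⟨hc, hH⟩ := hκ
        rw [Finset.mem_coe, mem_filter, hA, mem_filter, mem_diagrams]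
        have := card_up2 hH
        change ((mkR (up2 ν κ)).card = ν.card + (k + 1) ∧ HS (mkR (up2 ν κ)) ν) ∧
          ¬ ν.rowLen 0 < (mkR (up2 ν κ)).rowLen 0
        refine ⟨⟨by omega, HS_up2 hH⟩, ?_⟩
        rw [row_up2 hH, up2_zero]
        omega
      · intro μ hμ
        rw [Finset.mem_coe, mem_filter, hA, mem_filter, mem_diagrams] at hμ
        obtain ⟨⟨hc, hH⟩, h0⟩ := hμ
        exact up2_dn2 hH h0
      · intro κ hκ
        rw [Finset.mem_coe, mem_filter, mem_diagrams] at hκ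
        exact dn2_up2 hκ.2
    · rw [Nat.cast_eq_zero, Finset.card_eq_zero, Finset.filter_eq_empty_iff]
      intro μ hμ h0
      rw [hA, mem_filter, mem_diagrams] at hμ
      have := card_dn2 hμ.2 h0
      omega
  rw [hsplit, h1]
  push_cast
  rw [h2]

end Pool.Agent.R178.HC
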