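import Pool.Agent.R178.HC.Rec
import Pool.Agent.R178.HC.Hook
import Pool.Agent.R178.HC.Det
import Pool.Agent.R178.HC.Pieri
import Pool.Agent.R178.HC.StripCount

set_option autoImplicit false

/-! Common part of the two final theorems: binomial powers with polynomial exponents. -/

namespace Pool.Agent.R178.HC

open Finset Pool.Agent.R153.Sp

/-- the binomial coefficient `a (a - 1) ⋯ (a - m + 1) / m!` of a polynomial `a` in the variable `t` -/
noncomputable def chs (a : Polynomial ℚ) (m : ℕ) : Polynomial ℚ :=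
  Polynomial.C ((m.factorial : ℚ)⁻¹) * ∏ i ∈ range m, (a - (i : Polynomial ℚ))

/-- `(1 - x ^ k) ^ a = ∑ m, (a choose m) (- x ^ k) ^ m` for `a : ℚ[t]` -/
noncomputable def pw (k : ℕ) (a : Polynomial ℚ) : PowerSeries (Polynomial ℚ) :=
  PowerSeries.mk fun n => if k ∣ n then chs a (n / k) * (-1) ^ (n / k) else 0

theorem hrecO : Stm.S_recO :=
  Rec.recO (T1 HookP.hook_sp det_sp HookP.hook_O det_O)
    (T2O Pieri.pieri HookP.hook_sp det_sp HookP.hook_O det_O)
    (T4O (T2sp Pieri.pieri HookP.hook_sp det_sp)) strip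

theorem hrecS : Stm.S_recS :=
  Rec.recS (T1sp HookP.hook_sp det_sp) (T2sp Pieri.pieri HookP.hook_sp det_sp)
    (T4sp (T2O Pieri.pieri HookP.hook_sp det_sp HookP.hook_O det_O))

/-- evaluation of the coefficients at a real number -/
noncomputable def evt (t : ℝ) : PowerSeries (Polynomial ℚ) →+* PowerSeries ℝ :=
  PowerSeries.map (Polynomial.aeval t : Polynomial ℚ →ₐ[ℚ] ℝ).toRingHom

theorem coeff_evt (t : ℝ) (f : PowerSeries (Polynomial ℚ)) (n : ℕ) :
    PowerSeries.coeff n (evt t f) = Polynomial.aeval t (PowerSeries.coeff n f) := by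
  unfold evt
  rw [PowerSeries.coeff_map]
  rfl

/-- `(1 - x ^ k) ^ r` for a real `r` -/
noncomputable def rp (k : ℕ) (r : ℝ) : PowerSeries ℝ :=
  PowerSeries.mk fun n => if k ∣ n then b (-r) (n / k) else 0

theorem evt_pw (t : ℝ) (k : ℕ) (a : Polynomial ℚ) :
    evt t (pw k a) = rp k (Polynomial.aeval t a) := by
  ext n
  rw [coeff_evt]
  unfold pw rp chs b
  rw [PowerSeries.coeff_mk, PowerSeries.coeff_mk]
  split_ifs with h
  · rw [map_mul, map_mul, Polynomial.aeval_C, map_prod, map_pow]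
    simp only [map_sub, map_natCast, map_neg, map_one]
    have : ∏ i ∈ range (n / k), (-(Polynomial.aeval t a) + (i : ℝ)) =
        (-1) ^ (n / k) * ∏ i ∈ range (n / k), ((Polynomial.aeval t a) - (i : ℝ)) := by
      rw [← card_range (n / k), ← prod_const, card_range, ← prod_mul_distrib]
      exact prod_congr rfl (fun i _ => by ring)
    rw [this, map_inv₀, map_natCast]
    rw [div_eq_mul_inv]
    ring
  · simp

theorem rp_eq {k : ℕ} (hk : k ≠ 0) (r : ℝ) : rp k r = PowerSeries.expand k hk (bs (-r)) := by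
  ext n
  rw [PowerSeries.expand_apply, PowerSeries.coeff_subst_X_pow hk]
  unfold rp
  rw [PowerSeries.coeff_mk]
  split_ifs with h
  · rw [coeff_bs]; rfl
  · rfl

theorem bs_add_nat (s : ℝ) (n : ℕ) : bs s = bs (s + n) * (1 - PowerSeries.X) ^ n := by
  induction n with
  | zero => simp
  | succ n ih =>
    rw [ih, pow_succ', ← mul_assoc]
    congr 1
    have := Rec.bs_succ (s + n)
    rw [← this]
    push_cast
    ring_nf

theorem one_sub_X_pow_ne (n : ℕ) : ((1 - PowerSeries.X : PowerSeries ℝ)) ^ n ≠ 0 := by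
  intro h
  have := congrArg PowerSeries.constantCoeff h
  simp at this

/-- additivity in the exponent for integer steps -/
theorem bs_add_int (s : ℝ) (m : ℤ) : bs (s + m) = bs s * bs m := by
  obtain ⟨n, rfl | rfl⟩ := m.eq_nat_or_neg
  · have h1 := bs_add_nat s n
    have h2 := Rec.bs_nat n
    have : bs s * bs (n : ℝ) = bs (s + n) := by
      rw [h1, mul_assoc, mul_comm ((1 - PowerSeries.X) ^ n) (bs _), h2, mul_one]
    push_cast
    rw [this]
  · have h1 := bs_add_nat (s + (-(n : ℝ))) n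
    have h2 := Rec.bs_neg n
    push_cast
    rw [h1, h2]
    congr 2
    ring

theorem rp_add_int {k : ℕ} (hk : k ≠ 0) (r : ℝ) (m : ℤ) : rp k (r + m) = rp k r * rp k m := by
  rw [rp_eq hk, rp_eq hk, rp_eq hk, ← map_mul]
  congr 1
  have : -(r + (m : ℝ)) = -r + ((-m : ℤ) : ℝ) := by push_cast; ring
  rw [this, bs_add_int]
  push_cast
  rfl

theorem rp_nat {k : ℕ} (hk : k ≠ 0) (n : ℕ) : rp k (n : ℝ) = (1 - PowerSeries.X ^ k) ^ n := by
  rw [rp_eq hk, Rec.bs_neg]
  rw [map_pow, map_sub, map_one, PowerSeries.expand_X]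

theorem rp_neg_mul {k : ℕ} (hk : k ≠ 0) (n : ℕ) :
    rp k (-(n : ℝ)) * (1 - PowerSeries.X ^ k) ^ n = 1 := by
  rw [rp_eq hk, neg_neg]
  have := congrArg (PowerSeries.expand k hk) (Rec.bs_nat n)
  rw [map_mul, map_pow, map_sub, map_one, PowerSeries.expand_X] at this
  exact this

/-- two polynomials in `t` that agree at infinitely many reals -/
theorem poly_eq_of_infinite {p q : Polynomial ℚ} {s : Set ℝ} (hs : s.Infinite)
    (h : ∀ t ∈ s, Polynomial.aeval t p = Polynomial.aeval t q) : p = q := by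
  have hinj : Function.Injective (Polynomial.map (algebraMap ℚ ℝ)) :=
    Polynomial.map_injective _ (algebraMap ℚ ℝ).injective
  apply hinj
  apply Polynomial.eq_of_infinite_eval_eq
  apply hs.mono
  intro t ht
  rw [Set.mem_ofPred_eq, Polynomial.eval_map_algebraMap, Polynomial.eval_map_algebraMap]
  exact h t ht

end Pool.Agent.R178.HC
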