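import Pool.Agent.R178.HC.StmFin
import Pool.Agent.R178.HC.BaseO

set_option autoImplicit false

/-! HC-6b (helper711): the final theorem of MP_67fd2b_co. -/

namespace Pool.Agent.R178.HC.Fin67

open PowerSeries Finset Pool.Agent.R153.Sp Pool.Agent.R178.HC

/-- number of partitions of `n` into parts `≡ 2 mod 4` -/
noncomputable def rr (n : ℕ) : ℚ := ((Nat.Partition.restricted n (fun x => x % 4 = 2)).card : ℚ)

open scoped PowerSeries.WithPiTopology in
theorem hasProd_rr : HasProd (fun j : ℕ => ((1 - X ^ (4 * (j + 1) - 2))⁻¹ : PowerSeries ℚ))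
    (PowerSeries.mk rr) := by
  have h := Nat.Partition.hasProd_powerSeriesMk_card_restricted ℚ (fun x => x % 4 = 2)
  have hinj : Function.Injective (fun j : ℕ => 4 * j + 1) := fun a b hab => by
    simp only at hab; omega
  rw [← Function.Injective.hasProd_iff hinj] at h
  · have e : (fun j : ℕ => ((1 - X ^ (4 * (j + 1) - 2))⁻¹ : PowerSeries ℚ)) =
        ((fun i : ℕ => if (i + 1) % 4 = 2 then ∑' k : ℕ, (X : PowerSeries ℚ) ^ ((i + 1) * k)
          else 1) ∘ fun j => 4 * j + 1) := by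
      ext1 j
      simp only [Function.comp]
      rw [if_pos (by omega)]
      have e1 : 4 * (j + 1) - 2 = 4 * j + 1 + 1 := by omega
      rw [e1]
      have h1 : PowerSeries.constantCoeff (X ^ (4 * j + 1 + 1) : PowerSeries ℚ) = 0 := by simp
      have h2 := PowerSeries.WithPiTopology.tsum_pow_mul_one_sub_of_constantCoeff_eq_zero h1
      have h3 : (∑' k : ℕ, (X : PowerSeries ℚ) ^ ((4 * j + 1 + 1) * k)) =
          ∑' k : ℕ, (X ^ (4 * j + 1 + 1)) ^ k := by
        simp only [pow_mul]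
      have h4 : PowerSeries.constantCoeff (1 - X ^ (4 * j + 1 + 1) : PowerSeries ℚ) ≠ 0 := by
        simp
      rw [h3, PowerSeries.inv_eq_iff_mul_eq_one h4, h2]
    rw [e]
    exact h
  · intro x hx
    rw [if_neg]
    intro hcon
    apply hx
    exact ⟨x / 4, by simp only; omega⟩

theorem rr_mul (n K : ℕ) (h : n < 4 * K + 2) :
    coeff n (PowerSeries.mk rr * ∏ k ∈ range K, (1 - X ^ (4 * (k + 1) - 2) : PowerSeries ℚ)) =
      coeff n (1 : PowerSeries ℚ) := by
  have hne : ∀ k, constantCoeff (1 - X ^ (4 * (k + 1) - 2) : PowerSeries ℚ) ≠ 0 := by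
    intro k
    rw [map_sub, map_one, map_pow, constantCoeff_X, zero_pow (by omega), sub_zero]
    exact one_ne_zero
  have hfac : ∀ m, m ≤ n → coeff m (PowerSeries.mk rr) =
      coeff m (∏ k ∈ range K, (1 - X ^ (4 * (k + 1) - 2) : PowerSeries ℚ)⁻¹) := by
    intro m hm
    apply coeff_of_hasProd hasProd_rr
    intro k hk
    have h1 : (1 - X ^ (4 * (k + 1) - 2) : PowerSeries ℚ)⁻¹ - 1 =
        X ^ (4 * (k + 1) - 2) * (1 - X ^ (4 * (k + 1) - 2) : PowerSeries ℚ)⁻¹ := by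
      have h2 := PowerSeries.mul_inv_cancel _ (hne k)
      linear_combination h2
    rw [h1]
    exact Dvd.dvd.mul_right (pow_dvd_pow X (by omega)) _
  have h3 : (∏ k ∈ range K, (1 - X ^ (4 * (k + 1) - 2) : PowerSeries ℚ)⁻¹) *
      ∏ k ∈ range K, (1 - X ^ (4 * (k + 1) - 2) : PowerSeries ℚ) = 1 := by
    rw [← prod_mul_distrib]
    apply prod_eq_one
    intro k _
    exact PowerSeries.inv_mul_cancel _ (hne k)
  have h5 : coeff n (PowerSeries.mk rr * ∏ k ∈ range K,
        (1 - X ^ (4 * (k + 1) - 2) : PowerSeries ℚ)) =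
      coeff n ((∏ k ∈ range K, (1 - X ^ (4 * (k + 1) - 2) : PowerSeries ℚ)⁻¹) *
        ∏ k ∈ range K, (1 - X ^ (4 * (k + 1) - 2) : PowerSeries ℚ)) := by
    rw [coeff_mul, coeff_mul]
    apply sum_congr rfl
    intro p hp
    rw [Finset.HasAntidiagonal.mem_antidiagonal] at hp
    rw [hfac p.1 (by omega)]
  rw [h5, h3]

theorem GS_zero (n : ℕ) : coeff n (GS 0 0) = (rr n : ℝ) := by
  unfold GS
  rw [coeff_mk]
  have h : ∑ μ ∈ diagrams n, ∏ c ∈ μ.cells, (csp μ c / hook μ c) ^ 2 = rr n := sum_prod_sq n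
  rw [← h]
  push_cast
  apply sum_congr rfl
  intro μ _
  unfold Wsp
  rw [← prod_mul_distrib]
  apply prod_congr rfl
  intro c _
  rw [zero_add, sq]

theorem base_S (M : ℕ) :
    qm (M + 1) (GS 0 0 * ∏ k ∈ range M, (1 - X ^ (4 * (k + 1) - 2))) = 1 := by
  rw [← map_one (qm (M + 1)), qm_eq_iff]
  intro n hn
  have h2 := rr_mul n M (by omega)
  have h3 : GS 0 0 * ∏ k ∈ range M, (1 - X ^ (4 * (k + 1) - 2) : PowerSeries ℝ) =
      PowerSeries.map (algebraMap ℚ ℝ)
        (PowerSeries.mk rr * ∏ k ∈ range M, (1 - X ^ (4 * (k + 1) - 2))) := by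
    rw [map_mul, map_prod]
    congr 1
    · ext m
      rw [GS_zero, coeff_map, coeff_mk]
      rfl
    · apply prod_congr rfl
      intro k _
      rw [map_sub, map_one, map_pow, PowerSeries.map_X]
  rw [h3, coeff_map, h2, coeff_one, coeff_one]
  split_ifs <;> simp

theorem step_S (M N : ℕ) : qm (M + 1) (GS (N : ℝ) (-(N : ℝ))) =
    qm (M + 1) (GS 0 0) * qm (M + 1) (pr 1 1 M) ^ (N ^ 2) := by
  induction N with
  | zero => simp
  | succ N ih =>
    have h1 : qm (M + 1) (GS ((N : ℝ) + 1) (-((N : ℝ) + 1))) = qm (M + 1) (GS (N : ℝ) (-(N : ℝ)) *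
        ∏ j ∈ range (2 * (M + 1)), (1 - X ^ (j + 1)) ^ (2 * N + 1)) := by
      rw [qm_eq_iff]
      intro n hn
      exact hrecS N (M + 1) n (by omega)
    have h2 : (∏ j ∈ range (2 * (M + 1)), (1 - X ^ (j + 1) : PowerSeries ℝ) ^ (2 * N + 1)) =
        pr 1 1 (2 * (M + 1)) ^ (2 * N + 1) := by
      unfold pr
      rw [prod_pow]
      simp only [one_mul]
    have h3 : qm (M + 1) (pr 1 1 (2 * (M + 1))) = qm (M + 1) (pr 1 1 M) :=
      qm_pr (by omega) (by omega)
    push_cast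
    rw [h1, map_mul, h2, map_pow, h3, ih, mul_assoc, ← pow_add]
    congr 2
    ring

theorem at_nat (M N n : ℕ) (hn : n ≤ M) :
    coeff n (GS (N : ℝ) (-(N : ℝ)) * ∏ j ∈ range M,
      ((1 - X ^ (4 * (j + 1) - 2)) * rp (j + 1) (-(N : ℝ) ^ 2))) = coeff n (1 : PowerSeries ℝ) := by
  have key : qm (M + 1) (GS (N : ℝ) (-(N : ℝ)) * ∏ j ∈ range M,
      ((1 - X ^ (4 * (j + 1) - 2)) * rp (j + 1) (-(N : ℝ) ^ 2))) = qm (M + 1) 1 := by
    rw [map_mul, step_S, prod_mul_distrib]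
    have h1 : (∏ j ∈ range M, rp (j + 1) (-(N : ℝ) ^ 2)) * pr 1 1 M ^ (N ^ 2) = 1 := by
      unfold pr
      rw [← prod_pow, ← prod_mul_distrib]
      apply prod_eq_one
      intro j _
      have h := rp_neg_mul (Nat.succ_ne_zero j) (N ^ 2)
      push_cast at h
      rw [one_mul]
      exact h
    have h2 := congrArg (qm (M + 1)) h1
    rw [map_mul, map_pow, map_one] at h2
    have h3 := base_S M
    rw [map_mul] at h3
    rw [map_mul, map_one]
    calc qm (M + 1) (GS 0 0) * qm (M + 1) (pr 1 1 M) ^ N ^ 2 *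
        (qm (M + 1) (∏ i ∈ range M, (1 - X ^ (4 * (i + 1) - 2))) *
          qm (M + 1) (∏ i ∈ range M, rp (i + 1) (-(N : ℝ) ^ 2))) =
        (qm (M + 1) (GS 0 0) * qm (M + 1) (∏ i ∈ range M, (1 - X ^ (4 * (i + 1) - 2)))) *
        (qm (M + 1) (∏ i ∈ range M, rp (i + 1) (-(N : ℝ) ^ 2)) *
          qm (M + 1) (pr 1 1 M) ^ N ^ 2) := by ring
      _ = 1 := by rw [h3, h2, one_mul]
  rw [qm_eq_iff] at key
  exact key n (by omega)

theorem evt_Fsp (N : ℕ) : evt (-(N : ℝ) ^ 2) StmFin.Fsp = GS (N : ℝ) (-(N : ℝ)) := by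
  ext n
  rw [coeff_evt]
  unfold StmFin.Fsp GS
  rw [coeff_mk, coeff_mk, map_sum]
  apply sum_congr rfl
  intro μ _
  rw [map_prod]
  unfold Wsp
  rw [← prod_mul_distrib]
  apply prod_congr rfl
  intro c _
  rw [map_mul, map_add, Polynomial.aeval_X, Polynomial.aeval_C, Polynomial.aeval_C]
  simp only [eq_ratCast, Rat.cast_pow, Rat.cast_inv]
  rw [div_mul_div_comm, div_eq_mul_inv, ← sq]
  congr 1
  ring

theorem Fsp_eq_FO : StmFin.Fsp = StmFin.FO := by
  ext1 n
  unfold StmFin.Fsp StmFin.FO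
  rw [coeff_mk, coeff_mk]
  refine Finset.sum_bij' (fun μ _ => μ.transpose) (fun μ _ => μ.transpose) ?_ ?_ ?_ ?_ ?_
  · intro μ hμ; exact diagrams_transpose.2 hμ
  · intro μ hμ; exact diagrams_transpose.2 hμ
  · intro μ _; exact YoungDiagram.transpose_transpose μ
  · intro μ _; exact YoungDiagram.transpose_transpose μ
  · intro μ _
    rw [cells_transpose, prod_map]
    apply prod_congr rfl
    intro c _
    have e1 : cO μ.transpose ((Equiv.prodComm ℕ ℕ).toEmbedding c) = - csp μ c := by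
      have := cO_eq μ.transpose c.swap
      rw [YoungDiagram.transpose_transpose, Prod.swap_swap] at this
      exact this
    have e2 : hook μ.transpose ((Equiv.prodComm ℕ ℕ).toEmbedding c) = hook μ c :=
      hook_transpose μ c
    rw [e1, e2, neg_sq]

theorem inf_sq : {t : ℝ | ∃ N : ℕ, t = -(N : ℝ) ^ 2}.Infinite := by
  have hinj : Function.Injective (fun N : ℕ => -(N : ℝ) ^ 2) := by
    intro a b hab
    simp only [neg_inj] at hab
    have := (pow_left_inj₀ (Nat.cast_nonneg a) (Nat.cast_nonneg b) (two_ne_zero)).1 hab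
    exact_mod_cast this
  apply (Set.infinite_range_of_injective hinj).mono
  rintro _ ⟨N, rfl⟩
  exact ⟨N, rfl⟩

theorem final67 : StmFin.S_final67 := by
  refine ⟨Fsp_eq_FO, ?_⟩
  intro n M hn
  apply poly_eq_of_infinite inf_sq
  rintro t ⟨N, rfl⟩
  rw [← coeff_evt, map_mul, map_prod, evt_Fsp]
  have e : ∏ j ∈ range M, evt (-(N : ℝ) ^ 2) ((1 - X ^ (4 * (j + 1) - 2)) *
        pw (j + 1) Polynomial.X) = ∏ j ∈ range M,
      ((1 - X ^ (4 * (j + 1) - 2)) * rp (j + 1) (-(N : ℝ) ^ 2)) := by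
    apply prod_congr rfl
    intro j _
    rw [map_mul, evt_pw, Polynomial.aeval_X, map_sub, map_one, map_pow]
    unfold evt
    rw [PowerSeries.map_X]
  rw [e, at_nat M N n hn, coeff_one]
  split_ifs <;> simp

end Pool.Agent.R178.HC.Fin67
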