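import Pool.Agent.R178.HC.Fin

set_option autoImplicit false

/-! The orthogonal generating function at natural parameters. -/

namespace Pool.Agent.R178.HC

open PowerSeries Finset Pool.Agent.R153.Sp

/-- reduction modulo `X ^ K` -/
noncomputable def qm (K : ℕ) : PowerSeries ℝ →+* (PowerSeries ℝ ⧸ Ideal.span {(X : PowerSeries ℝ) ^ K}) :=
  Ideal.Quotient.mk _

theorem qm_eq_iff {K : ℕ} {A B : PowerSeries ℝ} :
    qm K A = qm K B ↔ ∀ n, n < K → coeff n A = coeff n B := by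
  unfold qm
  rw [Ideal.Quotient.eq, Ideal.mem_span_singleton, X_pow_dvd_iff]
  constructor
  · intro h n hn
    have := h n hn
    rw [map_sub, sub_eq_zero] at this
    exact this
  · intro h n hn
    rw [map_sub, h n hn, sub_self]

theorem qm_unit {K : ℕ} {A : PowerSeries ℝ} (h : constantCoeff A = 1) : IsUnit (qm K A) := by
  apply IsUnit.map
  rw [isUnit_iff_constantCoeff, h]
  exact isUnit_one

theorem qm_one_add {K k : ℕ} (h : K ≤ k) (A : PowerSeries ℝ) : qm K (1 + X ^ k * A) = 1 := by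
  rw [← map_one (qm K), qm_eq_iff]
  intro n hn
  rw [map_add, coeff_X_pow_mul', if_neg (by omega), add_zero]

theorem qm_one_sub {K k : ℕ} (h : K ≤ k) : qm K (1 - X ^ k) = 1 := by
  have := qm_one_add h (-1)
  rw [mul_neg, mul_one, ← sub_eq_add_neg] at this
  exact this

/-- `∏_{m<M} (1 - X^(a m + r))` -/
noncomputable def pr (a r M : ℕ) : PowerSeries ℝ := ∏ m ∈ range M, (1 - X ^ (a * m + r))

theorem constantCoeff_pr {a r M : ℕ} (hr : 1 ≤ r) : constantCoeff (pr a r M) = 1 := by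
  unfold pr
  rw [map_prod]
  apply prod_eq_one
  intro m _
  rw [map_sub, map_one, map_pow, constantCoeff_X, zero_pow (by omega), sub_zero]

theorem pr_split (r M : ℕ) : pr 4 r (2 * M) = pr 8 r M * pr 8 (r + 4) M := by
  unfold pr
  induction M with
  | zero => simp
  | succ M ih =>
    have : 2 * (M + 1) = 2 * M + 1 + 1 := by ring
    rw [this, prod_range_succ, prod_range_succ, ih, prod_range_succ, prod_range_succ]
    have e1 : 4 * (2 * M) + r = 8 * M + r := by ring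
    have e2 : 4 * (2 * M + 1) + r = 8 * M + (r + 4) := by ring
    rw [e1, e2]
    ring

theorem qm_pr {a r M M' : ℕ} (h : M ≤ M') {K : ℕ} (hK : K ≤ a * M + r) :
    qm K (pr a r M') = qm K (pr a r M) := by
  unfold pr
  induction M', h using Nat.le_induction with
  | base => rfl
  | succ n hn ih =>
    rw [prod_range_succ, map_mul, ih, qm_one_sub, mul_one]
    calc K ≤ a * M + r := hK
      _ ≤ a * n + r := by gcongr

/-- the factor `A_j` at a real number `s` -/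
noncomputable def Rj (s : ℝ) (j : ℕ) : PowerSeries ℝ :=
  rp (8 * j) (s * (s - 1) / 2) * rp (8 * j - 6) (1 - s * (s - 1) / 2) * rp (4 * j - 1) s *
    rp (4 * j - 3) (-s) * rp (8 * j - 4) (s * (s + 1) / 2 - 1) * rp (8 * j - 2) (1 - s * (s + 1) / 2)

theorem Rj_step (s : ℕ) (m : ℕ) :
    Rj ((s : ℝ) + 1) (m + 1) * ((1 - X ^ (8 * m + 2)) ^ s * (1 - X ^ (4 * m + 1)) *
      (1 - X ^ (8 * m + 6)) ^ (s + 1)) =
    Rj (s : ℝ) (m + 1) * ((1 - X ^ (8 * m + 8)) ^ s * (1 - X ^ (4 * m + 3)) *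
      (1 - X ^ (8 * m + 4)) ^ (s + 1)) := by
  unfold Rj
  have e8 : 8 * (m + 1) = 8 * m + 8 := by ring
  have e2 : 8 * (m + 1) - 6 = 8 * m + 2 := by omega
  have e3 : 4 * (m + 1) - 1 = 4 * m + 3 := by omega
  have e1 : 4 * (m + 1) - 3 = 4 * m + 1 := by omega
  have e4 : 8 * (m + 1) - 4 = 8 * m + 4 := by omega
  have e6 : 8 * (m + 1) - 2 = 8 * m + 6 := by omega
  rw [e2, e3, e1, e4, e6, e8]
  have k8 : 8 * m + 8 ≠ 0 := by omega
  have k2 : 8 * m + 2 ≠ 0 := by omega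
  have k3 : 4 * m + 3 ≠ 0 := by omega
  have k1 : 4 * m + 1 ≠ 0 := by omega
  have k4 : 8 * m + 4 ≠ 0 := by omega
  have k6 : 8 * m + 6 ≠ 0 := by omega
  have a8 : rp (8 * m + 8) (((s : ℝ) + 1) * ((s : ℝ) + 1 - 1) / 2) =
      rp (8 * m + 8) ((s : ℝ) * ((s : ℝ) - 1) / 2) * (1 - X ^ (8 * m + 8)) ^ s := by
    have : ((s : ℝ) + 1) * ((s : ℝ) + 1 - 1) / 2 = (s : ℝ) * ((s : ℝ) - 1) / 2 + ((s : ℤ) : ℝ) := by
      push_cast; ring
    rw [this, rp_add_int k8, Int.cast_natCast, rp_nat k8]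
  have a2 : rp (8 * m + 2) (1 - ((s : ℝ) + 1) * ((s : ℝ) + 1 - 1) / 2) * (1 - X ^ (8 * m + 2)) ^ s =
      rp (8 * m + 2) (1 - (s : ℝ) * ((s : ℝ) - 1) / 2) := by
    have : (1 - ((s : ℝ) + 1) * ((s : ℝ) + 1 - 1) / 2) =
        (1 - (s : ℝ) * ((s : ℝ) - 1) / 2) + ((-(s : ℤ) : ℤ) : ℝ) := by
      push_cast; ring
    rw [this, rp_add_int k2, mul_assoc]
    have h := rp_neg_mul k2 s
    push_cast at h ⊢
    rw [h, mul_one]
  have a3 : rp (4 * m + 3) ((s : ℝ) + 1) = rp (4 * m + 3) (s : ℝ) * (1 - X ^ (4 * m + 3)) := by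
    have : (s : ℝ) + 1 = (s : ℝ) + ((1 : ℤ) : ℝ) := by push_cast; ring
    rw [this, rp_add_int k3]
    have h := rp_nat k3 1
    rw [pow_one] at h
    push_cast at h ⊢
    rw [h]
  have a1 : rp (4 * m + 1) (-((s : ℝ) + 1)) * (1 - X ^ (4 * m + 1)) = rp (4 * m + 1) (-(s : ℝ)) := by
    have : -((s : ℝ) + 1) = -(s : ℝ) + ((-1 : ℤ) : ℝ) := by push_cast; ring
    rw [this, rp_add_int k1, mul_assoc]
    have h := rp_neg_mul k1 1
    rw [pow_one] at h
    push_cast at h ⊢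
    rw [h, mul_one]
  have a4 : rp (8 * m + 4) (((s : ℝ) + 1) * ((s : ℝ) + 1 + 1) / 2 - 1) =
      rp (8 * m + 4) ((s : ℝ) * ((s : ℝ) + 1) / 2 - 1) * (1 - X ^ (8 * m + 4)) ^ (s + 1) := by
    have : ((s : ℝ) + 1) * ((s : ℝ) + 1 + 1) / 2 - 1 =
        ((s : ℝ) * ((s : ℝ) + 1) / 2 - 1) + (((s + 1 : ℕ) : ℤ) : ℝ) := by
      push_cast; ring
    rw [this, rp_add_int k4, Int.cast_natCast, rp_nat k4]
  have a6 : rp (8 * m + 6) (1 - ((s : ℝ) + 1) * ((s : ℝ) + 1 + 1) / 2) *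
      (1 - X ^ (8 * m + 6)) ^ (s + 1) = rp (8 * m + 6) (1 - (s : ℝ) * ((s : ℝ) + 1) / 2) := by
    have : (1 - ((s : ℝ) + 1) * ((s : ℝ) + 1 + 1) / 2) =
        (1 - (s : ℝ) * ((s : ℝ) + 1) / 2) + ((-((s + 1 : ℕ) : ℤ) : ℤ) : ℝ) := by
      push_cast; ring
    rw [this, rp_add_int k6, mul_assoc]
    have h := rp_neg_mul k6 (s + 1)
    push_cast at h ⊢
    rw [h, mul_one]
  rw [← a2, ← a1, ← a6, a8, a3, a4]
  ring

/-- the partial product -/
noncomputable def PP (s : ℝ) (M : ℕ) : PowerSeries ℝ := ∏ m ∈ range M, Rj s (m + 1)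

theorem PP_step (s M : ℕ) :
    PP ((s : ℝ) + 1) M * (pr 8 2 M ^ s * pr 4 1 M * pr 8 6 M ^ (s + 1)) =
    PP (s : ℝ) M * (pr 8 8 M ^ s * pr 4 3 M * pr 8 4 M ^ (s + 1)) := by
  unfold PP pr
  rw [← prod_pow, ← prod_pow, ← prod_pow, ← prod_pow, ← prod_mul_distrib, ← prod_mul_distrib,
    ← prod_mul_distrib, ← prod_mul_distrib, ← prod_mul_distrib, ← prod_mul_distrib]
  exact prod_congr rfl (fun m _ => Rj_step s m)

theorem FO_step (s M : ℕ) (h : qm (4 * M) (FO (s : ℝ)) = qm (4 * M) (PP (s : ℝ) M)) :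
    qm (4 * M) (FO ((s : ℝ) + 1)) = qm (4 * M) (PP ((s : ℝ) + 1) M) := by
  set π := qm (4 * M) with hπ
  have hrec : π (FO ((s : ℝ) + 1) * ∏ m ∈ range M, ((1 - X ^ (4 * m + 1)) * (1 + X ^ (4 * m + 3)) *
      (1 - X ^ (4 * m + 2)) ^ s)) =
      π (FO (s : ℝ) * ∏ m ∈ range M, ((1 - X ^ (8 * m + 4)) * (1 - X ^ (4 * m + 4)) ^ s)) := by
    rw [hπ, qm_eq_iff]
    intro n hn
    exact hrecO s M n hn
  rw [prod_mul_distrib, prod_mul_distrib, prod_pow, prod_mul_distrib, prod_pow] at hrec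
  change π (FO ((s : ℝ) + 1) * (pr 4 1 M * (∏ m ∈ range M, (1 + X ^ (4 * m + 3))) * pr 4 2 M ^ s)) =
    π (FO (s : ℝ) * (pr 8 4 M * pr 4 4 M ^ s)) at hrec
  have h3 : (∏ m ∈ range M, (1 + X ^ (4 * m + 3) : PowerSeries ℝ)) * pr 4 3 M = pr 8 6 M := by
    unfold pr
    rw [← prod_mul_distrib]
    apply prod_congr rfl
    intro m _
    have : 8 * m + 6 = (4 * m + 3) + (4 * m + 3) := by ring
    rw [this, pow_add]
    ring
  have c2 : π (pr 4 2 M) = π (pr 8 2 M) * π (pr 8 6 M) := by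
    rw [← map_mul, ← pr_split 2 M, hπ]
    exact (qm_pr (by omega) (by omega)).symm
  have c4 : π (pr 4 4 M) = π (pr 8 4 M) * π (pr 8 8 M) := by
    rw [← map_mul, ← pr_split 4 M, hπ]
    exact (qm_pr (by omega) (by omega)).symm
  have hst := congrArg π (PP_step s M)
  simp only [map_mul, map_pow] at hst hrec
  have h3' := congrArg π h3
  rw [map_mul] at h3'
  rw [h, c2, c4] at hrec
  have u1 : IsUnit (π (pr 4 1 M)) := qm_unit (constantCoeff_pr le_rfl)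
  have u2 : IsUnit (π (pr 8 2 M)) := qm_unit (constantCoeff_pr (by omega))
  have u6 : IsUnit (π (pr 8 6 M)) := qm_unit (constantCoeff_pr (by omega))
  have hu : IsUnit (π (pr 8 2 M) ^ s * π (pr 4 1 M) * π (pr 8 6 M) ^ (s + 1)) :=
    ((u2.pow s).mul u1).mul (u6.pow (s + 1))
  apply hu.mul_right_cancel
  rw [hst]
  have : π (FO ((s : ℝ) + 1)) * (π (pr 8 2 M) ^ s * π (pr 4 1 M) * π (pr 8 6 M) ^ (s + 1)) =
      π (FO ((s : ℝ) + 1)) * (π (pr 4 1 M) * π (∏ m ∈ range M, (1 + X ^ (4 * m + 3))) *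
        (π (pr 8 2 M) * π (pr 8 6 M)) ^ s) * π (pr 4 3 M) := by
    rw [pow_succ, ← h3', mul_pow]
    ring
  rw [this, hrec]
  rw [mul_pow, pow_succ]
  ring

end Pool.Agent.R178.HC
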