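import Pool.Agent.R178.HC.Stm

set_option autoImplicit false

/-! HC-5a and HC-6a (helper711): the recursions `S_recO` and `S_recS` from the operator
identities. -/

namespace Pool.Agent.R178.HC.Rec

open PowerSeries Finset Pool.Agent.R153.Sp Pool.Agent.R178.HC Pool.Agent.R178.HC.Stm

/-! ### Evaluation of a sequence of power series at `X ^ a` -/

/-- `∑ k, X ^ (a k) G k`. -/
noncomputable def ev (a : ℕ) (G : ℕ → PowerSeries ℝ) : PowerSeries ℝ :=
  PowerSeries.mk fun n => ∑ k ∈ range (n + 1), coeff n (X ^ (a * k) * G k)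

lemma ev_dvd {a : ℕ} (ha : 1 ≤ a) (G : ℕ → PowerSeries ℝ) (K : ℕ) :
    (X : PowerSeries ℝ) ^ K ∣ ev a G - ∑ k ∈ range K, X ^ (a * k) * G k := by
  rw [X_pow_dvd_iff]
  intro m hm
  rw [map_sub, map_sum]
  unfold ev
  rw [coeff_mk, sub_eq_zero]
  refine Finset.sum_subset (Finset.range_subset_range.2 (by omega)) ?_
  intro k _ hk
  rw [coeff_X_pow_mul', if_neg]
  simp only [Finset.mem_range, not_lt] at hk
  have : k ≤ a * k := Nat.le_mul_of_pos_left k ha
  omega

lemma eq_of_dvd {A B : PowerSeries ℝ} (h : ∀ K : ℕ, (X : PowerSeries ℝ) ^ K ∣ A - B) : A = B := by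
  ext n
  have := (X_pow_dvd_iff.1 (h (n + 1))) n (by omega)
  rw [map_sub, sub_eq_zero] at this
  exact this

lemma coeff_ev_lt {a n : ℕ} (hn : n < a) (G : ℕ → PowerSeries ℝ) :
    coeff n (ev a G) = coeff n (G 0) := by
  unfold ev
  rw [coeff_mk, Finset.sum_eq_single 0]
  · simp
  · intro k _ hk
    rw [coeff_X_pow_mul', if_neg]
    have : 1 ≤ k := by omega
    have : a ≤ a * k := Nat.le_mul_of_pos_right a this
    omega
  · intro h
    simp at h

lemma ev_step {a : ℕ} (ha : 1 ≤ a) (e : PowerSeries ℝ) (G H : ℕ → PowerSeries ℝ)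
    (h0 : G 0 = H 0) (h : ∀ k, G (k + 1) = e * G k + X ^ (k + 1) * H (k + 1)) :
    (1 - e * X ^ a) * ev a G = ev (a + 1) H := by
  have key : ∀ K : ℕ, (1 - e * X ^ a) * ∑ k ∈ range (K + 1), X ^ (a * k) * G k
      = ∑ k ∈ range (K + 1), X ^ ((a + 1) * k) * H k - e * X ^ (a * (K + 1)) * G K := by
    intro K
    induction K with
    | zero => simp [h0]; ring
    | succ K ih =>
      rw [Finset.sum_range_succ, mul_add, ih, Finset.sum_range_succ _ (K + 1), h K]
      ring
  apply eq_of_dvd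
  intro K
  have h1 := ev_dvd ha G (K + 1)
  have h2 := ev_dvd (a := a + 1) (by omega) H (K + 1)
  have h3 : (X : PowerSeries ℝ) ^ K ∣ X ^ (a * (K + 1)) := by
    apply pow_dvd_pow
    have : K + 1 ≤ a * (K + 1) := Nat.le_mul_of_pos_left _ ha
    omega
  have h4 : (X : PowerSeries ℝ) ^ K ∣ X ^ (K + 1) := pow_dvd_pow _ (by omega)
  have e1 : (1 - e * X ^ a) * ev a G - ev (a + 1) H
      = (1 - e * X ^ a) * (ev a G - ∑ k ∈ range (K + 1), X ^ (a * k) * G k)
        - (ev (a + 1) H - ∑ k ∈ range (K + 1), X ^ ((a + 1) * k) * H k)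
        - e * G K * X ^ (a * (K + 1)) := by
    rw [mul_sub, key]; ring
  rw [e1]
  refine dvd_sub (dvd_sub ?_ ?_) ?_
  · exact Dvd.dvd.mul_left (h4.trans h1) _
  · exact h4.trans h2
  · exact Dvd.dvd.mul_left h3 _

lemma expand_dvd {a : ℕ} (ha : a ≠ 0) (c : PowerSeries ℝ) (K : ℕ) :
    (X : PowerSeries ℝ) ^ K ∣ expand a ha c - ∑ k ∈ range K, X ^ (a * k) * C (coeff k c) := by
  rw [X_pow_dvd_iff]
  intro m hm
  rw [map_sub, map_sum, coeff_expand, sub_eq_zero]
  have e : ∀ k, coeff m (X ^ (a * k) * C (coeff k c)) = if m = a * k then coeff k c else 0 := by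
    intro k
    rw [coeff_X_pow_mul', coeff_C]
    by_cases h1 : a * k ≤ m
    · rw [if_pos h1]
      by_cases h2 : m = a * k
      · rw [if_pos h2, if_pos (by omega)]
      · rw [if_neg h2, if_neg (by omega)]
    · rw [if_neg h1, if_neg (by omega)]
  simp only [e]
  split_ifs with h
  · obtain ⟨d, rfl⟩ := h
    rw [Nat.mul_div_cancel_left d (Nat.pos_of_ne_zero ha)]
    rw [Finset.sum_eq_single d]
    · simp
    · intro k _ hk
      rw [if_neg]
      intro h
      exact hk (Nat.eq_of_mul_eq_mul_left (Nat.pos_of_ne_zero ha) h).symm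
    · intro h
      exfalso
      apply h
      rw [Finset.mem_range]
      have : d ≤ a * d := Nat.le_mul_of_pos_left d (Nat.pos_of_ne_zero ha)
      omega
  · symm
    apply Finset.sum_eq_zero
    intro k _
    rw [if_neg]
    rintro rfl
    exact h (Dvd.intro k rfl)

lemma ev_conv {a : ℕ} (ha : a ≠ 0) (c : PowerSeries ℝ) (G H : ℕ → PowerSeries ℝ)
    (h : ∀ k, G k = ∑ j ∈ range (k + 1), C (coeff (k - j) c) * (X ^ j * H j)) :
    ev a G = expand a ha c * ev (a + 1) H := by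
  have ha1 : 1 ≤ a := Nat.pos_of_ne_zero ha
  apply eq_of_dvd
  intro K
  have h1 := ev_dvd ha1 G K
  have h2 := ev_dvd (a := a + 1) (by omega) H K
  have h3 := expand_dvd ha c K
  have h4 : (X : PowerSeries ℝ) ^ K ∣
      (∑ k ∈ range K, X ^ (a * k) * C (coeff k c)) * (∑ k ∈ range K, X ^ ((a + 1) * k) * H k)
        - ∑ k ∈ range K, X ^ (a * k) * G k := by
    have f1 : ∑ k ∈ range K, X ^ (a * k) * G k
        = ∑ m ∈ range K, ∑ k ∈ range (m + 1),
          (fun j i => X ^ (a * (j + i)) * (C (coeff i c) * (X ^ j * H j))) k (m - k) := by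
      apply Finset.sum_congr rfl
      intro m _
      rw [h m, Finset.mul_sum]
      apply Finset.sum_congr rfl
      intro k hk
      have : k ≤ m := by simpa [Nat.lt_succ_iff] using hk
      simp only [show k + (m - k) = m by omega]
    have f2 : (∑ k ∈ range K, X ^ (a * k) * C (coeff k c)) * (∑ k ∈ range K, X ^ ((a + 1) * k) * H k)
        = ∑ m ∈ range K, ∑ k ∈ range K, X ^ (a * (m + k)) * (C (coeff k c) * (X ^ m * H m)) := by
      rw [mul_comm, Finset.sum_mul_sum]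
      apply Finset.sum_congr rfl
      intro m _
      apply Finset.sum_congr rfl
      intro k _
      ring
    rw [f1, Finset.sum_range_diag_flip K
      (fun j i => X ^ (a * (j + i)) * (C (coeff i c) * (X ^ j * H j))), f2,
      ← Finset.sum_sub_distrib]
    apply Finset.dvd_sum
    intro m hm
    have hm' : m < K := by simpa using hm
    rw [← Finset.sum_sdiff (Finset.range_subset_range.2 (Nat.sub_le K m)), add_sub_cancel_right]
    apply Finset.dvd_sum
    intro k hk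
    simp only [Finset.mem_sdiff, Finset.mem_range, not_lt] at hk
    apply Dvd.dvd.mul_right
    apply pow_dvd_pow
    have : m + k ≤ a * (m + k) := Nat.le_mul_of_pos_left _ ha1
    omega
  have e1 : ev a G - expand a ha c * ev (a + 1) H
      = (ev a G - ∑ k ∈ range K, X ^ (a * k) * G k)
        - (expand a ha c - ∑ k ∈ range K, X ^ (a * k) * C (coeff k c)) * ev (a + 1) H
        - (∑ k ∈ range K, X ^ (a * k) * C (coeff k c)) * (ev (a + 1) H - ∑ k ∈ range K, X ^ ((a + 1) * k) * H k)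
        - ((∑ k ∈ range K, X ^ (a * k) * C (coeff k c)) * (∑ k ∈ range K, X ^ ((a + 1) * k) * H k)
        - ∑ k ∈ range K, X ^ (a * k) * G k) := by ring
  rw [e1]
  refine dvd_sub (dvd_sub (dvd_sub h1 ?_) ?_) h4
  · exact Dvd.dvd.mul_right h3 _
  · exact Dvd.dvd.mul_left h2 _

/-! ### Binomial series -/

lemma bs_succ (t : ℝ) : bs (t + 1) * (1 - X) = bs t := by
  ext n
  rw [mul_sub, mul_one, map_sub]
  rcases n with _ | n
  · simp [bs]
  · rw [coeff_succ_mul_X]
    unfold bs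
    rw [coeff_mk, coeff_mk, coeff_mk]
    have h1 : ∏ i ∈ range (n + 1), (t + (i : ℝ)) = t * ∏ i ∈ range n, (t + 1 + (i : ℝ)) := by
      rw [Finset.prod_range_succ', mul_comm]
      congr 1
      · simp
      · apply Finset.prod_congr rfl
        intro i _
        push_cast; ring
    rw [h1, Finset.prod_range_succ, Nat.factorial_succ]
    have f1 : (n.factorial : ℝ) ≠ 0 := by positivity
    have f2 : ((n : ℝ) + 1) ≠ 0 := by positivity
    push_cast
    field_simp
    ring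

lemma bs_zero : bs 0 = 1 := by
  ext n
  unfold bs
  rw [coeff_mk, coeff_one]
  rcases n with _ | n
  · simp
  · rw [if_neg (by omega), Finset.prod_range_succ']
    simp

lemma bs_nat (t : ℕ) : bs (t : ℝ) * (1 - X) ^ t = 1 := by
  induction t with
  | zero => simp [bs_zero]
  | succ t ih =>
    push_cast
    rw [pow_succ', ← mul_assoc, bs_succ, ih]

lemma bs_neg (t : ℕ) : bs (-(t : ℝ)) = (1 - X) ^ t := by
  induction t with
  | zero => simp [bs_zero]
  | succ t ih =>
    have h := bs_succ (-((t : ℝ) + 1))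
    rw [show -((t : ℝ) + 1) + 1 = -(t : ℝ) by ring, ih] at h
    push_cast
    rw [← h, pow_succ]

lemma expand_bs_nat {b : ℕ} (hb : b ≠ 0) (t : ℕ) :
    expand b hb (bs (t : ℝ)) * (1 - X ^ b) ^ t = 1 := by
  have h := congrArg (expand b hb) (bs_nat t)
  rw [map_mul, map_pow, map_sub, map_one, expand_X] at h
  exact h

lemma expand_bs_neg {b : ℕ} (hb : b ≠ 0) (t : ℕ) :
    expand b hb (bs (-(t : ℝ))) = (1 - X ^ b) ^ t := by
  rw [bs_neg, map_pow, map_sub, map_one, expand_X]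

lemma expand_sq {b : ℕ} (hb : b ≠ 0) (F : PowerSeries ℝ) :
    expand b hb ((1 - X ^ 2) * F) = (1 - X ^ (2 * b)) * expand b hb F := by
  rw [map_mul, map_sub, map_one, map_pow, expand_X, ← pow_mul, mul_comm b 2]

/-! ### Generating series over diagrams -/

/-- `∑ μ, f μ x ^ |μ|`. -/
noncomputable def Sk (f : YoungDiagram → ℝ) : PowerSeries ℝ :=
  PowerSeries.mk fun n => ∑ μ ∈ diagrams n, f μ

lemma Sk_congr {f g : YoungDiagram → ℝ} (h : ∀ μ, f μ = g μ) : Sk f = Sk g := by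
  congr 1
  funext μ
  exact h μ

lemma Sk_add (f g : YoungDiagram → ℝ) : Sk (fun μ => f μ + g μ) = Sk f + Sk g := by
  ext n
  simp [Sk, Finset.sum_add_distrib]

lemma Sk_smul (r : ℝ) (f : YoungDiagram → ℝ) : Sk (fun μ => r * f μ) = C r * Sk f := by
  ext n
  simp [Sk, Finset.mul_sum]

lemma Sk_sum {ι : Type*} (s : Finset ι) (r : ι → ℝ) (f : ι → YoungDiagram → ℝ) :
    Sk (fun μ => ∑ i ∈ s, r i * f i μ) = ∑ i ∈ s, C (r i) * Sk (f i) := by
  ext n
  rw [map_sum]
  simp only [Sk, coeff_mk, coeff_C_mul]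
  rw [Finset.sum_comm]
  apply Finset.sum_congr rfl
  intro i _
  rw [Finset.mul_sum]

lemma adjU (k : ℕ) (f g : YoungDiagram → ℝ) :
    Sk (fun μ => g μ * Ud k f μ) = X ^ k * Sk (fun ν => f ν * Us k g ν) := by
  classical
  ext n
  rw [coeff_X_pow_mul']
  unfold Sk
  rw [coeff_mk, coeff_mk]
  split_ifs with hk
  · have e1 : ∀ μ ∈ diagrams n, g μ * Ud k f μ = ∑ ν ∈ diagrams (n - k), if HS μ ν then g μ * f ν else 0 := by
      intro μ hμ
      rw [mem_diagrams] at hμ
      unfold Ud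
      rw [hμ, if_pos hk, Finset.mul_sum, Finset.sum_filter]
    have e2 : ∀ ν ∈ diagrams (n - k), f ν * Us k g ν = ∑ μ ∈ diagrams n, if HS μ ν then g μ * f ν else 0 := by
      intro ν hν
      rw [mem_diagrams] at hν
      unfold Us
      rw [hν, Nat.sub_add_cancel hk, Finset.mul_sum, Finset.sum_filter]
      apply Finset.sum_congr rfl
      intro μ _
      split_ifs
      · ring
      · rfl
    rw [Finset.sum_congr rfl e1, Finset.sum_congr rfl e2, Finset.sum_comm]
  · apply Finset.sum_eq_zero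
    intro μ hμ
    rw [mem_diagrams] at hμ
    unfold Ud
    rw [hμ, if_neg hk, mul_zero]

lemma adjV (k : ℕ) (f g : YoungDiagram → ℝ) :
    Sk (fun μ => g μ * Vd k f μ) = X ^ k * Sk (fun ν => f ν * Vs k g ν) := by
  classical
  ext n
  rw [coeff_X_pow_mul']
  unfold Sk
  rw [coeff_mk, coeff_mk]
  split_ifs with hk
  · have e1 : ∀ μ ∈ diagrams n, g μ * Vd k f μ = ∑ ν ∈ diagrams (n - k), if VS μ ν then g μ * f ν else 0 := by
      intro μ hμ
      rw [mem_diagrams] at hμ
      unfold Vd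
      rw [hμ, if_pos hk, Finset.mul_sum, Finset.sum_filter]
    have e2 : ∀ ν ∈ diagrams (n - k), f ν * Vs k g ν = ∑ μ ∈ diagrams n, if VS μ ν then g μ * f ν else 0 := by
      intro ν hν
      rw [mem_diagrams] at hν
      unfold Vs
      rw [hν, Nat.sub_add_cancel hk, Finset.mul_sum, Finset.sum_filter]
      apply Finset.sum_congr rfl
      intro μ _
      split_ifs
      · ring
      · rfl
    rw [Finset.sum_congr rfl e1, Finset.sum_congr rfl e2, Finset.sum_comm]
  · apply Finset.sum_eq_zero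
    intro μ hμ
    rw [mem_diagrams] at hμ
    unfold Vd
    rw [hμ, if_neg hk, mul_zero]

lemma eq_of_le_card {l m : YoungDiagram} (h : m ≤ l) (hc : l.card = m.card) : l = m := by
  apply YoungDiagram.ext
  have h1 : m.cells ⊆ l.cells := YoungDiagram.cells_subset_iff.2 h
  exact (Finset.eq_of_subset_of_card_le h1 hc.le).symm

lemma Us_zero (g : YoungDiagram → ℝ) (ν : YoungDiagram) : Us 0 g ν = g ν := by
  classical
  unfold Us
  rw [Finset.sum_eq_single ν]
  · intro l hl hne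
    rw [Finset.mem_filter, mem_diagrams] at hl
    exact absurd (eq_of_le_card hl.2.1 hl.1) hne
  · intro h
    exfalso
    apply h
    rw [Finset.mem_filter, mem_diagrams]
    refine ⟨rfl, le_rfl, ?_⟩
    intro i j hij
    exact ν.up_left_mem (by omega) le_rfl hij

lemma Vs_zero (g : YoungDiagram → ℝ) (ν : YoungDiagram) : Vs 0 g ν = g ν := by
  classical
  unfold Vs
  rw [Finset.sum_eq_single ν]
  · intro l hl hne
    rw [Finset.mem_filter, mem_diagrams] at hl
    exact absurd (eq_of_le_card hl.2.1 hl.1) hne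
  · intro h
    exfalso
    apply h
    rw [Finset.mem_filter, mem_diagrams]
    refine ⟨rfl, le_rfl, ?_⟩
    intro i j hij
    exact ν.up_left_mem le_rfl (by omega) hij

lemma VS_iff (l m : YoungDiagram) : VS l m ↔ HS l.transpose m.transpose := by
  unfold VS HS
  rw [YoungDiagram.transpose_le_iff]
  constructor
  · rintro ⟨h1, h2⟩
    refine ⟨h1, fun i j h => ?_⟩
    rw [YoungDiagram.mem_transpose] at h ⊢
    exact h2 j i h
  · rintro ⟨h1, h2⟩
    refine ⟨h1, fun i j h => ?_⟩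
    have := h2 j i (by rw [YoungDiagram.mem_transpose]; exact h)
    rw [YoungDiagram.mem_transpose] at this
    exact this

lemma Vs_one (k : ℕ) (ν : YoungDiagram) : Vs k (fun _ => 1) ν = Us k (fun _ => 1) ν.transpose := by
  classical
  unfold Vs Us
  refine Finset.sum_nbij' (fun l => l.transpose) (fun l => l.transpose) ?_ ?_ ?_ ?_ ?_
  · intro l hl
    rw [Finset.mem_filter, mem_diagrams] at hl ⊢
    rw [card_transpose, card_transpose]
    exact ⟨hl.1, (VS_iff _ _).1 hl.2⟩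
  · intro l hl
    rw [Finset.mem_filter, mem_diagrams] at hl ⊢
    rw [card_transpose]
    rw [card_transpose] at hl
    refine ⟨hl.1, (VS_iff _ _).2 ?_⟩
    rw [YoungDiagram.transpose_transpose]
    exact hl.2
  · intro l _; exact YoungDiagram.transpose_transpose l
  · intro l _; exact YoungDiagram.transpose_transpose l
  · intro l _; rfl

lemma Vd_one (k : ℕ) (ν : YoungDiagram) : Vd k (fun _ => 1) ν = Ud k (fun _ => 1) ν.transpose := by
  classical
  unfold Vd Ud
  rw [card_transpose]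
  split_ifs with hk
  · refine Finset.sum_nbij' (fun l => l.transpose) (fun l => l.transpose) ?_ ?_ ?_ ?_ ?_
    · intro l hl
      rw [Finset.mem_filter, mem_diagrams] at hl ⊢
      rw [card_transpose]
      exact ⟨hl.1, (VS_iff _ _).1 hl.2⟩
    · intro l hl
      rw [Finset.mem_filter, mem_diagrams] at hl ⊢
      rw [card_transpose]
      refine ⟨hl.1, (VS_iff _ _).2 ?_⟩
      rw [YoungDiagram.transpose_transpose]
      exact hl.2
    · intro l _; exact YoungDiagram.transpose_transpose l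
    · intro l _; exact YoungDiagram.transpose_transpose l
    · intro l _; rfl
  · rfl

lemma strip_V (hs : S_strip) (ν : YoungDiagram) (k : ℕ) :
    Vs (k + 1) (fun _ => 1) ν = Vs k (fun _ => 1) ν + Vd (k + 1) (fun _ => 1) ν := by
  rw [Vs_one, Vs_one, Vd_one]
  exact hs _ _

lemma coeff_eq_of_dvd {A B F : PowerSeries ℝ} {K n : ℕ} (hn : n < K)
    (h : (X : PowerSeries ℝ) ^ K ∣ A - B) : coeff n (A * F) = coeff n (B * F) := by
  have h1 : (X : PowerSeries ℝ) ^ K ∣ A * F - B * F := by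
    rw [← sub_mul]; exact Dvd.dvd.mul_right h F
  have := (X_pow_dvd_iff.1 h1) n hn
  rw [map_sub, sub_eq_zero] at this
  exact this

/-! ### The orthogonal recursion -/

section orth

variable (f : YoungDiagram → ℝ)

/-- upper horizontal series -/
noncomputable def Ah (k : ℕ) : PowerSeries ℝ := Sk (fun ν => f ν * Us k (fun _ => 1) ν)

/-- `U^*` series -/
noncomputable def Bk (k : ℕ) : PowerSeries ℝ := Sk (fun κ => Us k f κ)

/-- signed upper vertical series -/
noncomputable def Cp (k : ℕ) : PowerSeries ℝ := C ((-1) ^ k) * Sk (fun τ => f τ * Vs k (fun _ => 1) τ)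

/-- signed `V^*` series -/
noncomputable def Ep (k : ℕ) : PowerSeries ℝ := C ((-1) ^ k) * Sk (fun σ => Vs k f σ)

lemma relA (hs : S_strip) {a : ℕ} (ha : 1 ≤ a) :
    (1 - X ^ a) * ev a (Ah f) = ev (a + 1) (Bk f) := by
  have h := ev_step ha 1 (Ah f) (Bk f) ?_ ?_
  · rwa [one_mul] at h
  · unfold Ah Bk
    apply Sk_congr
    intro ν
    rw [Us_zero, Us_zero, mul_one]
  · intro k
    have h1 := adjU (k + 1) (fun _ => 1) f
    unfold Ah Bk
    rw [one_mul]
    have h2 : Sk (fun κ => Us (k + 1) f κ) = Sk (fun ν => 1 * Us (k + 1) f ν) := by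
      apply Sk_congr; intro ν; rw [one_mul]
    rw [h2, ← h1, ← Sk_add]
    apply Sk_congr
    intro ν
    rw [hs ν k]; ring

lemma relC (hs : S_strip) {a : ℕ} (ha : 1 ≤ a) :
    (1 + X ^ a) * ev a (Cp f) = ev (a + 1) (Ep f) := by
  have h := ev_step ha (-1) (Cp f) (Ep f) ?_ ?_
  · rw [show (1 : PowerSeries ℝ) + X ^ a = 1 - (-1) * X ^ a by ring]; exact h
  · unfold Cp Ep
    congr 1
    apply Sk_congr
    intro ν
    rw [Vs_zero, Vs_zero, mul_one]
  · intro k
    have h1 := adjV (k + 1) (fun _ => 1) f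
    unfold Cp Ep
    have h2 : Sk (fun κ => Vs (k + 1) f κ) = Sk (fun ν => 1 * Vs (k + 1) f ν) := by
      apply Sk_congr; intro ν; rw [one_mul]
    rw [h2, mul_left_comm (X ^ (k + 1)), ← h1]
    have h3 : Sk (fun τ => f τ * Vs (k + 1) (fun _ => 1) τ)
        = Sk (fun τ => f τ * Vs k (fun _ => 1) τ) + Sk (fun τ => f τ * Vd (k + 1) (fun _ => 1) τ) := by
      rw [← Sk_add]
      apply Sk_congr
      intro ν
      rw [strip_V hs ν k]; ring
    rw [h3, pow_succ]
    simp only [map_mul, map_neg, map_one]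
    ring

end orth

lemma relB (h2 : S_T2O) (t : ℝ) {a : ℕ} (ha : a ≠ 0) :
    ev a (Bk (WO t)) = expand a ha ((1 - X ^ 2) * bs t) * ev (a + 1) (Cp (WO t)) := by
  apply ev_conv
  intro k
  unfold Bk Cp
  have e1 : ∀ κ, Us k (WO t) κ = ∑ j ∈ range (k + 1),
      (coeff (k - j) ((1 - X ^ 2) * bs t) * (-1) ^ j) * (1 * Vd j (WO t) κ) := by
    intro κ
    rw [h2 t k κ]
    apply Finset.sum_congr rfl
    intro j _
    ring
  rw [Sk_congr e1, Sk_sum]
  apply Finset.sum_congr rfl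
  intro j _
  rw [adjV j (WO t) (fun _ => 1), map_mul]
  ring

lemma relE (h4 : S_T4O) (t : ℝ) {a : ℕ} (ha : a ≠ 0) :
    ev a (Ep (WO t)) = expand a ha (bs (-t)) * ev (a + 1) (Ah (WO t)) := by
  apply ev_conv
  intro k
  unfold Ep Ah
  rw [← Sk_smul]
  have e1 : ∀ κ, (-1) ^ k * Vs k (WO t) κ = ∑ j ∈ range (k + 1),
      coeff (k - j) (bs (-t)) * (1 * Ud j (WO t) κ) := by
    intro κ
    rw [h4 t k κ]
    apply Finset.sum_congr rfl
    intro j _
    ring
  rw [Sk_congr e1, Sk_sum]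
  apply Finset.sum_congr rfl
  intro j _
  rw [adjU j (WO t) (fun _ => 1)]

lemma chainO (h2 : S_T2O) (h4 : S_T4O) (hs : S_strip) (t : ℝ) {a : ℕ} (ha : 1 ≤ a) :
    (1 - X ^ a) * (1 + X ^ (a + 2)) * ev a (Ah (WO t))
      = (expand (a + 1) (by omega) ((1 - X ^ 2) * bs t)) * expand (a + 3) (by omega) (bs (-t))
        * ev (a + 4) (Ah (WO t)) := by
  have r1 := relA (WO t) hs ha
  have r2 := relB h2 t (a := a + 1) (by omega)
  have r3 := relC (WO t) hs (a := a + 2) (by omega)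
  have r4 := relE h4 t (a := a + 3) (by omega)
  calc (1 - X ^ a) * (1 + X ^ (a + 2)) * ev a (Ah (WO t))
      = (1 + X ^ (a + 2)) * ((1 - X ^ a) * ev a (Ah (WO t))) := by ring
    _ = expand (a + 1) (by omega) ((1 - X ^ 2) * bs t) * ((1 + X ^ (a + 2)) * ev (a + 2) (Cp (WO t))) := by
        rw [r1, r2]; ring
    _ = _ := by rw [r3, r4]; ring

theorem recO (h1 : S_T1) (h2 : S_T2O) (h4 : S_T4O) (hs : S_strip) : S_recO := by
  intro t M n hn
  have hA : ev 1 (Ah (WO (t : ℝ))) = FO ((t : ℝ) + 1) := by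
    ext m
    unfold ev FO
    rw [coeff_mk, coeff_mk]
    have e1 : ∀ k ∈ range (m + 1), coeff m (X ^ (1 * k) * Ah (WO (t : ℝ)) k)
        = ∑ μ ∈ diagrams m, Ud k (WO (t : ℝ)) μ := by
      intro k _
      have := adjU k (WO (t : ℝ)) (fun _ => 1)
      rw [one_mul]
      unfold Ah
      rw [← this]
      unfold Sk
      rw [coeff_mk]
      simp
    rw [Finset.sum_congr rfl e1, Finset.sum_comm]
    apply Finset.sum_congr rfl
    intro μ hμ
    rw [mem_diagrams] at hμ
    rw [← hμ]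
    exact h1 t μ
  have hstep : ∀ M : ℕ, ev 1 (Ah (WO (t : ℝ))) * ∏ m ∈ range M, ((1 - X ^ (4 * m + 1)) * (1 + X ^ (4 * m + 3)) *
      (1 - X ^ (4 * m + 2)) ^ t)
      = ev (4 * M + 1) (Ah (WO (t : ℝ))) * ∏ m ∈ range M, ((1 - X ^ (8 * m + 4)) * (1 - X ^ (4 * m + 4)) ^ t) := by
    intro M
    induction M with
    | zero => simp
    | succ M ih =>
      rw [Finset.prod_range_succ, Finset.prod_range_succ, ← mul_assoc, ih]
      have hc := chainO h2 h4 hs (t : ℝ) (a := 4 * M + 1) (by omega)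
      rw [expand_sq, expand_bs_neg] at hc
      have hb := expand_bs_nat (b := 4 * M + 1 + 1) (by omega) t
      rw [show 4 * (M + 1) + 1 = 4 * M + 1 + 4 by ring, show 4 * M + 3 = 4 * M + 1 + 2 by ring,
        show 8 * M + 4 = 2 * (4 * M + 1 + 1) by ring, show 4 * M + 4 = 4 * M + 1 + 3 by ring,
        show 4 * M + 2 = 4 * M + 1 + 1 by ring]
      linear_combination (∏ m ∈ range M, ((1 - X ^ (8 * m + 4)) * (1 - X ^ (4 * m + 4)) ^ t) : PowerSeries ℝ)
        * (1 - X ^ (4 * M + 1 + 1)) ^ t * hc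
        + (∏ m ∈ range M, ((1 - X ^ (8 * m + 4)) * (1 - X ^ (4 * m + 4)) ^ t) : PowerSeries ℝ)
        * (1 - X ^ (2 * (4 * M + 1 + 1))) * (1 - X ^ (4 * M + 1 + 3)) ^ t
        * ev (4 * M + 1 + 4) (Ah (WO (t : ℝ))) * hb
  rw [← hA, hstep M]
  apply coeff_eq_of_dvd (K := 4 * M + 1) (by omega)
  rw [X_pow_dvd_iff]
  intro m hm
  rw [map_sub, coeff_ev_lt hm, sub_eq_zero]
  unfold Ah Sk FO
  rw [coeff_mk, coeff_mk]
  apply Finset.sum_congr rfl
  intro ν _
  simp only [Us_zero, mul_one]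

/-! ### The symplectic recursion -/

/-- the two-parameter series -/
noncomputable def Pk (u v : ℝ) (k : ℕ) : PowerSeries ℝ := Sk (fun ν => Wsp u ν * Us k (Wsp v) ν)

/-- the vertical companion -/
noncomputable def Qp (u v : ℝ) (k : ℕ) : PowerSeries ℝ :=
  C ((-1) ^ k) * Sk (fun τ => Wsp v τ * Vs k (Wsp u) τ)

lemma relP (h2 : S_T2sp) (u v : ℝ) {a : ℕ} (ha : a ≠ 0) :
    ev a (Pk u v) = expand a ha (bs v) * ev (a + 1) (Qp u v) := by
  apply ev_conv
  intro k
  unfold Pk Qp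
  have e1 : ∀ κ, Wsp u κ * Us k (Wsp v) κ = ∑ j ∈ range (k + 1),
      (coeff (k - j) (bs v) * (-1) ^ j) * (Wsp u κ * Vd j (Wsp v) κ) := by
    intro κ
    rw [h2 v k κ, Finset.mul_sum]
    apply Finset.sum_congr rfl
    intro j _
    ring
  rw [Sk_congr e1, Sk_sum]
  apply Finset.sum_congr rfl
  intro j _
  rw [adjV j (Wsp v) (Wsp u), map_mul]
  ring

lemma relQ (h4 : S_T4sp) (u v : ℝ) {a : ℕ} (ha : a ≠ 0) :
    ev a (Qp u v) = expand a ha ((1 - X ^ 2) * bs (-u)) * ev (a + 1) (Pk u v) := by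
  apply ev_conv
  intro k
  unfold Pk Qp
  rw [← Sk_smul]
  have e1 : ∀ κ, (-1) ^ k * (Wsp v κ * Vs k (Wsp u) κ) = ∑ j ∈ range (k + 1),
      coeff (k - j) ((1 - X ^ 2) * bs (-u)) * (Wsp v κ * Ud j (Wsp u) κ) := by
    intro κ
    rw [mul_left_comm, h4 u k κ, Finset.mul_sum]
    apply Finset.sum_congr rfl
    intro j _
    ring
  rw [Sk_congr e1, Sk_sum]
  apply Finset.sum_congr rfl
  intro j _
  rw [adjU j (Wsp u) (Wsp v)]

lemma chainS (h2 : S_T2sp) (h4 : S_T4sp) (u v : ℝ) {a : ℕ} (ha : a ≠ 0) :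
    ev a (Pk u v) = expand a ha (bs v) * ((1 - X ^ (2 * (a + 1))) * expand (a + 1) (by omega) (bs (-u)))
      * ev (a + 2) (Pk u v) := by
  rw [relP h2 u v ha, relQ h4 u v (a := a + 1) (by omega), expand_sq]
  ring

lemma evP_one (h1 : S_T1sp) (u v : ℝ) : ev 1 (Pk u v) = GS (u + 1) v := by
  ext m
  unfold ev GS
  rw [coeff_mk, coeff_mk]
  have e1 : ∀ k ∈ range (m + 1), coeff m (X ^ (1 * k) * Pk u v k)
      = ∑ μ ∈ diagrams m, Wsp v μ * Ud k (Wsp u) μ := by
    intro k _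
    have := adjU k (Wsp u) (Wsp v)
    rw [one_mul]
    unfold Pk
    rw [← this]
    unfold Sk
    rw [coeff_mk]
  rw [Finset.sum_congr rfl e1, Finset.sum_comm]
  apply Finset.sum_congr rfl
  intro μ hμ
  rw [mem_diagrams] at hμ
  rw [← Finset.mul_sum, ← hμ, h1 u μ, mul_comm]

lemma evP_big (u v : ℝ) (K : ℕ) : (X : PowerSeries ℝ) ^ K ∣ ev K (Pk u v) - GS u v := by
  rw [X_pow_dvd_iff]
  intro m hm
  rw [map_sub, coeff_ev_lt hm, sub_eq_zero]
  unfold Pk Sk GS
  rw [coeff_mk, coeff_mk]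
  apply Finset.sum_congr rfl
  intro ν _
  simp only [Us_zero]

lemma GS_comm (u v : ℝ) : GS u v = GS v u := by
  unfold GS
  ext n
  rw [coeff_mk, coeff_mk]
  apply Finset.sum_congr rfl
  intro μ _
  ring

theorem recS (h1 : S_T1sp) (h2 : S_T2sp) (h4 : S_T4sp) : S_recS := by
  intro N M n hn
  -- first chain
  have s1 : ∀ M : ℕ, GS ((N : ℝ) + 1) (-((N : ℝ) + 1)) =
      (∏ m ∈ range M, ((1 - X ^ (2 * m + 1)) ^ (N + 1) * ((1 - X ^ (4 * m + 4)) * (1 - X ^ (2 * m + 2)) ^ N)))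
        * ev (2 * M + 1) (Pk (N : ℝ) (-((N : ℝ) + 1))) := by
    intro M
    induction M with
    | zero => simp [evP_one h1]
    | succ M ih =>
      rw [ih, Finset.prod_range_succ, chainS h2 h4 _ _ (a := 2 * M + 1) (by omega)]
      have e1 := expand_bs_neg (b := 2 * M + 1) (by omega) (N + 1)
      have e2 := expand_bs_neg (b := 2 * M + 1 + 1) (by omega) N
      push_cast at e1
      rw [e1, e2]
      rw [show 2 * (M + 1) + 1 = 2 * M + 1 + 2 by ring, show 4 * M + 4 = 2 * (2 * M + 1 + 1) by ring,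
        show 2 * M + 2 = 2 * M + 1 + 1 by ring]
      ring
  have s2 : ∀ M : ℕ, GS (-(N : ℝ)) (N : ℝ) *
      (∏ m ∈ range M, ((1 - X ^ (2 * m + 1)) ^ N * (1 - X ^ (2 * m + 2)) ^ (N + 1))) =
      (∏ m ∈ range M, (1 - X ^ (4 * m + 4)))
        * ev (2 * M + 1) (Pk (-((N : ℝ) + 1)) (N : ℝ)) := by
    intro M
    induction M with
    | zero =>
      have := evP_one h1 (-((N : ℝ) + 1)) (N : ℝ)
      rw [show -((N : ℝ) + 1) + 1 = -(N : ℝ) by ring] at this
      simp only [Finset.range_zero, Finset.prod_empty, mul_one, one_mul, Nat.mul_zero, zero_add]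
      exact this.symm
    | succ M ih =>
      rw [Finset.prod_range_succ, ← mul_assoc, ih, Finset.prod_range_succ,
        chainS h2 h4 _ _ (a := 2 * M + 1) (by omega), neg_neg]
      have e1 := expand_bs_nat (b := 2 * M + 1) (by omega) N
      have e2 := expand_bs_nat (b := 2 * M + 1 + 1) (by omega) (N + 1)
      push_cast at e2
      rw [show 2 * (M + 1) + 1 = 2 * M + 1 + 2 by ring, show 4 * M + 4 = 2 * (2 * M + 1 + 1) by ring,
        show (1 - X ^ (2 * M + 2) : PowerSeries ℝ) = 1 - X ^ (2 * M + 1 + 1) from rfl]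
      calc (∏ m ∈ range M, (1 - X ^ (4 * m + 4)) : PowerSeries ℝ) *
          (expand (2 * M + 1) (by omega) (bs (N : ℝ)) *
            ((1 - X ^ (2 * (2 * M + 1 + 1))) * expand (2 * M + 1 + 1) (by omega) (bs ((N : ℝ) + 1))) *
            ev (2 * M + 1 + 2) (Pk (-((N : ℝ) + 1)) (N : ℝ))) *
          ((1 - X ^ (2 * M + 1)) ^ N * (1 - X ^ (2 * M + 1 + 1)) ^ (N + 1))
          = (∏ m ∈ range M, (1 - X ^ (4 * m + 4)) : PowerSeries ℝ) *
          (1 - X ^ (2 * (2 * M + 1 + 1))) * ev (2 * M + 1 + 2) (Pk (-((N : ℝ) + 1)) (N : ℝ)) *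
          ((expand (2 * M + 1) (by omega) (bs (N : ℝ)) * (1 - X ^ (2 * M + 1)) ^ N) *
            (expand (2 * M + 1 + 1) (by omega) (bs ((N : ℝ) + 1)) * (1 - X ^ (2 * M + 1 + 1)) ^ (N + 1))) := by
            ring
        _ = _ := by rw [e1, e2]; ring
  have t1 := s1 M
  have t2 := s2 M
  have d1 := evP_big (N : ℝ) (-((N : ℝ) + 1)) (2 * M + 1)
  have d2 := evP_big (-((N : ℝ) + 1)) (N : ℝ) (2 * M + 1)
  rw [GS_comm (-((N : ℝ) + 1)) (N : ℝ)] at d2
  rw [GS_comm (-(N : ℝ)) (N : ℝ)] at t2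
  have hprod : ∏ j ∈ range (2 * M), ((1 : PowerSeries ℝ) - X ^ (j + 1)) ^ (2 * N + 1)
      = ∏ m ∈ range M, ((1 - X ^ (2 * m + 1)) ^ (2 * N + 1) * (1 - X ^ (2 * m + 2)) ^ (2 * N + 1)) := by
    clear s1 s2 t1 t2 d1 d2 hn
    induction M with
    | zero => simp
    | succ M ih =>
      rw [show 2 * (M + 1) = 2 * M + 1 + 1 by ring, Finset.prod_range_succ, Finset.prod_range_succ, ih,
        Finset.prod_range_succ]
      ring
  have hdvd : (X : PowerSeries ℝ) ^ (2 * M + 1) ∣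
      GS ((N : ℝ) + 1) (-((N : ℝ) + 1)) -
        GS (N : ℝ) (-(N : ℝ)) * ∏ j ∈ range (2 * M), (1 - X ^ (j + 1)) ^ (2 * N + 1) := by
    set Z := ev (2 * M + 1) (Pk (N : ℝ) (-((N : ℝ) + 1))) with hZ
    set Y := ev (2 * M + 1) (Pk (-((N : ℝ) + 1)) (N : ℝ)) with hY
    set A : PowerSeries ℝ := ∏ m ∈ range M, ((1 - X ^ (2 * m + 1)) ^ (N + 1) * (1 - X ^ (2 * m + 2)) ^ N) with hAdef
    set B : PowerSeries ℝ := ∏ m ∈ range M, (1 - X ^ (4 * m + 4)) with hBdef
    set D : PowerSeries ℝ := ∏ m ∈ range M, ((1 - X ^ (2 * m + 1)) ^ N * (1 - X ^ (2 * m + 2)) ^ (N + 1)) with hDdef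
    have p1 : ∏ m ∈ range M, (((1 : PowerSeries ℝ) - X ^ (2 * m + 1)) ^ (N + 1) * ((1 - X ^ (4 * m + 4)) * (1 - X ^ (2 * m + 2)) ^ N))
        = A * B := by
      rw [hAdef, hBdef, ← Finset.prod_mul_distrib]
      apply Finset.prod_congr rfl
      intro m _
      ring
    have p2 : ∏ m ∈ range M, (((1 : PowerSeries ℝ) - X ^ (2 * m + 1)) ^ (2 * N + 1) * (1 - X ^ (2 * m + 2)) ^ (2 * N + 1))
        = A * D := by
      rw [hAdef, hDdef, ← Finset.prod_mul_distrib]
      apply Finset.prod_congr rfl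
      intro m _
      ring
    rw [hprod, p2, t1, p1]
    have e1 : A * B * Z - GS (N : ℝ) (-(N : ℝ)) * (A * D)
        = A * B * (Z - GS (N : ℝ) (-((N : ℝ) + 1))) - A * B * (Y - GS (N : ℝ) (-((N : ℝ) + 1))) := by
      have : GS (N : ℝ) (-(N : ℝ)) * (A * D) = A * (B * Y) := by
        rw [← t2]; ring
      rw [this]; ring
    rw [e1]
    exact dvd_sub (Dvd.dvd.mul_left d1 _) (Dvd.dvd.mul_left d2 _)
  have := (X_pow_dvd_iff.1 hdvd) n (by omega)
  rw [map_sub, sub_eq_zero] at this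
  exact this

end Pool.Agent.R178.HC.Rec
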