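import Pool.Agent.R178.HC.StripMv

set_option autoImplicit false

/-! Stability of the determinant and the first Pieri rule. -/

namespace Pool.Agent.R178.HC

open PowerSeries Finset Pool.Agent.R153.Sp

theorem mv_zero_lt {N : ℕ} {μ : YoungDiagram} (h : μ.colLen 0 ≤ N) : mv (N + 1) μ 0 = 0 := by
  unfold mv
  rw [Fin.val_zero, rowLen_zero (le_trans h (by omega))]

theorem mv_succ {N : ℕ} {μ : YoungDiagram} (i : Fin N) : mv (N + 1) μ i.succ = mv N μ i + 1 := by
  unfold mv
  rw [Fin.val_succ]
  have e : N + 1 - 1 - ((i : ℕ) + 1) = N - 1 - i := by omega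
  rw [e]
  omega

theorem psi_succ {N : ℕ} {q : PowerSeries ℝ} (j : Fin N) : psi (N + 1) q j.succ = X * psi N q j := by
  unfold psi
  rw [Fin.val_succ]
  have e : N + 1 - 1 - ((j : ℕ) + 1) = N - 1 - j := by omega
  rw [e, pow_succ]
  ring

theorem Dm_succ {N : ℕ} {q : PowerSeries ℝ} (hq : constantCoeff q = 1) {m : Fin (N + 1) → ℕ}
    {m' : Fin N → ℕ} (h0 : m 0 = 0) (hs : ∀ i, m (Fin.succ i) = m' i + 1) :
    Dm (N + 1) q m = Dm N q m' := by
  unfold Dm
  rw [Matrix.det_succ_row_zero, Fin.sum_univ_succ]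
  have h1 : ∀ j : Fin N, (Matrix.of fun i j : Fin (N + 1) => coeff (m i) (psi (N + 1) q j)) 0 j.succ = 0 := by
    intro j
    rw [Matrix.of_apply, h0, psi_succ, coeff_zero_X_mul]
  have h2 : (Matrix.of fun i j : Fin (N + 1) => coeff (m i) (psi (N + 1) q j)) 0 0 = 1 := by
    rw [Matrix.of_apply, h0]
    unfold psi
    simp [hq]
  simp only [h1, h2]
  simp only [Fin.val_zero, pow_zero, mul_one, one_mul, mul_zero, zero_mul, sum_const_zero, add_zero]
  congr 1
  ext i j
  rw [Matrix.submatrix_apply, Matrix.of_apply, Matrix.of_apply, Fin.succAbove_zero, hs, psi_succ,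
    coeff_succ_X_mul]

theorem Dm_eq_d {q : PowerSeries ℝ} (hq : constantCoeff q = 1) {μ : YoungDiagram} {N : ℕ}
    (h : μ.colLen 0 ≤ N) : Dm N q (mv N μ) = d q μ := by
  unfold d
  induction N, h using Nat.le_induction with
  | base => rfl
  | succ N hN ih => rw [← ih, Dm_succ hq (mv_zero_lt hN) (fun i => mv_succ i)]

/-- `1 / (1 - X)` -/
noncomputable def geo : PowerSeries ℝ := PowerSeries.mk fun _ => 1

theorem coeff_mul_geo (f : PowerSeries ℝ) (n : ℕ) :
    coeff n (f * geo) = ∑ k ∈ range (n + 1), coeff k f := by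
  rw [coeff_mul, Finset.Nat.sum_antidiagonal_eq_sum_range_succ_mk]
  apply sum_congr rfl
  intro k _
  simp [geo]

theorem psi_geo {N : ℕ} {q : PowerSeries ℝ} (j : Fin N) : psi N (q * geo) j = psi N q j * geo := by
  unfold psi; ring

/-- the interval of the new exponent -/
def itv {N : ℕ} (m : Fin N → ℕ) (i : Fin N) : Finset ℕ :=
  if h : (i : ℕ) = 0 then range (m i + 1) else Ioc (m ⟨i - 1, by omega⟩) (m i)

theorem mem_itv {N : ℕ} {m n : Fin N → ℕ} :
    (∀ i, n i ∈ itv m i) ↔ (∀ i, n i ≤ m i) ∧ ∀ i j : Fin N, (i : ℕ) + 1 = j → m i < n j := by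
  unfold itv
  constructor
  · intro h
    constructor
    · intro i
      have := h i
      split_ifs at this with h0
      · rw [mem_range] at this; omega
      · exact (mem_Ioc.1 this).2
    · intro i j hij
      have := h j
      rw [dif_neg (by omega), mem_Ioc] at this
      have e : (⟨(j : ℕ) - 1, by omega⟩ : Fin N) = i := by
        apply Fin.ext; simp only; omega
      rw [e] at this
      exact this.1
  · rintro ⟨h1, h2⟩ i
    split_ifs with h0
    · rw [mem_range]; have := h1 i; omega
    · rw [mem_Ioc]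
      exact ⟨h2 _ _ (by simp only; omega), h1 i⟩

theorem det_geo {N : ℕ} (q : PowerSeries ℝ) {m : Fin N → ℕ} (hm : StrictMono m) :
    Dm N (q * geo) m = ∑ n ∈ Fintype.piFinset (itv m), Dm N q n := by
  unfold Dm
  have h1 : Matrix.det (Matrix.of fun i j : Fin N => coeff (m i) (psi N (q * geo) j)) =
      Matrix.det (Matrix.of fun i j : Fin N => ∑ n ∈ itv m i, coeff n (psi N q j)) := by
    rcases N with _ | N
    · simp
    · apply Matrix.det_eq_of_forall_row_eq_smul_add_pred (fun _ => (1 : ℝ))
      · intro j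
        rw [Matrix.of_apply, Matrix.of_apply, psi_geo, coeff_mul_geo]
        unfold itv
        rw [dif_pos (by simp)]
      · intro i j
        rw [Matrix.of_apply, Matrix.of_apply, Matrix.of_apply, psi_geo, coeff_mul_geo,
          coeff_mul_geo, one_mul]
        unfold itv
        rw [dif_neg (by simp)]
        have e : (⟨(i.succ : ℕ) - 1, by omega⟩ : Fin (N + 1)) = i.castSucc := by
          apply Fin.ext; simp
        rw [e]
        have hlt : m i.castSucc < m i.succ := hm (by simp)
        rw [add_comm (∑ n ∈ Ioc _ _, _)]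
        have hunion : range (m i.succ + 1) = range (m i.castSucc + 1) ∪ Ioc (m i.castSucc) (m i.succ) := by
          ext x
          rw [mem_union, mem_range, mem_range, mem_Ioc]
          omega
        rw [hunion, sum_union]
        rw [Finset.disjoint_left]
        intro x hx hx'
        rw [mem_range] at hx
        rw [mem_Ioc] at hx'
        omega
  rw [h1]
  have h2 := (Matrix.detRowAlternating (R := ℝ) (n := Fin N)).toMultilinearMap.map_sum_finset
    (fun (i : Fin N) (n : ℕ) => fun j : Fin N => coeff n (psi N q j)) (fun i => itv m i)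
  have e1 : (Matrix.of fun i j : Fin N => ∑ n ∈ itv m i, coeff n (psi N q j)) =
      fun i => ∑ n ∈ itv m i, fun j : Fin N => coeff n (psi N q j) := by
    ext i j
    rw [Matrix.of_apply, Finset.sum_apply]
  have e2 : Matrix.det (Matrix.of fun i j : Fin N => ∑ n ∈ itv m i, coeff n (psi N q j)) =
      (Matrix.detRowAlternating (R := ℝ) (n := Fin N)).toMultilinearMap
        (fun i => ∑ n ∈ itv m i, fun j : Fin N => coeff n (psi N q j)) := by
    rw [← e1]; rfl
  rw [e2, h2]
  rfl

end Pool.Agent.R178.HC
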