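import Pool.Agent.R178.HC.Defs

set_option autoImplicit false

namespace Pool.Agent.R178.HC.Stm

open PowerSeries Finset Pool.Agent.R153.Sp Pool.Agent.R178.HC

/-- HC-1a: hook-content product = product formula in the beta numbers (symplectic). -/
def S_hook_sp : Prop := ∀ (t : ℝ), (∀ n : ℤ, t ≠ n) → ∀ μ : YoungDiagram,
  Wsp t μ = PF (μ.colLen 0) (t / 2 - μ.colLen 0) (mv (μ.colLen 0) μ)

/-- HC-1b: orthogonal against symplectic hook-content product. -/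
def S_hook_O : Prop := ∀ (t : ℝ), (∀ n : ℤ, t ≠ n) → ∀ μ : YoungDiagram,
  WO (t + 2) μ = Wsp t μ * EF (μ.colLen 0) (t / 2 - μ.colLen 0) (mv (μ.colLen 0) μ)

/-- HC-2a: the determinant = product formula. -/
def S_det_sp : Prop := ∀ (t : ℝ), (∀ n : ℤ, t ≠ n) → ∀ (N : ℕ) (m : Fin N → ℕ),
  Dm N (bs t) m = PF N (t / 2 - N) m

/-- HC-2b -/
def S_det_O : Prop := ∀ (t : ℝ), (∀ n : ℤ, t ≠ n) → ∀ (N : ℕ) (m : Fin N → ℕ),
  Dm N ((1 - X ^ 2) * bs (t + 2)) m = Dm N (bs t) m * EF N (t / 2 - N) m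

/-- HC-3: the determinant identity behind `U*(v) d_q = q(v) V(-v) d_q`. The left side sums over the
`l : Fin (N+1) → ℕ` with `l 0 ≤ m 0`, `m i < l (i+1)`, `l i ≤ m i` (interlacing) and
`∑ l = ∑ m + N + k`. -/
def S_pieri : Prop := ∀ (N : ℕ) (q : PowerSeries ℝ) (m : Fin N → ℕ), StrictMono m → ∀ k : ℕ,
  ∑ l ∈ (Fintype.piFinset (fun _ : Fin (N + 1) => range (∑ i, m i + N + k + 1))).filter
      (fun l => (∀ i : Fin N, l i.castSucc ≤ m i ∧ m i < l i.succ) ∧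
        ∑ i, l i = ∑ i, m i + N + k), Dm (N + 1) q l =
  ∑ j ∈ range (k + 1), coeff (k - j) q * (-1) ^ j *
    ∑ e ∈ (Fintype.piFinset (fun _ : Fin N => range 2)).filter (fun e => ∑ i, e i = j),
      Matrix.det (Matrix.of fun i i' : Fin N => coeff (m i) (X ^ (e i) * psi N q i'))

/-- HC-4: horizontal strips. -/
def S_strip : Prop := ∀ (ν : YoungDiagram) (k : ℕ),
  Us (k + 1) (fun _ => 1) ν = Us k (fun _ => 1) ν + Ud (k + 1) (fun _ => 1) ν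

/-- T1 (helper178) -/
def S_T1 : Prop := ∀ (t : ℝ) (μ : YoungDiagram),
  ∑ k ∈ range (μ.card + 1), Ud k (WO t) μ = WO (t + 1) μ

def S_T1sp : Prop := ∀ (t : ℝ) (μ : YoungDiagram),
  ∑ k ∈ range (μ.card + 1), Ud k (Wsp t) μ = Wsp (t + 1) μ

/-- T2 (helper178) -/
def S_T2O : Prop := ∀ (t : ℝ) (k : ℕ) (κ : YoungDiagram),
  Us k (WO t) κ = ∑ j ∈ range (k + 1), coeff (k - j) ((1 - X ^ 2) * bs t) * (-1) ^ j * Vd j (WO t) κ

def S_T2sp : Prop := ∀ (t : ℝ) (k : ℕ) (κ : YoungDiagram),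
  Us k (Wsp t) κ = ∑ j ∈ range (k + 1), coeff (k - j) (bs t) * (-1) ^ j * Vd j (Wsp t) κ

/-- T4 (helper178) -/
def S_T4O : Prop := ∀ (t : ℝ) (k : ℕ) (κ : YoungDiagram),
  (-1) ^ k * Vs k (WO t) κ = ∑ j ∈ range (k + 1), coeff (k - j) (bs (-t)) * Ud j (WO t) κ

def S_T4sp : Prop := ∀ (t : ℝ) (k : ℕ) (κ : YoungDiagram),
  (-1) ^ k * Vs k (Wsp t) κ =
    ∑ j ∈ range (k + 1), coeff (k - j) ((1 - X ^ 2) * bs (-t)) * Ud j (Wsp t) κ

/-- HC-5a: recursion for the orthogonal generating function. -/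
def S_recO : Prop := ∀ (t M n : ℕ), n < 4 * M →
  coeff n (FO ((t : ℝ) + 1) * ∏ m ∈ range M, ((1 - X ^ (4 * m + 1)) * (1 + X ^ (4 * m + 3)) *
      (1 - X ^ (4 * m + 2)) ^ t)) =
  coeff n (FO (t : ℝ) * ∏ m ∈ range M, ((1 - X ^ (8 * m + 4)) * (1 - X ^ (4 * m + 4)) ^ t))

/-- HC-6a: recursion for the symplectic Nekrasov-Okounkov series. -/
def S_recS : Prop := ∀ (N M n : ℕ), n < 2 * M →
  coeff n (GS ((N : ℝ) + 1) (-((N : ℝ) + 1))) =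
  coeff n (GS (N : ℝ) (-(N : ℝ)) * ∏ j ∈ range (2 * M), (1 - X ^ (j + 1)) ^ (2 * N + 1))

end Pool.Agent.R178.HC.Stm
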