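import Pool.Agent.R178.HC.Fin

set_option autoImplicit false

namespace Pool.Agent.R178.HC.StmFin

open Finset Pool.Agent.R153.Sp Pool.Agent.R178.HC

/-- `∑_λ x^|λ| ∏ (t + c_sp^2) / h^2` -/
noncomputable def Fsp : PowerSeries (Polynomial ℚ) := PowerSeries.mk fun n =>
  ∑ μ ∈ diagrams n, ∏ c ∈ μ.cells,
    (Polynomial.X + Polynomial.C (csp μ c ^ 2)) * Polynomial.C ((hook μ c ^ 2)⁻¹)

/-- `∑_λ x^|λ| ∏ (t + c_O^2) / h^2` -/
noncomputable def FO : PowerSeries (Polynomial ℚ) := PowerSeries.mk fun n =>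
  ∑ μ ∈ diagrams n, ∏ c ∈ μ.cells,
    (Polynomial.X + Polynomial.C (cO μ c ^ 2)) * Polynomial.C ((hook μ c ^ 2)⁻¹)

/-- HC-6b (helper711) : final theorem of MP_67fd2b_co -/
def S_final67 : Prop := Fsp = FO ∧ ∀ n M : ℕ, n ≤ M →
  PowerSeries.coeff n (Fsp * ∏ j ∈ range M,
    ((1 - PowerSeries.X ^ (4 * (j + 1) - 2)) * pw (j + 1) Polynomial.X)) = if n = 0 then 1 else 0

end Pool.Agent.R178.HC.StmFin
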