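import Pool.Agent.R178.HC.YD

set_option autoImplicit false

/-! Horizontal and vertical strips in terms of row lengths and beta numbers. -/

namespace Pool.Agent.R178.HC

open PowerSeries Finset Pool.Agent.R153.Sp

theorem le_iff_rowLen {μ ν : YoungDiagram} : ν ≤ μ ↔ ∀ i, ν.rowLen i ≤ μ.rowLen i := by
  constructor
  · intro h i
    by_contra hne
    push Not at hne
    have h1 : (i, μ.rowLen i) ∈ ν := YoungDiagram.mem_iff_lt_rowLen.2 hne
    have h2 := YoungDiagram.mem_iff_lt_rowLen.1 (h h1)
    omega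
  · rintro h ⟨i, j⟩ hc
    exact YoungDiagram.mem_iff_lt_rowLen.2
      (lt_of_lt_of_le (YoungDiagram.mem_iff_lt_rowLen.1 hc) (h i))

theorem HS_iff {l m : YoungDiagram} :
    HS l m ↔ ∀ i, m.rowLen i ≤ l.rowLen i ∧ l.rowLen (i + 1) ≤ m.rowLen i := by
  unfold HS
  rw [le_iff_rowLen]
  constructor
  · rintro ⟨h1, h2⟩ i
    refine ⟨h1 i, ?_⟩
    by_contra hne
    push Not at hne
    have h3 := h2 i (m.rowLen i) (YoungDiagram.mem_iff_lt_rowLen.2 hne)
    have h4 := YoungDiagram.mem_iff_lt_rowLen.1 h3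
    omega
  · intro h
    refine ⟨fun i => (h i).1, ?_⟩
    intro i j hc
    exact YoungDiagram.mem_iff_lt_rowLen.2
      (lt_of_lt_of_le (YoungDiagram.mem_iff_lt_rowLen.1 hc) (h i).2)

theorem VS_iff {l m : YoungDiagram} :
    VS l m ↔ ∀ i, m.rowLen i ≤ l.rowLen i ∧ l.rowLen i ≤ m.rowLen i + 1 := by
  unfold VS
  rw [le_iff_rowLen]
  constructor
  · rintro ⟨h1, h2⟩ i
    refine ⟨h1 i, ?_⟩
    by_contra hne
    push Not at hne
    have h3 := h2 i (m.rowLen i) (YoungDiagram.mem_iff_lt_rowLen.2 hne)
    have h4 := YoungDiagram.mem_iff_lt_rowLen.1 h3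
    omega
  · intro h
    refine ⟨fun i => (h i).1, ?_⟩
    intro i j hc
    have h1 := YoungDiagram.mem_iff_lt_rowLen.1 hc
    have h2 := (h i).2
    exact YoungDiagram.mem_iff_lt_rowLen.2 (by omega)

theorem HS_transpose {l m : YoungDiagram} : HS l.transpose m.transpose ↔ VS l m := by
  unfold HS VS
  constructor
  · rintro ⟨h1, h2⟩
    constructor
    · rintro ⟨i, j⟩ hc
      have : (j, i) ∈ m.transpose := YoungDiagram.mem_transpose.2 hc
      exact YoungDiagram.mem_transpose.1 (h1 this)
    · intro i j hc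
      have h3 : (j + 1, i) ∈ l.transpose := YoungDiagram.mem_transpose.2 hc
      exact YoungDiagram.mem_transpose.1 (h2 j i h3)
  · rintro ⟨h1, h2⟩
    constructor
    · rintro ⟨i, j⟩ hc
      exact YoungDiagram.mem_transpose.2 (h1 (YoungDiagram.mem_transpose.1 hc))
    · intro i j hc
      exact YoungDiagram.mem_transpose.2 (h2 j i (YoungDiagram.mem_transpose.1 hc))

theorem VS_transpose {l m : YoungDiagram} : VS l.transpose m.transpose ↔ HS l m := by
  rw [← HS_transpose, YoungDiagram.transpose_transpose, YoungDiagram.transpose_transpose]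

/-- horizontal strips, the same number of rows -/
theorem HS_mv {N : ℕ} {μ ν : YoungDiagram} (hμ : μ.colLen 0 ≤ N) (hν : ν.colLen 0 ≤ N) :
    HS μ ν ↔ (∀ i : Fin N, mv N ν i ≤ mv N μ i) ∧
      ∀ i j : Fin N, (i : ℕ) + 1 = j → mv N μ i < mv N ν j := by
  rw [HS_iff]
  unfold mv
  constructor
  · intro h
    constructor
    · intro i
      have := (h (N - 1 - i)).1
      omega
    · intro i j hij
      have hj := j.2
      have := (h (N - 1 - j)).2
      have e : N - 1 - (j : ℕ) + 1 = N - 1 - i := by omega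
      rw [e] at this
      omega
  · rintro ⟨h1, h2⟩ i
    by_cases hi : i < N
    · constructor
      · have := h1 ⟨N - 1 - i, by omega⟩
        simp only at this
        have e : N - 1 - (N - 1 - i) = i := by omega
        rw [e] at this
        omega
      · by_cases hi' : i + 1 < N
        · have := h2 ⟨N - 1 - (i + 1), by omega⟩ ⟨N - 1 - i, by omega⟩ (by simp only; omega)
          simp only at this
          have e : N - 1 - (N - 1 - i) = i := by omega
          have e' : N - 1 - (N - 1 - (i + 1)) = i + 1 := by omega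
          rw [e, e'] at this
          omega
        · rw [rowLen_zero (le_trans hμ (by omega))]
          exact Nat.zero_le _
    · rw [rowLen_zero (le_trans hμ (by omega)), rowLen_zero (le_trans hμ (by omega)),
        rowLen_zero (le_trans hν (by omega))]
      exact ⟨le_rfl, le_rfl⟩

/-- horizontal strips, one more row -/
theorem HS_mv_succ {N : ℕ} {l κ : YoungDiagram} (hl : l.colLen 0 ≤ N + 1) (hκ : κ.colLen 0 ≤ N) :
    HS l κ ↔ ∀ i : Fin N, mv (N + 1) l i.castSucc ≤ mv N κ i ∧ mv N κ i < mv (N + 1) l i.succ := by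
  rw [HS_iff]
  unfold mv
  constructor
  · intro h i
    have hi := i.2
    rw [Fin.val_castSucc, Fin.val_succ]
    have h1 := h (N - 1 - i)
    have e : N - 1 - (i : ℕ) + 1 = N + 1 - 1 - i := by omega
    have e' : N + 1 - 1 - ((i : ℕ) + 1) = N - 1 - i := by omega
    rw [e] at h1
    rw [e']
    omega
  · intro h i
    by_cases hi : i < N
    · have h1 := h ⟨N - 1 - i, by omega⟩
      rw [Fin.val_castSucc, Fin.val_succ] at h1
      simp only at h1
      have e1 : N + 1 - 1 - (N - 1 - i) = i + 1 := by omega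
      have e2 : N - 1 - (N - 1 - i) = i := by omega
      have e3 : N + 1 - 1 - (N - 1 - i + 1) = i := by omega
      rw [e1, e2, e3] at h1
      omega
    · rw [rowLen_zero (μ := κ) (le_trans hκ (by omega)),
        rowLen_zero (μ := l) (i := i + 1) (le_trans hl (by omega))]
      exact ⟨Nat.zero_le _, le_rfl⟩

theorem HS_colLen {l κ : YoungDiagram} (h : HS l κ) {N : ℕ} (hκ : κ.colLen 0 ≤ N) :
    l.colLen 0 ≤ N + 1 := by
  rw [colLen_le_iff]
  have := (HS_iff.1 h N).2
  rw [rowLen_zero hκ] at this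
  omega

theorem VS_mv {N : ℕ} {μ ν : YoungDiagram} (hμ : μ.colLen 0 ≤ N) (hν : ν.colLen 0 ≤ N) :
    VS μ ν ↔ ∀ i : Fin N, mv N ν i ≤ mv N μ i ∧ mv N μ i ≤ mv N ν i + 1 := by
  rw [VS_iff]
  unfold mv
  constructor
  · intro h i
    have := h (N - 1 - i)
    omega
  · intro h i
    by_cases hi : i < N
    · have := h ⟨N - 1 - i, by omega⟩
      simp only at this
      have e : N - 1 - (N - 1 - i) = i := by omega
      rw [e] at this
      omega
    · rw [rowLen_zero (le_trans hμ (by omega)), rowLen_zero (le_trans hν (by omega))]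
      exact ⟨le_rfl, Nat.zero_le _⟩

theorem diagrams_transpose {n : ℕ} {μ : YoungDiagram} :
    μ.transpose ∈ diagrams n ↔ μ ∈ diagrams n := by
  rw [mem_diagrams, mem_diagrams, card_transpose]

end Pool.Agent.R178.HC
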