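import Pool.Agent.R178.HC.Stab

set_option autoImplicit false

/-! T1: adding a variable. -/

namespace Pool.Agent.R178.HC

open PowerSeries Finset Pool.Agent.R153.Sp

theorem strictMono_of_step {N : ℕ} {n : Fin N → ℕ}
    (h : ∀ i j : Fin N, (i : ℕ) + 1 = j → n i < n j) : StrictMono n := by
  intro i j hij
  obtain ⟨i, hi⟩ := i
  obtain ⟨j, hj⟩ := j
  have h' : i + 1 ≤ j := hij
  clear hij
  induction j, h' using Nat.le_induction with
  | base => exact h _ _ rfl
  | succ k hk ih => exact lt_trans (ih (by omega)) (h ⟨k, by omega⟩ ⟨k + 1, hj⟩ rfl)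

theorem HS_card {μ ν : YoungDiagram} (h : HS μ ν) : ν.card ≤ μ.card :=
  Finset.card_le_card (YoungDiagram.cells_subset_iff.2 h.1)

theorem VS_card {μ ν : YoungDiagram} (h : VS μ ν) : ν.card ≤ μ.card :=
  Finset.card_le_card (YoungDiagram.cells_subset_iff.2 h.1)

theorem T1_gen {q : PowerSeries ℝ} (hq : constantCoeff q = 1) (μ : YoungDiagram) :
    ∑ k ∈ range (μ.card + 1), Ud k (d q) μ = d (q * geo) μ := by
  classical
  have hq' : constantCoeff (q * geo) = 1 := by
    rw [map_mul, hq]; simp [geo]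
  set N := μ.colLen 0 with hN
  rw [← Dm_eq_d hq' (le_refl (μ.colLen 0)), ← hN, det_geo q (mv_strictMono N μ)]
  unfold Ud
  have h1 : ∀ k ∈ range (μ.card + 1),
      (if k ≤ μ.card then ∑ ν ∈ (diagrams (μ.card - k)).filter (fun ν => HS μ ν), d q ν else 0) =
      ∑ ν ∈ (diagrams (μ.card - k)).filter (fun ν => HS μ ν), Dm N q (mv N ν) := by
    intro k hk
    rw [mem_range] at hk
    rw [if_pos (by omega)]
    apply sum_congr rfl
    intro ν hν
    rw [mem_filter] at hν
    rw [Dm_eq_d hq (colLen_mono hν.2.1 0)]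
  rw [sum_congr rfl h1, Finset.sum_sigma']
  refine Finset.sum_bij' (fun x _ => mv N x.2)
    (fun n hn => ⟨μ.card - (ofm n (strictMono_of_step (n := n) ?_)).card,
      ofm n (strictMono_of_step (n := n) ?_)⟩) ?_ ?_ ?_ ?_ ?_
  · intro i j hij
    have h := mem_itv.1 (Fintype.mem_piFinset.1 hn)
    exact lt_of_le_of_lt (h.1 i) (h.2 i j hij)
  · intro i j hij
    have h := mem_itv.1 (Fintype.mem_piFinset.1 hn)
    exact lt_of_le_of_lt (h.1 i) (h.2 i j hij)
  · rintro ⟨k, ν⟩ hx
    rw [mem_sigma, mem_filter] at hx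
    rw [Fintype.mem_piFinset]
    exact mem_itv.2 ((HS_mv le_rfl (colLen_mono hx.2.2.1 0)).1 hx.2.2)
  · intro n hn
    have h := mem_itv.1 (Fintype.mem_piFinset.1 hn)
    have hs : StrictMono n := strictMono_of_step
      (fun i j hij => lt_of_le_of_lt (h.1 i) (h.2 i j hij))
    have hH : HS μ (ofm n hs) := by
      rw [HS_mv (N := N) le_rfl colLen_ofm, mv_ofm]
      exact h
    have hc := HS_card hH
    rw [mem_sigma, mem_range, mem_filter, mem_diagrams]
    simp only
    refine ⟨by omega, by omega, hH⟩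
  · rintro ⟨k, ν⟩ hx
    rw [mem_sigma, mem_filter, mem_diagrams, mem_range] at hx
    simp only at hx
    have e : ∀ hs : StrictMono (mv N ν), ofm (mv N ν) hs = ν := fun hs =>
      mv_inj colLen_ofm (colLen_mono hx.2.2.1 0) mv_ofm
    have hc := HS_card hx.2.2
    simp only [e]
    rw [Sigma.mk.injEq]
    exact ⟨by omega, HEq.rfl⟩
  · intro n hn
    have h := mem_itv.1 (Fintype.mem_piFinset.1 hn)
    exact mv_ofm (hm := strictMono_of_step
      (fun i j hij => lt_of_le_of_lt (h.1 i) (h.2 i j hij)))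
  · rintro ⟨k, ν⟩ hx
    rfl

end Pool.Agent.R178.HC
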