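import Pool.Agent.R178.HC.T1

set_option autoImplicit false

/-! T2: skewing by a variable, from the determinant identity `S_pieri`. -/

namespace Pool.Agent.R178.HC

open PowerSeries Finset Pool.Agent.R153.Sp

theorem det_shift {N : ℕ} {q : PowerSeries ℝ} {m e : Fin N → ℕ} (h : ∀ i, e i ≤ m i) :
    Matrix.det (Matrix.of fun i i' : Fin N => coeff (m i) (X ^ (e i) * psi N q i')) =
    Dm N q (fun i => m i - e i) := by
  unfold Dm
  congr 1
  ext i j
  rw [Matrix.of_apply, Matrix.of_apply, coeff_X_pow_mul', if_pos (h i)]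

theorem det_shift_zero {N : ℕ} {q : PowerSeries ℝ} {m e : Fin N → ℕ} {i : Fin N} (h : m i < e i) :
    Matrix.det (Matrix.of fun i i' : Fin N => coeff (m i) (X ^ (e i) * psi N q i')) = 0 := by
  apply Matrix.det_eq_zero_of_row_eq_zero i
  intro j
  rw [Matrix.of_apply, coeff_X_pow_mul', if_neg (by omega)]

theorem Dm_zero_of_eq {N : ℕ} {q : PowerSeries ℝ} {m : Fin N → ℕ} {i j : Fin N} (hij : i ≠ j)
    (h : m i = m j) : Dm N q m = 0 := by
  unfold Dm
  apply Matrix.det_zero_of_row_eq hij
  ext k
  rw [Matrix.of_apply, Matrix.of_apply, h]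

theorem Vd_eq {q : PowerSeries ℝ} (hq : constantCoeff q = 1) (κ : YoungDiagram) (j : ℕ) :
    ∑ e ∈ (Fintype.piFinset (fun _ : Fin (κ.colLen 0) => range 2)).filter
      (fun e => ∑ i, e i = j),
      Matrix.det (Matrix.of fun i i' : Fin (κ.colLen 0) =>
        coeff (mv (κ.colLen 0) κ i) (X ^ (e i) * psi (κ.colLen 0) q i')) =
    Vd j (d q) κ := by
  classical
  set N := κ.colLen 0 with hN
  set m := mv N κ with hm
  have hms : StrictMono m := mv_strictMono N κ
  -- restrict to the valid `e`
  have h1 : ∑ e ∈ (Fintype.piFinset (fun _ : Fin N => range 2)).filter (fun e => ∑ i, e i = j),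
      Matrix.det (Matrix.of fun i i' : Fin N => coeff (m i) (X ^ (e i) * psi N q i')) =
      ∑ e ∈ ((Fintype.piFinset (fun _ : Fin N => range 2)).filter (fun e => ∑ i, e i = j)).filter
        (fun e => (∀ i, e i ≤ m i) ∧ StrictMono (fun i => m i - e i)),
      Dm N q (fun i => m i - e i) := by
    conv_rhs => rw [Finset.sum_filter]
    apply sum_congr rfl
    intro e he
    rw [mem_filter, Fintype.mem_piFinset] at he
    have he2 : ∀ i, e i < 2 := fun i => mem_range.1 (he.1 i)
    split_ifs with hv
    · exact det_shift hv.1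
    · by_cases hle : ∀ i, e i ≤ m i
      · rw [det_shift hle]
        have hns : ¬ StrictMono (fun i => m i - e i) := fun h => hv ⟨hle, h⟩
        have : ¬ ∀ i j : Fin N, (i : ℕ) + 1 = j → m i - e i < m j - e j := fun h =>
          hns (strictMono_of_step h)
        push Not at this
        obtain ⟨i, j', hij, hge⟩ := this
        have hlt : m i < m j' := hms (Fin.lt_def.2 (by omega))
        have h3 := he2 j'
        have h4 := he2 i
        apply Dm_zero_of_eq (i := i) (j := j') (fun h => by rw [h] at hij; omega)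
        omega
      · push Not at hle
        obtain ⟨i, hi⟩ := hle
        exact det_shift_zero hi
  rw [h1]
  have hsum : ∀ e : Fin N → ℕ, (∀ i, e i ≤ m i) → ∑ i, (m i - e i) + ∑ i, e i = ∑ i, m i := by
    intro e he
    rw [← sum_add_distrib]
    exact sum_congr rfl (fun i _ => Nat.sub_add_cancel (he i))
  have hsm : ∑ i, m i = κ.card + ∑ i ∈ range N, i := sum_mv le_rfl
  unfold Vd
  split_ifs with hj
  · refine Finset.sum_bij' (fun e he => ofm (fun i => m i - e i) (mem_filter.1 he).2.2)
      (fun τ _ => fun i => m i - mv N τ i) ?_ ?_ ?_ ?_ ?_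
    · intro e he
      obtain ⟨he1, he2, he3⟩ := mem_filter.1 he
      rw [mem_filter, Fintype.mem_piFinset] at he1
      rw [mem_filter, mem_diagrams]
      have hc := sum_mv (colLen_ofm (m := fun i => m i - e i) (hm := he3))
      rw [mv_ofm] at hc
      have hs := hsum e he2
      refine ⟨by omega, ?_⟩
      rw [VS_mv (N := N) le_rfl colLen_ofm, mv_ofm]
      intro i
      have h5 := mem_range.1 (he1.1 i)
      have h6 := he2 i
      change m i - e i ≤ m i ∧ m i ≤ m i - e i + 1
      omega
    · intro τ hτ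
      rw [mem_filter, mem_diagrams] at hτ
      have hcl : τ.colLen 0 ≤ N := colLen_mono hτ.2.1 0
      have hV := (VS_mv (N := N) le_rfl hcl).1 hτ.2
      have hc := sum_mv hcl
      have hle : ∀ i, m i - mv N τ i ≤ m i := fun i => Nat.sub_le _ _
      have heq : (fun i => m i - (m i - mv N τ i)) = mv N τ := by
        ext i
        have : mv N τ i ≤ m i := (hV i).1
        omega
      have hs := hsum (fun i => m i - mv N τ i) hle
      have hs2 : ∑ i, (m i - (m i - mv N τ i)) = ∑ i, mv N τ i :=
        sum_congr rfl (fun i _ => congrFun heq i)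
      rw [mem_filter, mem_filter, Fintype.mem_piFinset]
      refine ⟨⟨?_, ?_⟩, hle, ?_⟩
      · intro i
        have : m i ≤ mv N τ i + 1 := (hV i).2
        rw [mem_range]; omega
      · rw [hs2] at hs
        change ∑ i, (m i - mv N τ i) = j
        change ∑ i, mv N τ i + ∑ i, (m i - mv N τ i) = ∑ i, m i at hs
        omega
      · change StrictMono (fun i => m i - (m i - mv N τ i))
        rw [heq]
        exact mv_strictMono N τ
    · intro e he
      obtain ⟨he1, he2, he3⟩ := mem_filter.1 he
      ext i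
      rw [mv_ofm]
      have := he2 i
      change m i - (m i - e i) = e i
      omega
    · intro τ hτ
      rw [mem_filter, mem_diagrams] at hτ
      have hcl : τ.colLen 0 ≤ N := colLen_mono hτ.2.1 0
      have hV := (VS_mv (N := N) le_rfl hcl).1 hτ.2
      apply mv_inj (N := N) colLen_ofm hcl
      rw [mv_ofm]
      ext i
      have : mv N τ i ≤ m i := (hV i).1
      change m i - (m i - mv N τ i) = mv N τ i
      omega
    · intro e he
      obtain ⟨he1, he2, he3⟩ := mem_filter.1 he
      rw [← Dm_eq_d hq (N := N) colLen_ofm, mv_ofm]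
  · apply Finset.sum_eq_zero
    intro e he
    exfalso
    obtain ⟨he1, he2, he3⟩ := mem_filter.1 he
    rw [mem_filter] at he1
    have hc := sum_mv (colLen_ofm (m := fun i => m i - e i) (hm := he3))
    rw [mv_ofm] at hc
    have hs := hsum e he2
    omega

theorem T2_gen (hP : Stm.S_pieri) {q : PowerSeries ℝ} (hq : constantCoeff q = 1) (k : ℕ)
    (κ : YoungDiagram) :
    Us k (d q) κ = ∑ j ∈ range (k + 1), coeff (k - j) q * (-1) ^ j * Vd j (d q) κ := by
  classical
  have h := hP (κ.colLen 0) q (mv (κ.colLen 0) κ) (mv_strictMono _ _) k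
  have h2 : ∀ j ∈ range (k + 1), coeff (k - j) q * (-1) ^ j * Vd j (d q) κ =
      coeff (k - j) q * (-1) ^ j *
        ∑ e ∈ (Fintype.piFinset (fun _ : Fin (κ.colLen 0) => range 2)).filter
          (fun e => ∑ i, e i = j),
          Matrix.det (Matrix.of fun i i' : Fin (κ.colLen 0) =>
            coeff (mv (κ.colLen 0) κ i) (X ^ (e i) * psi (κ.colLen 0) q i')) := by
    intro j _
    rw [Vd_eq hq]
  rw [sum_congr rfl h2, ← h]
  set N := κ.colLen 0 with hN
  set m := mv N κ with hm
  have hsm : ∑ i, m i = κ.card + ∑ i ∈ range N, i := sum_mv le_rfl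
  have htri : ∑ i ∈ range (N + 1), i = ∑ i ∈ range N, i + N := sum_range_succ _ _
  unfold Us
  refine Finset.sum_bij' (fun l _ => mv (N + 1) l)
    (fun l hl => ofm l (strictMono_of_step (n := l) ?_)) ?_ ?_ ?_ ?_ ?_
  · intro i j hij
    obtain ⟨_, hl2, _⟩ := mem_filter.1 hl
    have hi : (i : ℕ) < N := by omega
    have h3 := hl2 ⟨i, hi⟩
    have e1 : (⟨(i : ℕ), hi⟩ : Fin N).castSucc = i := by apply Fin.ext; simp
    have e2 : (⟨(i : ℕ), hi⟩ : Fin N).succ = j := by apply Fin.ext; simp [hij]
    rw [e1, e2] at h3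
    omega
  · intro l hl
    rw [mem_filter, mem_diagrams] at hl
    have hcl := HS_colLen hl.2 (le_refl N)
    have hc := sum_mv hcl
    have hsl : ∑ i, mv (N + 1) l i = ∑ i, m i + N + k := by omega
    rw [mem_filter, Fintype.mem_piFinset]
    refine ⟨?_, (HS_mv_succ hcl le_rfl).1 hl.2, hsl⟩
    intro i
    rw [mem_range]
    have : mv (N + 1) l i ≤ ∑ i, mv (N + 1) l i :=
      Finset.single_le_sum (f := mv (N + 1) l) (fun _ _ => Nat.zero_le _) (mem_univ _)
    omega
  · intro l hl
    obtain ⟨_, hl2, hl3⟩ := mem_filter.1 hl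
    rw [mem_filter, mem_diagrams]
    have hs : StrictMono l := by
      apply strictMono_of_step
      intro i j hij
      have hi : (i : ℕ) < N := by omega
      have h3 := hl2 ⟨i, hi⟩
      have e1 : (⟨(i : ℕ), hi⟩ : Fin N).castSucc = i := by apply Fin.ext; simp
      have e2 : (⟨(i : ℕ), hi⟩ : Fin N).succ = j := by apply Fin.ext; simp [hij]
      rw [e1, e2] at h3
      omega
    have hc := sum_mv (colLen_ofm (m := l) (hm := hs))
    rw [mv_ofm] at hc
    refine ⟨by omega, ?_⟩
    rw [HS_mv_succ (N := N) colLen_ofm le_rfl, mv_ofm]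
    exact hl2
  · intro l hl
    rw [mem_filter, mem_diagrams] at hl
    exact mv_inj colLen_ofm (HS_colLen hl.2 (le_refl N)) mv_ofm
  · intro l hl
    exact mv_ofm
  · intro l hl
    rw [mem_filter, mem_diagrams] at hl
    rw [Dm_eq_d hq (HS_colLen hl.2 (le_refl N))]

end Pool.Agent.R178.HC
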