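import Pool.Agent.R178.HC.Stm

set_option autoImplicit false

/-! Young diagrams and their beta numbers. -/

namespace Pool.Agent.R178.HC

open PowerSeries Finset Pool.Agent.R153.Sp

theorem rowLen_zero {μ : YoungDiagram} {i : ℕ} (h : μ.colLen 0 ≤ i) : μ.rowLen i = 0 := by
  by_contra hne
  have h1 : (i, 0) ∈ μ := YoungDiagram.mem_iff_lt_rowLen.2 (Nat.pos_of_ne_zero hne)
  have h2 := YoungDiagram.mem_iff_lt_colLen.1 h1
  omega

theorem colLen_le_iff {μ : YoungDiagram} {N : ℕ} : μ.colLen 0 ≤ N ↔ μ.rowLen N = 0 := by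
  constructor
  · exact rowLen_zero
  · intro h
    by_contra hne
    push Not at hne
    have h1 : (N, 0) ∈ μ := YoungDiagram.mem_iff_lt_colLen.2 hne
    have h2 := YoungDiagram.mem_iff_lt_rowLen.1 h1
    omega

theorem colLen_mono {μ ν : YoungDiagram} (h : ν ≤ μ) (j : ℕ) : ν.colLen j ≤ μ.colLen j := by
  by_contra hne
  push Not at hne
  have h1 : (μ.colLen j, j) ∈ ν := YoungDiagram.mem_iff_lt_colLen.2 hne
  have h2 := YoungDiagram.mem_iff_lt_colLen.1 (h h1)
  omega

theorem mv_strictMono (N : ℕ) (μ : YoungDiagram) : StrictMono (mv N μ) := by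
  intro i j hij
  unfold mv
  have h1 : (i : ℕ) < j := hij
  have h2 : N - 1 - (j : ℕ) ≤ N - 1 - (i : ℕ) := by omega
  have := μ.rowLen_anti _ _ h2
  omega

theorem strictMono_ge {N : ℕ} {m : Fin N → ℕ} (hm : StrictMono m) (i : Fin N) : (i : ℕ) ≤ m i := by
  obtain ⟨i, hi⟩ := i
  induction i with
  | zero => simp
  | succ k ih =>
    have h1 := ih (by omega)
    have h2 : m ⟨k, by omega⟩ < m ⟨k + 1, hi⟩ := hm (by simp [Fin.lt_def])
    simp only at h1 ⊢
    omega

theorem strictMono_sub {N : ℕ} {m : Fin N → ℕ} (hm : StrictMono m) {i j : Fin N} (h : i ≤ j) :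
    m i - (i : ℕ) ≤ m j - (j : ℕ) := by
  obtain ⟨i, hi⟩ := i
  obtain ⟨j, hj⟩ := j
  have h' : i ≤ j := h
  clear h
  induction j, h' using Nat.le_induction with
  | base => exact le_rfl
  | succ k hk ih =>
    have h1 := ih (by omega)
    have h2 : m ⟨k, by omega⟩ < m ⟨k + 1, hj⟩ := hm (by simp [Fin.lt_def])
    have h3 := strictMono_ge hm ⟨k, by omega⟩
    simp only at h1 h3 ⊢
    omega

/-- membership predicate of the diagram with beta numbers `m` -/
def inm {N : ℕ} (m : Fin N → ℕ) (c : ℕ × ℕ) : Prop :=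
  ∃ h : c.1 < N, c.2 + (N - 1 - c.1) < m ⟨N - 1 - c.1, by omega⟩

open Classical in
/-- the diagram with beta numbers `m` -/
noncomputable def ofm {N : ℕ} (m : Fin N → ℕ) (hm : StrictMono m) : YoungDiagram where
  cells := ((range N) ×ˢ (range (∑ i, m i + 1))).filter (fun c => inm m c)
  isLowerSet := by
    rintro ⟨i, j⟩ ⟨i', j'⟩ hle hc
    have hi : i' ≤ i := hle.1
    have hj : j' ≤ j := hle.2
    rw [Finset.mem_coe, Finset.mem_filter, Finset.mem_product, mem_range, mem_range] at hc ⊢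
    obtain ⟨⟨h1, h2⟩, h3, h4⟩ := hc
    simp only at h1 h2 h3 h4 ⊢
    refine ⟨⟨by omega, by omega⟩, by simp only; omega, ?_⟩
    simp only
    have h5 := strictMono_sub hm (i := ⟨N - 1 - i, by omega⟩) (j := ⟨N - 1 - i', by omega⟩)
      (by simp only [Fin.mk_le_mk]; omega)
    have h6 := strictMono_ge hm ⟨N - 1 - i, by omega⟩
    have h7 := strictMono_ge hm ⟨N - 1 - i', by omega⟩
    simp only at h5 h6 h7
    omega

theorem mem_ofm {N : ℕ} {m : Fin N → ℕ} {hm : StrictMono m} {c : ℕ × ℕ} :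
    c ∈ ofm m hm ↔ inm m c := by
  classical
  rw [← YoungDiagram.mem_cells]
  unfold ofm
  simp only [Finset.mem_filter, Finset.mem_product, mem_range]
  constructor
  · exact fun h => h.2
  · intro h
    refine ⟨⟨h.1, ?_⟩, h⟩
    obtain ⟨h1, h2⟩ := h
    have : m ⟨N - 1 - c.1, by omega⟩ ≤ ∑ i, m i :=
      Finset.single_le_sum (f := m) (fun _ _ => Nat.zero_le _) (mem_univ _)
    omega

theorem rowLen_ofm {N : ℕ} {m : Fin N → ℕ} {hm : StrictMono m} {i : ℕ} (hi : i < N) :
    (ofm m hm).rowLen i = m ⟨N - 1 - i, by omega⟩ - (N - 1 - i) := by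
  have key : ∀ j, j < (ofm m hm).rowLen i ↔ j < m ⟨N - 1 - i, by omega⟩ - (N - 1 - i) := by
    intro j
    rw [← YoungDiagram.mem_iff_lt_rowLen, mem_ofm]
    unfold inm
    simp only
    constructor
    · rintro ⟨_, h⟩; omega
    · intro h; exact ⟨hi, by omega⟩
  apply le_antisymm
  · by_contra h
    push Not at h
    have := (key _).1 h
    omega
  · by_contra h
    push Not at h
    have := (key _).2 h
    omega

theorem colLen_ofm {N : ℕ} {m : Fin N → ℕ} {hm : StrictMono m} : (ofm m hm).colLen 0 ≤ N := by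
  by_contra h
  push Not at h
  have h1 := YoungDiagram.mem_iff_lt_colLen.2 h
  rw [mem_ofm] at h1
  obtain ⟨h2, _⟩ := h1
  simp only at h2
  omega

theorem mv_ofm {N : ℕ} {m : Fin N → ℕ} {hm : StrictMono m} : mv N (ofm m hm) = m := by
  ext i
  unfold mv
  have hi := i.2
  rw [rowLen_ofm (by omega)]
  have e : (⟨N - 1 - (N - 1 - (i : ℕ)), by omega⟩ : Fin N) = i := by
    apply Fin.ext; simp only; omega
  rw [e]
  have := strictMono_ge hm i
  omega

theorem ext_rowLen {μ ν : YoungDiagram} (h : ∀ i, μ.rowLen i = ν.rowLen i) : μ = ν := by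
  apply YoungDiagram.ext
  ext ⟨i, j⟩
  rw [YoungDiagram.mem_cells, YoungDiagram.mem_cells, YoungDiagram.mem_iff_lt_rowLen,
    YoungDiagram.mem_iff_lt_rowLen, h i]

theorem mv_inj {N : ℕ} {μ ν : YoungDiagram} (hμ : μ.colLen 0 ≤ N) (hν : ν.colLen 0 ≤ N)
    (h : mv N μ = mv N ν) : μ = ν := by
  apply ext_rowLen
  intro i
  by_cases hi : i < N
  · have := congrFun h ⟨N - 1 - i, by omega⟩
    unfold mv at this
    simp only at this
    have e : N - 1 - (N - 1 - i) = i := by omega
    rw [e] at this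
    omega
  · rw [rowLen_zero (le_trans hμ (by omega)), rowLen_zero (le_trans hν (by omega))]

theorem card_eq_sum {μ : YoungDiagram} {N : ℕ} (h : μ.colLen 0 ≤ N) :
    μ.card = ∑ i ∈ range N, μ.rowLen i := by
  unfold YoungDiagram.card
  have : μ.cells = (range N).biUnion (fun i => μ.row i) := by
    ext ⟨i, j⟩
    rw [mem_biUnion]
    constructor
    · intro hc
      rw [YoungDiagram.mem_cells] at hc
      refine ⟨i, ?_, YoungDiagram.mem_row_iff.2 ⟨hc, rfl⟩⟩
      rw [mem_range]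
      have h1 : (i, 0) ∈ μ := μ.up_left_mem le_rfl (Nat.zero_le _) hc
      have h2 := YoungDiagram.mem_iff_lt_colLen.1 h1
      omega
    · rintro ⟨k, _, hk⟩
      exact (YoungDiagram.mem_row_iff.1 hk).1
  rw [this, card_biUnion]
  · apply sum_congr rfl
    intro i _
    rw [YoungDiagram.rowLen_eq_card]
  · intro i _ j _ hij
    rw [Function.onFun, Finset.disjoint_left]
    intro c hc hc'
    exact hij ((YoungDiagram.mem_row_iff.1 hc).2.symm.trans (YoungDiagram.mem_row_iff.1 hc').2)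

theorem sum_mv {μ : YoungDiagram} {N : ℕ} (h : μ.colLen 0 ≤ N) :
    ∑ i, mv N μ i = μ.card + ∑ i ∈ range N, i := by
  unfold mv
  rw [sum_add_distrib, card_eq_sum h, Fin.sum_univ_eq_sum_range (fun i => μ.rowLen (N - 1 - i)),
    Fin.sum_univ_eq_sum_range (fun i => i), sum_range_reflect]

end Pool.Agent.R178.HC
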